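import Pool.Agent.Lib.MP_465ce1_mp.Trans

/-!
Compactly supported smooth flat functions come from smooth functions on the sphere.
-/

open MeasureTheory
open scoped ContDiff Topology

namespace Pool.Agent.Lib.MP_465ce1_mp

namespace Back

variable {n : ℕ}

/-- the first `n` coordinates -/
noncomputable def ini (z : Euc (n + 1)) : Euc n := WithLp.toLp 2 (fun i => z i.castSucc)

/-- the stereographic projection, homogeneous of degree zero -/
noncomputable def prj (z : Euc (n + 1)) : Euc n := (‖z‖ - z (Fin.last n))⁻¹ • ini z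

/-- the ambient function -/
noncomputable def amb (v : Euc n → ℝ) (z : Euc (n + 1)) : ℝ :=
  open Classical in
  if ‖z‖ = z (Fin.last n) then 0 else rho (prj z) ^ (1 - (n : ℝ) / 2) * v (prj z)

lemma norm_ini_sq (z : Euc (n + 1)) : ‖ini z‖ ^ 2 = ‖z‖ ^ 2 - z (Fin.last n) ^ 2 := by
  rw [EuclideanSpace.real_norm_sq_eq, EuclideanSpace.real_norm_sq_eq z, Fin.sum_univ_castSucc]
  simp [ini]

lemma ini_smul (c : ℝ) (z : Euc (n + 1)) : ini (c • z) = c • ini z := by
  ext i; simp [ini]

lemma prj_smul {c : ℝ} (hc : 0 < c) (z : Euc (n + 1)) : prj (c • z) = prj z := by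
  unfold prj
  rw [ini_smul, norm_smul, Real.norm_of_nonneg hc.le, smul_smul]
  congr 1
  simp only [PiLp.smul_apply, smul_eq_mul]
  rw [← mul_sub, mul_inv, mul_comm c⁻¹, mul_assoc, inv_mul_cancel₀ hc.ne', mul_one]

lemma amb_smul (v : Euc n → ℝ) {c : ℝ} (hc : 0 < c) (z : Euc (n + 1)) :
    amb v (c • z) = amb v z := by
  unfold amb
  rw [prj_smul hc, norm_smul, Real.norm_of_nonneg hc.le]
  simp only [PiLp.smul_apply, smul_eq_mul, mul_right_inj' hc.ne']

lemma contDiff_ini : ContDiff ℝ ∞ (ini : Euc (n + 1) → Euc n) := by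
  rw [contDiff_euclidean]
  intro i
  simp only [ini]
  fun_prop

lemma contDiff_rho : ContDiff ℝ ∞ (rho : Euc n → ℝ) := by
  unfold rho
  refine ContDiff.div contDiff_const (contDiff_const.add (contDiff_norm_sq ℝ)) fun x => ?_
  positivity

lemma last_le (z : Euc (n + 1)) : z (Fin.last n) ≤ ‖z‖ :=
  (le_abs_self _).trans (by simpa using PiLp.norm_apply_le z (Fin.last n))

lemma contDiffAt_amb (v : Euc n → ℝ) (hv : ContDiff ℝ ∞ v) (hs : HasCompactSupport v)
    (z : Euc (n + 1)) (hz : z ≠ 0) : ContDiffAt ℝ ∞ (amb v) z := by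
  have hl : Continuous fun w : Euc (n + 1) => w (Fin.last n) := by fun_prop
  by_cases h : ‖z‖ = z (Fin.last n)
  · obtain ⟨R, hR0, hR⟩ : ∃ R : ℝ, 0 < R ∧ ∀ x, R < ‖x‖ → v x = 0 := by
      obtain ⟨R, hR⟩ := hs.isCompact.isBounded.subset_closedBall 0
      refine ⟨max R 1, by positivity, fun x hx => ?_⟩
      by_contra hne
      have := hR (subset_tsupport v hne)
      rw [mem_closedBall_zero_iff] at this
      linarith [le_max_left R 1]
    have hopen : ∀ᶠ w in 𝓝 z,
        R ^ 2 * (‖w‖ - w (Fin.last n)) < ‖w‖ + w (Fin.last n) := by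
      refine ContinuousAt.eventually_lt (by fun_prop) (by fun_prop) ?_
      have : 0 < ‖z‖ := norm_pos_iff.mpr hz
      rw [← h, sub_self, mul_zero]; linarith
    refine (contDiffAt_const (c := (0 : ℝ))).congr_of_eventuallyEq ?_
    filter_upwards [hopen] with w hw
    unfold amb
    split_ifs with h1
    · rfl
    · have hpos : 0 < ‖w‖ - w (Fin.last n) := sub_pos.mpr (lt_of_le_of_ne (last_le w) (Ne.symm h1))
      have hsq : R ^ 2 < ‖prj w‖ ^ 2 := by
        unfold prj
        rw [norm_smul, mul_pow, norm_ini_sq, Real.norm_of_nonneg (inv_pos.mpr hpos).le]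
        have e : (‖w‖ - w (Fin.last n))⁻¹ ^ 2 * (‖w‖ ^ 2 - w (Fin.last n) ^ 2) =
            (‖w‖ + w (Fin.last n)) / (‖w‖ - w (Fin.last n)) := by
          field_simp
          ring
        rw [e, lt_div_iff₀ hpos]
        exact hw
      rw [hR _ (lt_of_pow_lt_pow_left₀ 2 (norm_nonneg _) hsq), mul_zero]
  · have hopen : ∀ᶠ w in 𝓝 z, ‖w‖ ≠ w (Fin.last n) :=
      ContinuousAt.eventually_ne (g := fun w : Euc (n + 1) => ‖w‖ - w (Fin.last n)) (y := 0)
        (by fun_prop) (sub_ne_zero.mpr h) |>.mono fun w hw => sub_ne_zero.mp hw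
    have hp : ContDiffAt ℝ ∞ (prj : Euc (n + 1) → Euc n) z := by
      unfold prj
      have h3 : ContDiffAt ℝ ∞ (fun w : Euc (n + 1) => ‖w‖ - w (Fin.last n)) z :=
        (contDiffAt_norm ℝ hz).sub (by fun_prop)
      exact (h3.inv (sub_ne_zero.mpr h)).smul contDiff_ini.contDiffAt
    have h2 : ContDiffAt ℝ ∞
        (fun w : Euc (n + 1) => rho (prj w) ^ (1 - (n : ℝ) / 2) * v (prj w)) z :=
      ((contDiff_rho.contDiffAt.comp z hp).rpow_const_of_ne (rho_pos _).ne').mul
        (hv.contDiffAt.comp z hp)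
    refine h2.congr_of_eventuallyEq ?_
    filter_upwards [hopen] with w hw
    unfold amb
    rw [if_neg hw]

/-- the linear map from flat functions to functions on the sphere -/
noncomputable def bk (n : ℕ) : (Euc n → ℝ) →ₗ[ℝ] (Sph n → ℝ) where
  toFun v y := amb v y
  map_add' v w := by
    ext y
    simp only [amb, Pi.add_apply]
    split_ifs
    · simp
    · ring
  map_smul' c v := by
    ext y
    simp only [amb, Pi.smul_apply, smul_eq_mul, RingHom.id_apply]
    split_ifs
    · simp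
    · ring

lemma prj_sigA (x : Euc n) : prj (sigA x) = x := by
  unfold prj
  rw [norm_sigA]
  ext i
  have := (rho_pos x).ne'
  simp only [ini, sigA, Fin.snoc_castSucc, Fin.snoc_last, PiLp.smul_apply, smul_eq_mul]
  rw [sub_sub_cancel, ← mul_assoc, inv_mul_cancel₀ this, one_mul]

end Back

open Back in
theorem back_holds : BackStmt := by
  intro n _
  refine ⟨bk n, fun v hv hs => ⟨?_, ?_⟩⟩
  · intro z hz
    have hz0 : z ≠ 0 := hz
    refine ((contDiffAt_amb v hv hs z hz0).contDiffWithinAt).congr ?_ ?_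
    · intro w hw
      have hw0 : w ≠ 0 := hw
      unfold ext
      rw [dif_neg hw0]
      exact amb_smul v (inv_pos.mpr (norm_pos_iff.mpr hw0)) w
    · unfold ext
      rw [dif_neg hz0]
      exact amb_smul v (inv_pos.mpr (norm_pos_iff.mpr hz0)) z
  · ext x
    have hρ := rho_pos x
    have hne : ‖sigA x‖ ≠ sigA x (Fin.last n) := by
      rw [norm_sigA]
      simp only [sigA, Fin.snoc_last]
      linarith
    show rho x ^ ((n : ℝ) / 2 - 1) * amb v (sigA x) = v x
    unfold amb
    rw [if_neg hne, prj_sigA, ← mul_assoc, ← Real.rpow_add hρ]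
    simp

end Pool.Agent.Lib.MP_465ce1_mp
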