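import Pool.Agent.Lib.MP_465ce1_mp.Trans


/-!
Passing to the completion: the trace inequality for the algebraic data.
-/

open Filter Topology UniformSpace

namespace Pool.Agent.Lib.MP_465ce1_mp

lemma summable_of_count {lam : ℕ → ℝ} {C : ℝ} {p : ℕ} (h0 : ∀ k, 0 ≤ lam k)
    (h : ∀ k : ℕ, (k : ℝ) + 1 ≤ C * (2 + lam k) ^ p) {s : ℝ} (hs : 0 < s) :
    Summable fun k => Real.exp (-(s * lam k)) := by
  have h1 : Summable fun k : ℕ => 1 / ((k : ℝ) + 1) ^ 2 := by
    have := (summable_nat_add_iff 1).mpr (Real.summable_one_div_nat_pow.mpr one_lt_two)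
    simpa using this
  refine Summable.of_nonneg_of_le (fun k => (Real.exp_pos _).le) (fun k => ?_)
    (h1.mul_left (C ^ 2 * ((2 * p).factorial * Real.exp (2 * s) / s ^ (2 * p))))
  have hk : (0 : ℝ) < (k : ℝ) + 1 := by positivity
  have h2 := Real.pow_div_factorial_le_exp (s * (2 + lam k)) (by have := h0 k; positivity) (2 * p)
  have hf : (0 : ℝ) < (2 * p).factorial := by positivity
  rw [div_le_iff₀ hf, mul_pow] at h2
  have h3 : ((k : ℝ) + 1) ^ 2 ≤ C ^ 2 * (2 + lam k) ^ (2 * p) := by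
    calc _ ≤ (C * (2 + lam k) ^ p) ^ 2 := pow_le_pow_left₀ hk.le (h k) 2
      _ = _ := by ring
  have h4 : (2 + lam k) ^ (2 * p) * Real.exp (-(s * lam k)) ≤
      (2 * p).factorial * Real.exp (2 * s) / s ^ (2 * p) := by
    rw [le_div_iff₀ (by positivity)]
    have e : Real.exp (2 * s) = Real.exp (s * (2 + lam k)) * Real.exp (-(s * lam k)) := by
      rw [← Real.exp_add]; congr 1; ring
    rw [e]
    nlinarith [mul_le_mul_of_nonneg_right h2 (Real.exp_pos (-(s * lam k))).le]
  rw [mul_one_div, le_div_iff₀ (by positivity)]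
  calc Real.exp (-(s * lam k)) * ((k : ℝ) + 1) ^ 2
      ≤ Real.exp (-(s * lam k)) * (C ^ 2 * (2 + lam k) ^ (2 * p)) :=
        mul_le_mul_of_nonneg_left h3 (Real.exp_pos _).le
    _ = C ^ 2 * ((2 + lam k) ^ (2 * p) * Real.exp (-(s * lam k))) := by ring
    _ ≤ _ := mul_le_mul_of_nonneg_left h4 (sq_nonneg _)

variable {D : Type} [NormedAddCommGroup D] [InnerProductSpace ℝ D] {n : ℕ}

lemma ext_form (f : D →ₗ[ℝ] D →ₗ[ℝ] ℝ) (h0 : ∀ x, 0 ≤ f x x) (hs : ∀ x y, f x y = f y x)
    {C : ℝ} (hC : 0 ≤ C) (h : ∀ x, f x x ≤ C * ‖x‖ ^ 2) :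
    ∃ F : Completion D →L[ℝ] Completion D →L[ℝ] ℝ, ∀ x y : D, F x y = f x y := by
  have hb : ∀ x y, ‖f x y‖ ≤ C * ‖x‖ * ‖y‖ := by
    intro x y
    rw [Real.norm_eq_abs]
    refine abs_le_of_sq_le_sq' ?_ (by positivity) |> abs_le.mpr
    calc f x y ^ 2 ≤ f x x * f y y := cs_form f h0 hs x y
      _ ≤ (C * ‖x‖ ^ 2) * (C * ‖y‖ ^ 2) := mul_le_mul (h x) (h y) (h0 y) (by positivity)
      _ = _ := by ring
  refine ⟨(f.mkContinuous₂ C hb).fromCompletion.flip.fromCompletion, fun x y => ?_⟩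
  simp [hs x y]

lemma ext_op (g : D →ₗ[ℝ] D) {C : ℝ} (hC : 0 ≤ C) (h : ∀ x, ‖g x‖ ^ 2 ≤ C * ‖x‖ ^ 2) :
    ∃ G : Completion D →L[ℝ] Completion D, ∀ x : D, G x = g x := by
  have hb : ∀ x, ‖g x‖ ≤ √C * ‖x‖ := by
    intro x
    refine (abs_le_of_sq_le_sq' ?_ (by positivity)).2
    rw [mul_pow, Real.sq_sqrt hC]; exact h x
  exact ⟨(g.mkContinuous _ hb).completion, fun x => by simp⟩

/-- Min-max values over a dense subspace. -/
lemma MM_dense (q b : D →ₗ[ℝ] D →ₗ[ℝ] ℝ) (Q B : Completion D →L[ℝ] Completion D →L[ℝ] ℝ)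
    (hQ : ∀ x y : D, Q x y = q x y) (hB : ∀ x y : D, B x y = b x y)
    (hpos : ∀ x, x ≠ 0 → 0 < B x x) {k : ℕ} {L ε : ℝ} (hε : 0 < ε)
    (hL : L ∈ MM Q.toLinearMap₁₂ B.toLinearMap₁₂ k) : L + ε ∈ MM q b k := by
  obtain ⟨F, hF, h⟩ := hL
  have : FiniteDimensional ℝ F := Module.finite_of_finrank_eq_succ hF
  set e := Module.finBasis ℝ F
  have hu : ∀ a, ∃ u : ℕ → D, Tendsto (fun i => (u i : Completion D)) atTop (𝓝 (e a : F)) := by
    intro a
    obtain ⟨u, hu, hu'⟩ := mem_closure_iff_seq_limit.mp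
      (Completion.denseRange_coe (α := D) (e a : F))
    choose w hw using hu
    exact ⟨w, by simpa only [hw] using hu'⟩
  choose u hu using hu
  set T : ℕ → F →ₗ[ℝ] D := fun i => e.constr ℝ fun a => u a i with hT
  have hlim : ∀ x : F, Tendsto (fun i => (T i x : Completion D)) atTop (𝓝 (x : Completion D)) := by
    intro x
    have e1 : ∀ i, (T i x : Completion D) = ∑ a, e.equivFun x a • (u a i : Completion D) := by
      intro i
      rw [← Completion.coe_toComplL (𝕜 := ℝ), hT]
      simp only [Module.Basis.constr_apply_fintype, map_sum, map_smul]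
    have e2 : (x : Completion D) = ∑ a, e.equivFun x a • ((e a : F) : Completion D) := by
      have := congrArg F.subtype (e.sum_equivFun x)
      rw [map_sum] at this
      simpa only [map_smul, Submodule.subtype_apply] using this.symm
    rw [e2]
    simp only [e1]
    exact tendsto_finsetSum _ fun a _ => (hu a).const_smul _
  have := trans_mm (l := atTop) (D := fun _ : ℕ => D) hF T (fun _ => q) (fun _ => b)
    (fun x => Q x x) (fun x => B x x) (L := L) hε
    (fun x => by
      simp only [← hQ]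
      exact ((by fun_prop : Continuous fun y => Q y y).tendsto _).comp (hlim x))
    (fun x => by
      simp only [← hB]
      exact ((by fun_prop : Continuous fun y => B y y).tendsto _).comp (hlim x))
    (fun x hx => hpos x (by simpa using hx)) (fun x => h x x.2)
  exact this.exists.choose_spec

theorem pre_normed (hS : SpecStmt) (S : Pre D n) (hN : ∀ x, ‖x‖ ^ 2 = S.a x x + S.m x x)
    (μ0 : ℝ) (hμ0 : 0 < μ0) :
    (∀ k, (MM (S.a + μ0 • S.m) S.b k).Nonempty) ∧
    ∀ c : ℝ, 0 < c → (∀ k, c ≤ sInf (MM (S.a + μ0 • S.m) S.b k)) → ∀ P : Prof c,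
      Summable (fun k => P.Phi (sInf (MM (S.a + μ0 • S.m) S.b k))) ∧
      Summable (fun k => sInf (MM (S.a + μ0 • S.m) S.b k) *
        P.Th (sInf (MM (S.a + μ0 • S.m) S.b k))) ∧
      (n : ℝ) / 2 * ∑' k, P.Phi (sInf (MM (S.a + μ0 • S.m) S.b k)) ≤
        ∑' k, sInf (MM (S.a + μ0 • S.m) S.b k) * P.Th (sInf (MM (S.a + μ0 • S.m) S.b k)) := by
  obtain ⟨Cb, hCb0, hCb⟩ := S.b_le
  obtain ⟨Cm, hCm0, hCm⟩ := S.m_le
  obtain ⟨Cg, hCg0, hCg⟩ := S.g_bound
  obtain ⟨Cbg, hCbg⟩ := S.b_g_le
  obtain ⟨A, hA⟩ := ext_form S.a S.a_nonneg S.a_symm zero_le_one fun x => by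
    rw [hN]; linarith [S.m_nonneg x]
  obtain ⟨M, hM⟩ := ext_form S.m S.m_nonneg S.m_symm zero_le_one fun x => by
    rw [hN]; linarith [S.a_nonneg x]
  obtain ⟨B, hB⟩ := ext_form S.b S.b_nonneg S.b_symm hCb0.le fun x => by
    rw [hN]; nlinarith [S.a_nonneg x, hCb x]
  choose G hG using fun i => ext_op (S.g i) hCg0 fun x => by rw [hN, hN]; exact hCg i x
  have dr := Completion.denseRange_coe (α := D)
  have le1 : ∀ {f g : Completion D → ℝ}, Continuous f → Continuous g →
      (∀ x : D, f x ≤ g x) → ∀ x, f x ≤ g x := fun hf hg h =>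
    isClosed_property dr (isClosed_le hf hg) h
  have eq2 : ∀ {f g : Completion D × Completion D → ℝ}, Continuous f → Continuous g →
      (∀ x y : D, f (x, y) = g (x, y)) → ∀ x y, f (x, y) = g (x, y) := fun {f g} hf hg h =>
    isClosed_property2 (p := fun x y => f (x, y) = g (x, y)) dr (isClosed_eq hf hg) h
  have hBM : ∀ x, B x x ≤ Cb * M x x :=
    le1 (by fun_prop) (by fun_prop) fun x => by rw [hB, hM]; exact hCb x
  let T : Setup (Completion D) (Fin n) :=
    { a := A.toLinearMap₁₂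
      m := M.toLinearMap₁₂
      b := B.toLinearMap₁₂
      g := fun i => G i
      a_symm := eq2 (f := fun p => A p.1 p.2) (g := fun p => A p.2 p.1) (by fun_prop)
        (by fun_prop) fun x y => by simp only [hA, S.a_symm x y]
      m_symm := eq2 (f := fun p => M p.1 p.2) (g := fun p => M p.2 p.1) (by fun_prop)
        (by fun_prop) fun x y => by simp only [hM, S.m_symm x y]
      b_symm := eq2 (f := fun p => B p.1 p.2) (g := fun p => B p.2 p.1) (by fun_prop)
        (by fun_prop) fun x y => by simp only [hB, S.b_symm x y]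
      a_nonneg := le1 (g := fun x => A x x) continuous_const (by fun_prop) fun x => by
        rw [hA]; exact S.a_nonneg x
      m_nonneg := le1 (g := fun x => M x x) continuous_const (by fun_prop) fun x => by
        rw [hM]; exact S.m_nonneg x
      b_nonneg := le1 (g := fun x => B x x) continuous_const (by fun_prop) fun x => by
        rw [hB]; exact S.b_nonneg x
      m_g := fun i => eq2 (f := fun p => M (G i p.1) p.2) (g := fun p => M p.1 (G i p.2))
        (by fun_prop) (by fun_prop) fun x y => by simp only [hG, hM, S.m_g]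
      b_g := fun i => eq2 (f := fun p => B (G i p.1) p.2) (g := fun p => B p.1 (G i p.2))
        (by fun_prop) (by fun_prop) fun x y => by simp only [hG, hB, S.b_g]
      b_g_le := ⟨Cbg, fun i => le1 (f := fun x => B (G i x) (G i x)) (g := fun x => Cbg * B x x)
        (by fun_prop) (by fun_prop) fun x => by simp only [hG, hB]; exact hCbg i x⟩
      b_le := ⟨Cb, hCb0, hBM⟩
      fsum := fun i => isClosed_property
        (p := fun x => A (G i x) (G i x) - A x (G i (G i x)) = M x x) dr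
        (isClosed_eq (by fun_prop) (by fun_prop)) fun x => by simp only [hG, hA, hM, S.fsum]
      dc := fun μ hμ v φ φ0 => isClosed_property
        (p := fun z : Completion D × (Fin n → Completion D) × Completion D =>
          (∑ i, (A (G i z.1) (z.2.1 i) - A z.1 (G i (z.2.1 i))) / 2 + μ * M z.1 z.2.2) ^ 2 ≤
            M z.1 z.1 * (∑ i, (A (z.2.1 i) (z.2.1 i) + μ * M (z.2.1 i) (z.2.1 i)) +
              μ * (A z.2.2 z.2.2 + μ * M z.2.2 z.2.2)))
        (dr.prodMap ((DenseRange.piMap fun _ : Fin n => dr).prodMap dr))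
        (isClosed_le (by fun_prop) (by fun_prop))
        (fun z => by
          simp only [Prod.map_fst, Prod.map_snd, Pi.map_apply, hG, hA, hM]
          exact S.dc μ hμ _ _ _) (v, φ, φ0) }
  have hNH : ∀ x : Completion D, ‖x‖ ^ 2 = A x x + M x x :=
    isClosed_property (p := fun x : Completion D => ‖x‖ ^ 2 = A x x + M x x) dr
      (isClosed_eq (by fun_prop) (by fun_prop)) fun x => by
        simp only [hA, hM, Completion.norm_coe, hN]
  have hpos : ∀ x, x ≠ 0 → 0 < B x x := by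
    intro x hx
    refine (T.b_nonneg x).lt_of_ne fun h0 => hx ?_
    have h0' : B x x = 0 := h0.symm
    have h1 : M x x ≤ Cm * B x x :=
      le1 (f := fun x => M x x) (g := fun x => Cm * B x x) (by fun_prop) (by fun_prop)
        (fun x => by rw [hB, hM]; exact hCm x) x
    have h2 : M x x = 0 := le_antisymm (by simpa [h0'] using h1) (T.m_nonneg x)
    have h3 : ∀ y, A x y = 0 := by
      refine isClosed_property (p := fun y => A x y = 0) dr
        (isClosed_eq (by fun_prop) continuous_const) fun y => ?_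
      obtain ⟨C, hC⟩ := S.clos y
      have := le1 (f := fun x => A x y ^ 2) (g := fun x => C * M x x) (by fun_prop) (by fun_prop)
        (fun x => by rw [hA, hM]; exact hC x) x
      rw [h2, mul_zero] at this
      exact pow_eq_zero_iff two_ne_zero |>.mp (le_antisymm this (sq_nonneg _))
    have h4 := hNH x
    rw [h3, h2, add_zero] at h4
    exact norm_eq_zero.mp (pow_eq_zero_iff two_ne_zero |>.mp h4)
  have hq : ∀ μ : ℝ, T.q μ = (A + μ • M).toLinearMap₁₂ := fun μ => by
    simp only [Setup.q, T, map_add, map_smul]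
  have hQ : ∀ (μ : ℝ) (x y : D), (A + μ • M) x y = (S.a + μ • S.m) x y := fun μ x y => by
    simp [hA, hM]
  have hsub : ∀ (μ : ℝ) k, MM (S.a + μ • S.m) S.b k ⊆ MM (T.q μ) T.b k := fun μ k =>
    MM_map (Completion.toComplₗᵢ (𝕜 := ℝ) (E := D)).toLinearMap
      Completion.toComplₗᵢ.injective (fun x => by rw [hq]; exact (hQ μ x x).le)
      (fun x => hB x x) k
  have hden : ∀ (μ : ℝ) k L ε, 0 < ε → L ∈ MM (T.q μ) T.b k →
      L + ε ∈ MM (S.a + μ • S.m) S.b k := fun μ k L ε hε hL =>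
    MM_dense _ _ (A + μ • M) B (hQ μ) hB hpos hε (hq μ ▸ hL)
  obtain ⟨Cc, p, hc⟩ := S.count
  have hcount : ∀ μ : ℝ, 0 < μ → ∀ k L, 0 ≤ L → L ∈ MM (T.q μ) T.b k →
      (k : ℝ) + 1 ≤ Cc * (2 + L) ^ p := by
    intro μ hμ k L hL0 hL
    obtain ⟨F, hF, h⟩ := hden μ k L 1 one_pos hL
    have := hc (L + 1) F (by linarith) fun x hx => by
      have h1 := h x hx
      simp only [LinearMap.add_apply, LinearMap.smul_apply, smul_eq_mul] at h1
      rw [← S.a_apply]
      linarith [mul_nonneg hμ.le (S.m_nonneg x)]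
    rw [hF] at this
    push_cast at this
    rwa [show 1 + (L + 1) = 2 + L by ring] at this
  have hspec : ∀ μ : ℝ, ∃ (v : ℕ → Completion D) (lam : ℕ → ℝ), 0 < μ →
      T.IsEig μ v lam ∧ ∀ k, IsLeast (MM (T.q μ) T.b k) (lam k) := by
    intro μ
    by_cases hμ : 0 < μ
    swap
    · exact ⟨fun _ => 0, fun _ => 0, fun h => absurd h hμ⟩
    have ha : ∀ x, 0 ≤ A x x := T.a_nonneg
    have hm : ∀ x, 0 ≤ M x x := T.m_nonneg
    obtain ⟨v, lam, h1, h2, h3, h4, h5, h6⟩ := hS (Completion D) (T.q μ) T.b (min 1 μ)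
      (1 + μ + Cb) (lt_min one_pos hμ) (T.q_symm μ) T.b_symm
      (fun x => by
        rw [T.q_apply, hNH]
        change _ ≤ A x x + μ * M x x
        nlinarith [mul_le_mul_of_nonneg_right (min_le_left 1 μ) (ha x),
          mul_le_mul_of_nonneg_right (min_le_right 1 μ) (hm x)])
      (fun x => by
        rw [T.q_apply, hNH]
        change A x x + μ * M x x ≤ _
        nlinarith [ha x, hm x, mul_nonneg hμ.le (ha x), mul_nonneg hCb0.le (ha x),
          mul_nonneg hCb0.le (hm x)])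
      hpos
      (fun x => by
        rw [hNH]
        change B x x ≤ _
        nlinarith [ha x, hm x, mul_nonneg hμ.le (ha x), mul_nonneg hCb0.le (ha x),
          mul_nonneg hμ.le (hm x), hBM x])
      (fun k => by
        obtain ⟨F, hF⟩ := S.inf_dim k
        exact ⟨F.map (Completion.toComplₗᵢ (𝕜 := ℝ) (E := D)).toLinearMap, by
          rw [← hF]
          exact (Submodule.equivMapOfInjective _ Completion.toComplₗᵢ.injective F).finrank_eq.symm⟩)
      (fun L => ⟨⌈Cc * (2 + |L|) ^ p⌉₊, fun F hF => by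
        rcases Nat.eq_zero_or_eq_succ_pred (Module.finrank ℝ F) with h0 | h0
        · omega
        have := hcount μ hμ _ |L| (abs_nonneg L) ⟨F, h0, fun x hx => (hF x hx).trans
          (mul_le_mul_of_nonneg_right (le_abs_self L) (T.b_nonneg x))⟩
        have h7 : ((Module.finrank ℝ F : ℕ) : ℝ) ≤ ⌈Cc * (2 + |L|) ^ p⌉₊ := by
          rw [h0]; push_cast; exact this.trans (Nat.le_ceil _)
        exact_mod_cast h7⟩)
    exact ⟨v, lam, fun _ => ⟨⟨h1, h2, h3, h4, h5⟩, h6⟩⟩
  choose v lam hvl using hspec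
  obtain ⟨E0, L0⟩ := hvl μ0 hμ0
  have hlam : ∀ k, sInf (MM (S.a + μ0 • S.m) S.b k) = lam μ0 k := fun k =>
    csInf_eq_of_forall_ge_of_forall_gt_exists_lt ⟨_, hden μ0 k _ 1 one_pos (L0 k).1⟩
      (fun L hL => (L0 k).2 (hsub μ0 k hL)) fun w hw =>
        ⟨_, hden μ0 k _ ((w - lam μ0 k) / 2) (by linarith) (L0 k).1, by linarith⟩
  refine ⟨fun k => ⟨_, hden μ0 k _ 1 one_pos (L0 k).1⟩, fun c hc0 hcl P => ?_⟩
  simp only [hlam] at hcl ⊢
  have hmono : ∀ μ, μ0 ≤ μ → ∀ k, lam μ0 k ≤ lam μ k := fun μ h k =>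
    (L0 k).2 (MM_map LinearMap.id Function.injective_id (fun x => by
      simp only [LinearMap.id_apply, T.q_apply]
      linarith [mul_le_mul_of_nonneg_right h (T.m_nonneg x)]) (fun _ => rfl) k
      ((hvl μ (hμ0.trans_le h)).2 k).1)
  have hctl : ∀ μ, μ0 ≤ μ → Ctl c (lam μ0) (lam μ) := fun μ h =>
    ⟨hc0, fun k => (hcl k).trans (hmono μ h k), hmono μ h, fun s hs =>
      summable_of_count (fun k => (E0.pos k).le)
        (fun k => hcount μ0 hμ0 k _ (E0.pos k).le (L0 k).1) hs⟩
  refine ⟨(hctl μ0 le_rfl).sPhi P, (hctl μ0 le_rfl).sLam P, ?_⟩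
  simpa using T.trace_ineq hμ0 (fun μ h => (hvl μ (hμ0.trans_le h)).1) hctl P

theorem pre_of_spec (hS : SpecStmt) : PreStmt := by
  intro D _ _ n S μ hμ
  let cd : InnerProductSpace.Core ℝ D :=
    { inner := fun x y => S.a x y + S.m x y
      conj_inner_symm := fun x y => by simp [S.a_symm x y, S.m_symm x y]
      re_inner_nonneg := fun x => by simpa using add_nonneg (S.a_nonneg x) (S.m_nonneg x)
      add_left := fun x y z => by simp only [map_add, LinearMap.add_apply]; ring
      smul_left := fun x y r => by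
        simp only [map_smul, LinearMap.smul_apply, smul_eq_mul, conj_trivial]; ring
      definite := fun x hx => by
        by_contra h0
        linarith [S.a_nonneg x, S.m_pos x h0] }
  letI i1 : NormedAddCommGroup D := @InnerProductSpace.Core.toNormedAddCommGroup ℝ D _ _ _ cd
  letI i2 : InnerProductSpace ℝ D := InnerProductSpace.ofCore cd.toCore
  exact pre_normed hS S (fun x => (real_inner_self_eq_norm_sq x).symm) μ hμ

end Pool.Agent.Lib.MP_465ce1_mp
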