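import Pool.Agent.Lib.MP_465ce1_mp.Trans

-- part Pool.Agent.Lib.MP_465ce1_mp.Count
section

/-!
A crude polynomial Weyl bound: Hardy inequality, a local Poincare inequality and a finite net.
-/

open MeasureTheory Metric Set
open scoped ContDiff ENNReal

namespace Pool.Agent.Lib.MP_465ce1_mp

namespace Count

theorem sq_lintegral_le {α : Type*} [MeasurableSpace α] (μ : Measure α) {f : α → ℝ≥0∞}
    (hf : AEMeasurable f μ) : (∫⁻ a, f a ∂μ) ^ 2 ≤ μ univ * ∫⁻ a, f a ^ 2 ∂μ := by
  have h := ENNReal.lintegral_mul_le_Lp_mul_Lq μ Real.HolderConjugate.two_two hf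
    (aemeasurable_const (b := (1 : ℝ≥0∞)))
  simp only [Pi.mul_apply, mul_one, ENNReal.one_rpow, lintegral_const, one_mul] at h
  refine (pow_le_pow_left' h 2).trans_eq ?_
  rw [mul_pow, ← ENNReal.rpow_natCast, ← ENNReal.rpow_natCast, ← ENNReal.rpow_mul,
    ← ENNReal.rpow_mul, mul_comm]
  norm_num

variable {n : ℕ}

theorem enorm_sub_le {v : Euc n → ℝ} (hv : ContDiff ℝ 1 v) (x h : Euc n) :
    ‖v (x + h) - v x‖ₑ ≤ ∫⁻ t in Ioc (0 : ℝ) 1, ‖fderiv ℝ v (x + t • h)‖ₑ * ‖h‖ₑ := by
  have hd : ∀ t : ℝ, HasDerivAt (fun t : ℝ => v (x + t • h)) (fderiv ℝ v (x + t • h) h) t :=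
    fun t => by
      have h1 : HasDerivAt (fun t : ℝ => x + t • h) h t := by
        simpa using ((hasDerivAt_id t).smul_const h).const_add x
      exact ((hv.differentiable one_ne_zero) _).hasFDerivAt.comp_hasDerivAt t h1
  have hc : Continuous fun t : ℝ => fderiv ℝ v (x + t • h) h :=
    ((hv.continuous_fderiv one_ne_zero).comp (by fun_prop)).clm_apply continuous_const
  have h2 := intervalIntegral.integral_eq_sub_of_hasDerivAt (a := 0) (b := 1)
    (fun t _ => hd t) (hc.intervalIntegrable _ _)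
  simp only [one_smul, zero_smul, add_zero] at h2
  rw [← h2, intervalIntegral.integral_of_le zero_le_one]
  refine (enorm_integral_le_lintegral_enorm _).trans (lintegral_mono fun t => ?_)
  exact ContinuousLinearMap.le_opENorm _ _

/-- The averaging measure on pairs (direction, time). -/
noncomputable def nu (n : ℕ) (e : ℝ) : Measure (Euc n × ℝ) :=
  (volume.restrict (ball (0 : Euc n) (2 * e))).prod (volume.restrict (Ioc (0 : ℝ) 1))

instance (e : ℝ) : SFinite (nu n e) := by unfold nu; infer_instance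

theorem nu_univ {e : ℝ} : nu n e univ = 2 ^ n * volume (ball (0 : Euc n) e) := by
  rw [nu, ← univ_prod_univ, Measure.prod_prod, Measure.restrict_apply_univ,
    Measure.restrict_apply_univ, Measure.addHaar_ball_mul_of_pos _ _ two_pos]
  simp [ENNReal.ofReal_pow]

theorem point_le {v : Euc n → ℝ} (hv : ContDiff ℝ 1 v) {e : ℝ} {x z : Euc n}
    (hxz : dist x z ≤ e) (h0 : ∫ y in ball z e, v y = 0) :
    volume (ball (0 : Euc n) e) * ‖v x‖ₑ ≤
      ENNReal.ofReal (2 * e) * ∫⁻ p, ‖fderiv ℝ v (x + p.2 • p.1)‖ₑ ∂nu n e := by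
  have hcf := hv.continuous_fderiv one_ne_zero
  have hvi : IntegrableOn v (ball z e) :=
    (hv.continuous.continuousOn.integrableOn_compact (isCompact_closedBall z e)).mono_set
      ball_subset_closedBall
  have hfin : volume (ball z e) ≠ ⊤ := measure_ball_lt_top.ne
  have h1 : ∫ y in ball z e, (v y - v x) = -((volume (ball z e)).toReal * v x) := by
    rw [integral_sub hvi (integrableOn_const hfin), h0, setIntegral_const]
    simp [Measure.real]
  have h2 : volume (ball (0 : Euc n) e) * ‖v x‖ₑ = ‖∫ y in ball z e, (v y - v x)‖ₑ := by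
    rw [h1, enorm_neg, enorm_mul, ← Measure.addHaar_ball_center volume z,
      Real.enorm_toReal hfin]
  have h3 : ball z e ⊆ (fun h => x + h) '' ball (0 : Euc n) (2 * e) := fun y hy => by
    refine ⟨y - x, ?_, by simp⟩
    rw [mem_ball_zero_iff, ← dist_eq_norm]
    have := dist_triangle y z x
    rw [mem_ball] at hy
    rw [dist_comm] at hxz
    linarith
  have h4 : ∫⁻ y in (fun h => x + h) '' ball (0 : Euc n) (2 * e), ‖v y - v x‖ₑ =
      ∫⁻ h in ball (0 : Euc n) (2 * e), ‖v (x + h) - v x‖ₑ :=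
    ((measurePreserving_add_left volume x).setLIntegral_comp_emb
      (measurableEmbedding_addLeft x) (fun y => ‖v y - v x‖ₑ) _).symm
  have hm : Measurable fun p : Euc n × ℝ => ‖fderiv ℝ v (x + p.2 • p.1)‖ₑ :=
    (hcf.comp (by fun_prop : Continuous fun p : Euc n × ℝ => x + p.2 • p.1)).enorm.measurable
  rw [h2, nu, lintegral_prod _ hm.aemeasurable, ← lintegral_const_mul' _ _ ENNReal.ofReal_ne_top]
  refine (enorm_integral_le_lintegral_enorm _).trans ((lintegral_mono_set h3).trans ?_)
  rw [h4]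
  refine setLIntegral_mono' measurableSet_ball fun h hh => (enorm_sub_le hv x h).trans ?_
  rw [← lintegral_const_mul' _ _ ENNReal.ofReal_ne_top]
  refine lintegral_mono fun t => ?_
  rw [mul_comm]
  gcongr
  rw [← ofReal_norm]
  exact ENNReal.ofReal_le_ofReal (mem_ball_zero_iff.1 hh).le

theorem local_le {v : Euc n → ℝ} (hv : ContDiff ℝ 1 v) {e : ℝ} (he : 0 < e) {S : Set (Euc n)}
    (hS : MeasurableSet S) (h0 : ∀ x ∈ S, ∃ z, dist x z ≤ e ∧ ∫ y in ball z e, v y = 0) :
    ∫⁻ x in S, ‖v x‖ₑ ^ 2 ≤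
      (2 ^ n * ENNReal.ofReal (2 * e)) ^ 2 * ∫⁻ x, ‖fderiv ℝ v x‖ₑ ^ 2 := by
  have hcf := hv.continuous_fderiv one_ne_zero
  set b := volume (ball (0 : Euc n) e) with hb
  have hb0 : b ^ 2 ≠ 0 := pow_ne_zero _ (measure_ball_pos _ _ he).ne'
  have hb1 : b ^ 2 ≠ ⊤ := ENNReal.pow_ne_top measure_ball_lt_top.ne
  have hm : Measurable (Function.uncurry fun (x : Euc n) (p : Euc n × ℝ) =>
      ‖fderiv ℝ v (x + p.2 • p.1)‖ₑ ^ 2) :=
    (hcf.comp (by fun_prop :
      Continuous fun q : Euc n × Euc n × ℝ => q.1 + q.2.2 • q.2.1)).enorm.measurable.pow_const 2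
  have h1 : ∀ x ∈ S, b ^ 2 * ‖v x‖ₑ ^ 2 ≤ (ENNReal.ofReal (2 * e) ^ 2 * (2 ^ n * b)) *
      ∫⁻ p, ‖fderiv ℝ v (x + p.2 • p.1)‖ₑ ^ 2 ∂nu n e := fun x hx => by
    obtain ⟨z, hz, hz0⟩ := h0 x hx
    have hm' : Measurable fun p : Euc n × ℝ => ‖fderiv ℝ v (x + p.2 • p.1)‖ₑ :=
      (hcf.comp (by fun_prop : Continuous fun p : Euc n × ℝ => x + p.2 • p.1)).enorm.measurable
    rw [← mul_pow, mul_assoc, ← nu_univ]
    refine (pow_le_pow_left' (point_le hv hz hz0) 2).trans ?_
    rw [mul_pow]
    gcongr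
    exact sq_lintegral_le _ hm'.aemeasurable
  have hK : ENNReal.ofReal (2 * e) ^ 2 * (2 ^ n * b) ≠ ⊤ :=
    ENNReal.mul_ne_top (ENNReal.pow_ne_top ENNReal.ofReal_ne_top)
      (ENNReal.mul_ne_top (ENNReal.pow_ne_top ENNReal.ofNat_ne_top) measure_ball_lt_top.ne)
  rw [← ENNReal.mul_le_mul_iff_right hb0 hb1, ← lintegral_const_mul' _ _ hb1]
  refine (setLIntegral_mono' hS h1).trans ((setLIntegral_le_lintegral _ _).trans_eq ?_)
  rw [lintegral_const_mul' _ _ hK, lintegral_lintegral_swap hm.aemeasurable]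
  have h2 : ∀ p : Euc n × ℝ, ∫⁻ x, ‖fderiv ℝ v (x + p.2 • p.1)‖ₑ ^ 2 =
      ∫⁻ x, ‖fderiv ℝ v x‖ₑ ^ 2 := fun p =>
    lintegral_add_right_eq_self (fun x => ‖fderiv ℝ v x‖ₑ ^ 2) _
  simp only [h2, lintegral_const, nu_univ, ← hb]
  ring

theorem int_grad {v : Euc n → ℝ} (hv : ContDiff ℝ 1 v) (hc : HasCompactSupport v) :
    Integrable fun x => ‖fderiv ℝ v x‖ ^ 2 := by
  have h1 : Continuous fun x => ‖fderiv ℝ v x‖ ^ 2 :=
    (hv.continuous_fderiv one_ne_zero).norm.pow 2
  have h2 : HasCompactSupport fun x => ‖fderiv ℝ v x‖ ^ 2 :=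
    (hc.fderiv ℝ).mono fun x hx h => hx (by simp [h])
  exact h1.integrable_of_hasCompactSupport h2

theorem int_mul_sq {v w : Euc n → ℝ} (hw : Continuous w) (hv : Continuous v)
    (hc : HasCompactSupport v) : Integrable fun x => w x * v x ^ 2 := by
  have h1 : Continuous fun x => w x * v x ^ 2 := hw.mul (hv.pow 2)
  have h2 : HasCompactSupport fun x => w x * v x ^ 2 := hc.mono fun x hx h => hx (by simp [h])
  exact h1.integrable_of_hasCompactSupport h2

theorem local_real {v : Euc n → ℝ} (hv : ContDiff ℝ 1 v) (hc : HasCompactSupport v) {e : ℝ}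
    (he : 0 < e) {S : Set (Euc n)} (hS : MeasurableSet S)
    (h0 : ∀ x ∈ S, ∃ z, dist x z ≤ e ∧ ∫ y in ball z e, v y = 0) :
    ∫ x in S, v x ^ 2 ≤ (2 ^ n * (2 * e)) ^ 2 * ∫ x, ‖fderiv ℝ v x‖ ^ 2 := by
  have h1 := local_le hv he hS h0
  have hi : Integrable fun x => v x ^ 2 := by
    simpa using int_mul_sq (w := fun _ => 1) continuous_const hv.continuous hc
  have ha : 0 ≤ ∫ x, ‖fderiv ℝ v x‖ ^ 2 := integral_nonneg fun x => by positivity
  rw [← ENNReal.ofReal_le_ofReal_iff (by positivity), ENNReal.ofReal_mul (by positivity),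
    ofReal_integral_eq_lintegral_ofReal hi.integrableOn (ae_of_all _ fun x => sq_nonneg _),
    ofReal_integral_eq_lintegral_ofReal (int_grad hv hc) (ae_of_all _ fun x => sq_nonneg _)]
  convert h1 using 3
  · rw [← sq_abs, ENNReal.ofReal_pow (abs_nonneg _), ← Real.norm_eq_abs, ofReal_norm]
  · rw [ENNReal.ofReal_pow (by positivity), ENNReal.ofReal_mul (by positivity),
      ENNReal.ofReal_pow (by positivity)]
    simp
  · funext x
    rw [ENNReal.ofReal_pow (norm_nonneg _), ofReal_norm]

theorem div_zero {w : Euc n → ℝ} (hw : ContDiff ℝ 1 w) (hc : HasCompactSupport w) :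
    ∫ x, fderiv ℝ w x x = -(n * ∫ x, w x) := by
  have hcf := hw.continuous_fderiv one_ne_zero
  have hwi : Integrable w := hw.continuous.integrable_of_hasCompactSupport hc
  have hi : ∀ i : Fin n,
      Integrable fun x : Euc n => x i * fderiv ℝ w x (EuclideanSpace.single i 1) := fun i =>
    (Continuous.mul (by fun_prop) (hcf.clm_apply continuous_const)).integrable_of_hasCompactSupport
      (HasCompactSupport.mul_left (hc.fderiv_apply ℝ _))
  have h1 : ∀ i : Fin n, ∫ x : Euc n, x i * fderiv ℝ w x (EuclideanSpace.single i 1) =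
      -∫ x, w x := fun i => by
    have hf : ∀ x : Euc n, fderiv ℝ (fun y : Euc n => y i) x (EuclideanSpace.single i 1) = 1 :=
      fun x => by
        have : fderiv ℝ (fun y : Euc n => y i) x = EuclideanSpace.proj i :=
          (EuclideanSpace.proj (𝕜 := ℝ) i).fderiv
        rw [this]
        simp
    have := integral_mul_fderiv_eq_neg_fderiv_mul_of_integrable (μ := volume)
      (f := fun y : Euc n => y i) (g := w) (v := EuclideanSpace.single i 1)
      (by simpa [hf] using hwi) (hi i)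
      ((Continuous.mul (by fun_prop) hw.continuous).integrable_of_hasCompactSupport
        (HasCompactSupport.mul_left hc))
      (fun x _ => by fun_prop) (fun x _ => hw.differentiable one_ne_zero x)
    simpa [hf] using this
  have h2 : ∀ x : Euc n, fderiv ℝ w x x =
      ∑ i, x i * fderiv ℝ w x (EuclideanSpace.single i 1) := fun x => by
    have := congrArg (fderiv ℝ w x) ((EuclideanSpace.basisFun (Fin n) ℝ).sum_repr x)
    rw [← this]
    simp
  simp only [h2]
  rw [integral_finsetSum _ fun i _ => hi i]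
  simp [h1]

theorem contDiff_rho : ContDiff ℝ 1 (rho : Euc n → ℝ) :=
  contDiff_const.div (contDiff_const.add (contDiff_norm_sq ℝ)) fun x => by positivity

theorem fderiv_rho (x : Euc n) : fderiv ℝ rho x x = -(rho x * (2 - rho x)) := by
  have h1 : HasFDerivAt (fun y : Euc n => 1 + ‖y‖ ^ 2) (2 • innerSL ℝ x) x :=
    (hasStrictFDerivAt_norm_sq x).hasFDerivAt.const_add 1
  have h2 : (fun y : Euc n => rho y * (1 + ‖y‖ ^ 2)) = fun _ => 2 := by
    funext y
    unfold rho
    field_simp
  have h3 := ((contDiff_rho.differentiable one_ne_zero x).hasFDerivAt.mul h1).fderiv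
  have h4 : fderiv ℝ (rho * fun y : Euc n => 1 + ‖y‖ ^ 2) x = 0 := by
    change fderiv ℝ (fun y : Euc n => rho y * (1 + ‖y‖ ^ 2)) x = 0
    rw [h2]
    simp
  have h5 := congrArg (fun T : Euc n →L[ℝ] ℝ => T x) (h3.symm.trans h4)
  simp at h5
  have h6 := rho_mul_norm_sq x
  have h7 : rho x * (1 + ‖x‖ ^ 2) = 2 := congrFun h2 x
  have h8 : (0 : ℝ) < 1 + ‖x‖ ^ 2 := by positivity
  apply mul_left_cancel₀ h8.ne'
  nlinarith

theorem hardy (hn : 3 ≤ n) {v : Euc n → ℝ} (hv : ContDiff ℝ 1 v) (hc : HasCompactSupport v) :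
    ∫ x, rho x * v x ^ 2 ≤ 8 * ∫ x, ‖fderiv ℝ v x‖ ^ 2 := by
  have hw : ContDiff ℝ 1 fun x => rho x * v x ^ 2 := contDiff_rho.mul (hv.pow 2)
  have hwc : HasCompactSupport fun x => rho x * v x ^ 2 :=
    hc.mono fun x hx h => hx (by simp [h])
  have h1 := div_zero hw hwc
  have hwi := int_mul_sq contDiff_rho.continuous hv.continuous hc
  have h2 : ∀ x, -(5 / 2 * (rho x * v x ^ 2) + 4 * ‖fderiv ℝ v x‖ ^ 2) ≤
      fderiv ℝ (fun x => rho x * v x ^ 2) x x := fun x => by
    have h3 := ((contDiff_rho.differentiable one_ne_zero x).hasFDerivAt.mul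
      ((hv.differentiable one_ne_zero x).hasFDerivAt.pow 2)).fderiv
    have h4 : fderiv ℝ (fun x => rho x * v x ^ 2) x x =
        rho x * (2 * v x * fderiv ℝ v x x) + v x ^ 2 * fderiv ℝ rho x x := by
      have := congrArg (fun T : Euc n →L[ℝ] ℝ => T x) h3
      refine this.trans ?_
      simp [mul_assoc]
    rw [h4, fderiv_rho]
    have h5 : |fderiv ℝ v x x| ≤ ‖fderiv ℝ v x‖ * ‖x‖ := (fderiv ℝ v x).le_opNorm x
    have h6 := rho_mul_norm_sq x
    have h7 := rho_pos x
    have h8 : -(|v x| * (‖fderiv ℝ v x‖ * ‖x‖)) ≤ v x * fderiv ℝ v x x := by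
      have := neg_abs_le (v x * fderiv ℝ v x x)
      rw [abs_mul] at this
      nlinarith [abs_nonneg (v x)]
    have h9 := sq_nonneg (rho x * |v x| * ‖x‖ / 2 - 2 * ‖fderiv ℝ v x‖)
    have h10 : (rho x * |v x| * ‖x‖ / 2) ^ 2 = rho x * v x ^ 2 * (2 - rho x) / 4 := by
      rw [← h6, ← sq_abs (v x)]
      ring
    nlinarith [mul_le_mul_of_nonneg_left h8 h7.le, sq_nonneg (rho x * v x)]
  have hfi : Integrable fun x => fderiv ℝ (fun x => rho x * v x ^ 2) x x :=
    ((hw.continuous_fderiv one_ne_zero).clm_apply continuous_id).integrable_of_hasCompactSupport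
      ((hwc.fderiv ℝ).mono fun x hx h => hx (by simp [h]))
  have h3 := integral_mono ((hwi.const_mul (5 / 2)).add ((int_grad hv hc).const_mul 4)).neg hfi h2
  simp only [Pi.neg_apply, Pi.add_apply] at h3
  rw [integral_neg, integral_add (hwi.const_mul _) ((int_grad hv hc).const_mul 4),
    integral_const_mul, integral_const_mul, h1] at h3
  have h4 : 0 ≤ ∫ x, rho x * v x ^ 2 :=
    integral_nonneg fun x => mul_nonneg (rho_pos x).le (sq_nonneg _)
  have h5 : (3 : ℝ) ≤ n := by exact_mod_cast hn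
  nlinarith

theorem net (hn : 1 ≤ n) {R e : ℝ} (hR : 0 ≤ R) (he : 0 < e) : ∃ Z : Finset (Euc n),
    (Z.card : ℝ) ≤ (2 * (n * R / e) + 5) ^ n ∧ ∀ x : Euc n, ‖x‖ ≤ R → ∃ z ∈ Z, dist x z ≤ e := by
  classical
  have hn' : (1 : ℝ) ≤ n := by exact_mod_cast hn
  set d := e / n with hd
  have hd0 : 0 < d := by positivity
  set M : ℕ := ⌈R / d⌉₊ + 1 with hM
  refine ⟨(Fintype.piFinset fun _ : Fin n => Finset.Icc (-(M : ℤ)) M).image
    fun k => WithLp.toLp 2 fun i => d * (k i : ℝ), ?_, fun x hx => ?_⟩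
  · refine (Nat.cast_le.2 Finset.card_image_le).trans ?_
    rw [Fintype.card_piFinset_const, Int.card_Icc, Nat.cast_pow]
    have h1 : ((M : ℤ) + 1 - -(M : ℤ)).toNat = 2 * M + 1 := by omega
    have h2 := (Nat.ceil_lt_add_one (div_nonneg hR hd0.le)).le
    have h3 : R / d = n * R / e := by rw [hd]; field_simp
    rw [h1]
    gcongr
    rw [hM, ← h3]
    push_cast
    linarith
  · refine ⟨_, Finset.mem_image_of_mem _ (a := fun i => ⌊x i / d⌋) ?_, ?_⟩
    · rw [Fintype.mem_piFinset]
      intro i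
      have h1 : |x i| ≤ R := (PiLp.norm_apply_le x i).trans hx
      have h2 : |x i / d| ≤ R / d := by
        rw [abs_div, abs_of_pos hd0]
        gcongr
      have h3 := Nat.le_ceil (R / d)
      rw [abs_le] at h2
      rw [Finset.mem_Icc, Int.le_floor, Int.floor_le_iff, hM]
      push_cast
      constructor <;> linarith
    · rw [EuclideanSpace.dist_eq, Real.sqrt_le_left he.le]
      have h1 : ∀ i, dist (x i) (d * (⌊x i / d⌋ : ℝ)) ^ 2 ≤ d ^ 2 := fun i => by
        have h2 := Int.floor_le (x i / d)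
        have h3 := Int.lt_floor_add_one (x i / d)
        rw [le_div_iff₀ hd0] at h2
        rw [div_lt_iff₀ hd0] at h3
        rw [Real.dist_eq, sq_abs]
        nlinarith
      refine (Finset.sum_le_sum fun i _ => h1 i).trans ?_
      have h4 : e = n * d := by rw [hd]; field_simp
      rw [Finset.sum_const, Finset.card_univ, Fintype.card_fin, nsmul_eq_mul, h4]
      nlinarith [sq_nonneg d]

theorem vanish (hn : 3 ≤ n) {v : Euc n → ℝ} (hv : ContDiff ℝ 1 v) (hc : HasCompactSupport v)
    {L : ℝ} (hL : 0 ≤ L) (hE : ∫ x, ‖fderiv ℝ v x‖ ^ 2 ≤ L * ∫ x, rho x ^ 2 * v x ^ 2)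
    (h0 : ∀ x : Euc n, ‖x‖ ≤ 8 * (1 + L) → ∃ z, dist x z ≤ 1 / (8 * 2 ^ n * (1 + L)) ∧
      ∫ y in ball z (1 / (8 * 2 ^ n * (1 + L))), v y = 0) : v = 0 := by
  have h1 := hardy hn hv hc
  have h2 := local_real hv hc (by positivity) (S := closedBall 0 (8 * (1 + L)))
    measurableSet_closedBall fun x hx => h0 x (mem_closedBall_zero_iff.1 hx)
  have hwi := int_mul_sq contDiff_rho.continuous hv.continuous hc
  have hi : Integrable fun x => v x ^ 2 := by
    simpa using int_mul_sq (w := fun _ => 1) continuous_const hv.continuous hc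
  have hT : (0 : ℝ) < (1 + L) ^ 2 := by positivity
  have h3 : ∀ x, rho x ^ 2 * v x ^ 2 ≤
      4 * (closedBall (0 : Euc n) (8 * (1 + L))).indicator (fun x => v x ^ 2) x +
        1 / (32 * (1 + L) ^ 2) * (rho x * v x ^ 2) := fun x => by
    have h4 := rho_pos x
    have h5 := rho_le_two x
    by_cases hx : x ∈ closedBall (0 : Euc n) (8 * (1 + L))
    · rw [indicator_of_mem hx]
      have : 0 ≤ 1 / (32 * (1 + L) ^ 2) * (rho x * v x ^ 2) := by positivity
      have h6 : rho x ^ 2 ≤ 4 := by nlinarith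
      nlinarith [sq_nonneg (v x)]
    · rw [indicator_of_notMem hx]
      rw [mem_closedBall_zero_iff, not_le] at hx
      have h6 : rho x ≤ 1 / (32 * (1 + L) ^ 2) := by
        unfold rho
        rw [div_le_div_iff₀ (by positivity) (by positivity)]
        nlinarith
      have h7 : 0 ≤ rho x * v x ^ 2 := by positivity
      nlinarith
  have hind := hi.indicator (measurableSet_closedBall (x := (0 : Euc n)) (ε := 8 * (1 + L)))
  have h4 := integral_mono (int_mul_sq (contDiff_rho.continuous.pow 2) hv.continuous hc)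
    ((hind.const_mul 4).add (hwi.const_mul (1 / (32 * (1 + L) ^ 2)))) h3
  simp only [Pi.add_apply, Pi.pow_apply] at h4
  rw [integral_add (hind.const_mul 4) (hwi.const_mul _), integral_const_mul, integral_const_mul,
    integral_indicator measurableSet_closedBall] at h4
  set a := ∫ x, ‖fderiv ℝ v x‖ ^ 2 with ha
  have ha0 : 0 ≤ a := integral_nonneg fun x => by positivity
  have h5 : ((2 : ℝ) ^ n * (2 * (1 / (8 * 2 ^ n * (1 + L))))) ^ 2 = 1 / (16 * (1 + L) ^ 2) := by
    field_simp
    norm_num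
  rw [h5] at h2
  have h6 : ∫ x, rho x ^ 2 * v x ^ 2 ≤ a / (2 * (1 + L) ^ 2) := by
    have h7 : 1 / (32 * (1 + L) ^ 2) * ∫ x, rho x * v x ^ 2 ≤ 1 / (32 * (1 + L) ^ 2) * (8 * a) := by
      gcongr
    have h8 : a / (2 * (1 + L) ^ 2) =
        4 * (1 / (16 * (1 + L) ^ 2) * a) + 1 / (32 * (1 + L) ^ 2) * (8 * a) := by
      field_simp
      ring
    linarith
  have h7 : a * (2 * (1 + L) ^ 2) ≤ L * a := by
    have := hE.trans (mul_le_mul_of_nonneg_left h6 hL)
    rwa [← mul_div_assoc, le_div_iff₀ (by positivity)] at this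
  have h8 : a ≤ 0 := by nlinarith [mul_nonneg ha0 hL, mul_nonneg ha0 (sq_nonneg L)]
  have h9 : ∫ x, rho x * v x ^ 2 = 0 :=
    le_antisymm (by linarith) (integral_nonneg fun x => mul_nonneg (rho_pos x).le (sq_nonneg _))
  rw [integral_eq_zero_iff_of_nonneg (fun x => mul_nonneg (rho_pos x).le (sq_nonneg _)) hwi,
    Continuous.ae_eq_iff_eq volume (f := fun x => rho x * v x ^ 2)
      (contDiff_rho.continuous.mul (hv.continuous.pow 2)) continuous_zero] at h9
  funext x
  have := congrFun h9 x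
  simpa [(rho_pos x).ne'] using this

end Count

open Pool.Agent.Lib.MP_465ce1_mp.Count in
theorem count_holds : CountStmt := by
  intro n hn
  refine ⟨(128 * n * 2 ^ n + 5) ^ n, 2 * n, fun L F hL hF => ?_⟩
  obtain ⟨Z, hZ, hZ'⟩ := net (n := n) (by omega) (R := 8 * (1 + L))
    (e := 1 / (8 * 2 ^ n * (1 + L))) (by positivity) (by positivity)
  have hi : ∀ (v : F) (z : Euc n) (e : ℝ), IntegrableOn (v : Euc n → ℝ) (ball z e) := fun v z e =>
    ((hF v v.2).1.continuous.integrable_of_hasCompactSupport (hF v v.2).2.1).integrableOn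
  let Φ : F →ₗ[ℝ] (Z → ℝ) :=
    { toFun := fun v z => ∫ y in ball (z : Euc n) (1 / (8 * 2 ^ n * (1 + L))), (v : Euc n → ℝ) y
      map_add' := fun v w => funext fun z => integral_add (hi v _ _) (hi w _ _)
      map_smul' := fun c v => funext fun z => integral_const_mul c _ }
  have hΦ : Function.Injective Φ := by
    rw [injective_iff_map_eq_zero]
    intro v hv
    obtain ⟨h1, h2, h3⟩ := hF v v.2
    refine Subtype.ext (vanish hn (h1.of_le (by simp)) h2 hL h3 fun x hx => ?_)
    obtain ⟨z, hz, hxz⟩ := hZ' x hx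
    exact ⟨z, hxz, congrFun hv ⟨z, hz⟩⟩
  have h1 := LinearMap.finrank_le_finrank_of_injective hΦ
  rw [Module.finrank_fintype_fun_eq_card, Fintype.card_coe] at h1
  refine (Nat.cast_le.2 h1).trans (hZ.trans ?_)
  rw [pow_mul, ← mul_pow]
  gcongr
  have h2 : (n : ℝ) * (8 * (1 + L)) / (1 / (8 * 2 ^ n * (1 + L))) =
      64 * n * 2 ^ n * (1 + L) ^ 2 := by
    field_simp
    norm_num
  rw [h2]
  nlinarith [sq_nonneg L]

end Pool.Agent.Lib.MP_465ce1_mp
end

-- part Pool.Agent.Lib.MP_465ce1_mp.Conc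
section

/-!
The concrete algebraic data on a ball.
-/

open MeasureTheory Filter Topology
open scoped ContDiff

namespace Pool.Agent.Lib.MP_465ce1_mp

namespace Conc

variable {n : ℕ} {R : ℝ}

lemma smooth (v : DR n R) : ContDiff ℝ ∞ (v : Euc n → ℝ) := v.2.1

lemma zero_out (v : DR n R) {x : Euc n} (hx : R < ‖x‖) : (v : Euc n → ℝ) x = 0 := v.2.2 x hx

lemma cont (v : DR n R) : Continuous (v : Euc n → ℝ) := (smooth v).continuous

lemma hcs (v : DR n R) : HasCompactSupport (v : Euc n → ℝ) :=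
  HasCompactSupport.intro (isCompact_closedBall (0 : Euc n) R) fun x hx =>
    zero_out v (by simpa using hx)

lemma int_w {W : Euc n → ℝ} (hW : Continuous W) (u v : DR n R) :
    Integrable fun x => W x * ((u : Euc n → ℝ) x * (v : Euc n → ℝ) x) := by
  have h1 : Continuous fun x => W x * ((u : Euc n → ℝ) x * (v : Euc n → ℝ) x) :=
    hW.mul ((cont u).mul (cont v))
  have h2 : HasCompactSupport fun x => W x * ((u : Euc n → ℝ) x * (v : Euc n → ℝ) x) :=
    (hcs v).mono fun x hx h => hx (by simp [h])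
  exact h1.integrable_of_hasCompactSupport h2

lemma int_one (u v : DR n R) :
    Integrable fun x => (u : Euc n → ℝ) x * (v : Euc n → ℝ) x := by
  simpa using int_w (W := fun _ => 1) continuous_const u v

/-- The weighted mass form. -/
noncomputable def form (W : Euc n → ℝ) (hW : Continuous W) : DR n R →ₗ[ℝ] DR n R →ₗ[ℝ] ℝ :=
  LinearMap.mk₂ ℝ (fun u v => ∫ x, W x * ((u : Euc n → ℝ) x * (v : Euc n → ℝ) x))
    (fun u u' v => by
      rw [← integral_add (int_w hW u v) (int_w hW u' v)]
      congr 1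
      funext x
      simp only [Submodule.coe_add, Pi.add_apply]
      ring)
    (fun c u v => by
      rw [smul_eq_mul, ← integral_const_mul]
      congr 1
      funext x
      simp only [Submodule.coe_smul, Pi.smul_apply, smul_eq_mul]
      ring)
    (fun u v v' => by
      rw [← integral_add (int_w hW u v) (int_w hW u v')]
      congr 1
      funext x
      simp only [Submodule.coe_add, Pi.add_apply]
      ring)
    (fun c u v => by
      rw [smul_eq_mul, ← integral_const_mul]
      congr 1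
      funext x
      simp only [Submodule.coe_smul, Pi.smul_apply, smul_eq_mul]
      ring)

lemma form_apply (W : Euc n → ℝ) (hW : Continuous W) (u v : DR n R) :
    form W hW u v = ∫ x, W x * ((u : Euc n → ℝ) x * (v : Euc n → ℝ) x) := rfl

lemma form_one (u v : DR n R) :
    form (fun _ => 1) continuous_const u v =
      ∫ x, (u : Euc n → ℝ) x * (v : Euc n → ℝ) x := by
  simp [form_apply]

lemma form_symm (W : Euc n → ℝ) (hW : Continuous W) (u v : DR n R) :
    form W hW u v = form W hW v u := by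
  simp only [form_apply, mul_comm ((u : Euc n → ℝ) _)]

lemma form_le {W W' : Euc n → ℝ} (hW : Continuous W) (hW' : Continuous W') {C : ℝ}
    (h : ∀ x, ‖x‖ ≤ R → W x ≤ C * W' x) (v : DR n R) :
    form W hW v v ≤ C * form W' hW' v v := by
  rw [form_apply, form_apply, ← integral_const_mul]
  refine integral_mono (int_w hW v v) ((int_w hW' v v).const_mul C) fun x => ?_
  by_cases hx : ‖x‖ ≤ R
  · have := mul_le_mul_of_nonneg_right (h x hx) (mul_self_nonneg ((v : Euc n → ℝ) x))
    simpa [mul_assoc] using this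
  · simp [zero_out v (not_le.1 hx)]

lemma ratio_bound (R : ℝ) {W W' : Euc n → ℝ} (hW : Continuous W) (hW' : Continuous W')
    (hp : ∀ x, 0 < W' x) : ∃ C : ℝ, 1 ≤ C ∧ ∀ x, ‖x‖ ≤ R → W x ≤ C * W' x := by
  have hc : Continuous fun x => W x / W' x := hW.div hW' fun x => (hp x).ne'
  obtain ⟨C, hC⟩ := (isCompact_closedBall (0 : Euc n) R).bddAbove_image hc.continuousOn
  refine ⟨max C 1, le_max_right _ _, fun x hx => ?_⟩
  have h1 : W x / W' x ≤ C := hC ⟨x, by simpa using hx, rfl⟩
  rw [div_le_iff₀ (hp x)] at h1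
  exact h1.trans (mul_le_mul_of_nonneg_right (le_max_left _ _) (hp x).le)

lemma diff (v : DR n R) : Differentiable ℝ (v : Euc n → ℝ) :=
  (smooth v).differentiable (by simp)

lemma fderiv_out (v : DR n R) {x : Euc n} (hx : R < ‖x‖) :
    fderiv ℝ (v : Euc n → ℝ) x = 0 := by
  have h : (v : Euc n → ℝ) =ᶠ[𝓝 x] fun _ => 0 := by
    filter_upwards [(isOpen_lt continuous_const continuous_norm).mem_nhds hx] with y hy
    exact zero_out v hy
  rw [h.fderiv_eq]
  simp

lemma smooth_fderiv (v : DR n R) : ContDiff ℝ ∞ (fderiv ℝ (v : Euc n → ℝ)) :=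
  (smooth v).fderiv_right (m := ∞) (by simp)

/-- Directional derivative. -/
noncomputable def der (e : Euc n) : DR n R →ₗ[ℝ] DR n R where
  toFun v := ⟨fun x => fderiv ℝ (v : Euc n → ℝ) x e,
    (smooth_fderiv v).clm_apply contDiff_const, fun x hx => by simp [fderiv_out v hx]⟩
  map_add' u v := by
    ext x
    simp only [Submodule.coe_add, Pi.add_apply]
    rw [fderiv_add (diff u x) (diff v x)]
    rfl
  map_smul' c v := by
    ext x
    simp only [Submodule.coe_smul, Pi.smul_apply, RingHom.id_apply]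
    rw [fderiv_const_smul (diff v x)]
    rfl

lemma der_apply (e : Euc n) (v : DR n R) (x : Euc n) :
    (der e v : Euc n → ℝ) x = fderiv ℝ (v : Euc n → ℝ) x e := rfl

lemma der_coe (e : Euc n) (v : DR n R) :
    (der e v : Euc n → ℝ) = fun x => fderiv ℝ (v : Euc n → ℝ) x e := rfl

lemma coord_smooth (i : Fin n) : ContDiff ℝ ∞ fun x : Euc n => x i :=
  (EuclideanSpace.proj (𝕜 := ℝ) i : Euc n →L[ℝ] ℝ).contDiff

/-- Multiplication by a coordinate. -/
noncomputable def mul (i : Fin n) : DR n R →ₗ[ℝ] DR n R where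
  toFun v := ⟨fun x => x i * (v : Euc n → ℝ) x, (coord_smooth i).mul (smooth v),
    fun x hx => by simp [zero_out v hx]⟩
  map_add' u v := by
    ext x
    simp only [Submodule.coe_add, Pi.add_apply]
    ring
  map_smul' c v := by
    ext x
    simp only [Submodule.coe_smul, Pi.smul_apply, RingHom.id_apply, smul_eq_mul]
    ring

lemma mul_apply (i : Fin n) (v : DR n R) (x : Euc n) :
    (mul i v : Euc n → ℝ) x = x i * (v : Euc n → ℝ) x := rfl

lemma mul_coe (i : Fin n) (v : DR n R) :
    (mul i v : Euc n → ℝ) = fun x => x i * (v : Euc n → ℝ) x := rfl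

lemma form_mul (W : Euc n → ℝ) (hW : Continuous W) (i : Fin n) (u v : DR n R) :
    form W hW (mul i u) v = form W hW u (mul i v) := by
  simp only [form_apply, mul_apply]
  congr 1
  funext x
  ring

lemma by_parts (e : Euc n) (u v : DR n R) :
    form (fun _ => 1) continuous_const (der e u) v =
      -form (fun _ => 1) continuous_const u (der e v) := by
  rw [form_one, form_one]
  have := integral_mul_fderiv_eq_neg_fderiv_mul_of_integrable (μ := volume)
    (f := (u : Euc n → ℝ)) (g := (v : Euc n → ℝ)) (v := e) (int_one (der e u) v)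
    (int_one u (der e v)) (int_one u v) (fun x _ => diff u x) (fun x _ => diff v x)
  simp only [der_apply]
  rw [this, neg_neg]

lemma der_der (e e' : Euc n) (v : DR n R) (x : Euc n) :
    (der e (der e' v) : Euc n → ℝ) x = fderiv ℝ (fderiv ℝ (v : Euc n → ℝ)) x e e' := by
  rw [der_apply, der_coe, fderiv_clm_apply ((smooth_fderiv v).differentiable (by simp) x)
    (differentiableAt_const _)]
  simp

lemma der_comm (e e' : Euc n) (v : DR n R) : der e (der e' v) = der e' (der e v) := by
  ext x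
  rw [der_der, der_der]
  have h : IsSymmSndFDerivAt ℝ (v : Euc n → ℝ) x :=
    (smooth v).contDiffAt.isSymmSndFDerivAt (by
      simp only [minSmoothness_of_isRCLikeNormedField]
      exact WithTop.coe_le_coe.2 (le_top (a := (2 : ℕ∞))))
  exact h e e'

lemma der_mul (i j : Fin n) (v : DR n R) :
    der (EuclideanSpace.single i (1 : ℝ)) (mul j v) =
      mul j (der (EuclideanSpace.single i (1 : ℝ)) v) + if i = j then v else 0 := by
  ext x
  have h1 : HasFDerivAt (fun x : Euc n => x j)
      (EuclideanSpace.proj (𝕜 := ℝ) j : Euc n →L[ℝ] ℝ) x :=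
    (EuclideanSpace.proj (𝕜 := ℝ) j : Euc n →L[ℝ] ℝ).hasFDerivAt
  have h2 := (h1.mul (diff v x).hasFDerivAt).fderiv
  rw [der_apply, mul_coe]
  have h3 : (fun x : Euc n => x j * (v : Euc n → ℝ) x) =
      (fun x : Euc n => x j) * (v : Euc n → ℝ) := rfl
  rw [h3, h2]
  by_cases h : i = j
  · subst h
    simp [mul_apply, der_apply]
  · simp [mul_apply, der_apply, h, Ne.symm h]

lemma sum_sq (f : Euc n →L[ℝ] ℝ) :
    ∑ i, f (EuclideanSpace.single i (1 : ℝ)) * f (EuclideanSpace.single i (1 : ℝ)) = ‖f‖ ^ 2 := by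
  rw [(EuclideanSpace.basisFun (Fin n) ℝ).norm_dual f]
  simp [sq]

lemma energy_eq (v : DR n R) :
    ∑ i, form (fun _ => 1) continuous_const (der (EuclideanSpace.single i (1 : ℝ)) v)
      (der (EuclideanSpace.single i (1 : ℝ)) v) = ∫ x, ‖fderiv ℝ (v : Euc n → ℝ) x‖ ^ 2 := by
  simp only [form_one]
  rw [← integral_finsetSum _ fun i _ => int_one _ _]
  simp only [der_apply, sum_sq]

lemma form_pos (v : DR n R) (hv : v ≠ 0) : 0 < form (fun _ => 1) continuous_const v v := by
  rw [form_one]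
  obtain ⟨x, hx⟩ : ∃ x, (v : Euc n → ℝ) x ≠ 0 := by
    by_contra h
    push Not at h
    exact hv (Subtype.ext (funext h))
  have h2 : HasCompactSupport fun x => (v : Euc n → ℝ) x * (v : Euc n → ℝ) x :=
    (hcs v).mono fun x hx h => hx (by simp [h])
  exact ((cont v).mul (cont v)).integral_pos_of_hasCompactSupport_nonneg_nonzero (x := x) h2
    (fun y => mul_self_nonneg _) (mul_ne_zero hx hx)

lemma mul_le (i : Fin n) (v : DR n R) :
    form (fun _ => 1) continuous_const (mul i v) (mul i v) ≤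
      R ^ 2 * form (fun _ => 1) continuous_const v v := by
  have h1 : form (fun _ => 1) continuous_const (mul i v) (mul i v) =
      form (fun x => x i * x i) ((coord_smooth i).mul (coord_smooth i)).continuous v v := by
    simp only [form_apply, mul_apply]
    congr 1
    funext x
    ring
  rw [h1]
  refine form_le _ _ (fun x hx => ?_) v
  have h2 : |x i| ≤ R := by
    have := PiLp.norm_apply_le x i
    rw [Real.norm_eq_abs] at this
    exact this.trans hx
  have h3 := abs_nonneg (x i)
  have h4 := abs_mul_abs_self (x i)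
  nlinarith

lemma inf_dim (hn : 3 ≤ n) (hR : 0 < R) (k : ℕ) :
    ∃ F : Submodule ℝ (DR n R), Module.finrank ℝ F = k + 1 := by
  let i : Fin n := ⟨0, by omega⟩
  let φ : ContDiffBump (0 : Euc n) := ⟨R / 2, R, by positivity, by linarith⟩
  let T : Polynomial ℝ →ₗ[ℝ] DR n R :=
    { toFun := fun p => ⟨fun x => p.eval (x i) * φ x,
        ((Polynomial.contDiff_aeval p ∞).comp (coord_smooth i)).mul φ.contDiff,
        fun x hx => by
          have : φ x = 0 := φ.zero_of_le_dist (by simpa using hx.le)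
          simp [this]⟩
      map_add' := fun p q => by
        ext x
        simp only [Submodule.coe_add, Pi.add_apply, Polynomial.eval_add]
        ring
      map_smul' := fun c p => by
        ext x
        simp only [Submodule.coe_smul, Pi.smul_apply, RingHom.id_apply, smul_eq_mul,
          Polynomial.eval_smul]
        ring }
  have hT : Function.Injective T := by
    rw [injective_iff_map_eq_zero]
    intro p hp
    apply Polynomial.eq_zero_of_infinite_isRoot
    refine (Set.Icc_infinite (show (0 : ℝ) < R / 2 by positivity)).mono fun t ht => ?_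
    have h1 : (T p : Euc n → ℝ) (EuclideanSpace.single i t) = 0 := by rw [hp]; rfl
    have h2 : φ (EuclideanSpace.single i t) = 1 := φ.one_of_mem_closedBall (by
      simp only [mem_closedBall_zero_iff, PiLp.norm_single, Real.norm_eq_abs]
      rw [abs_of_nonneg ht.1]
      exact ht.2)
    have h3 : p.eval ((EuclideanSpace.single i t : Euc n) i) *
      φ (EuclideanSpace.single i t) = 0 := h1
    simpa [h2] using h3
  refine ⟨(Polynomial.degreeLT ℝ (k + 1)).map T, ?_⟩
  rw [← (Submodule.equivMapOfInjective T hT _).finrank_eq,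
    (Polynomial.degreeLTEquiv ℝ (k + 1)).finrank_eq]
  simp

lemma count (hn : 3 ≤ n) {V : Euc n → ℝ} (hV : Continuous V) :
    ∃ (C : ℝ) (p : ℕ), ∀ (L : ℝ) (F : Submodule ℝ (DR n R)), 0 ≤ L →
      (∀ v ∈ F, ∫ x, ‖fderiv ℝ ((v : DR n R) : Euc n → ℝ) x‖ ^ 2 ≤ L * form V hV v v) →
      (Module.finrank ℝ F : ℝ) ≤ C * (1 + L) ^ p := by
  obtain ⟨C, p, hC⟩ := count_holds n hn
  have hr : Continuous fun x : Euc n => rho x ^ 2 := Count.contDiff_rho.continuous.pow 2
  obtain ⟨C0, h1, h2⟩ := ratio_bound R hV hr fun x => pow_pos (rho_pos x) 2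
  refine ⟨max C 0 * C0 ^ p, p, fun L F hL hF => ?_⟩
  have h3 := hC (L * C0) (F.map (DR n R).subtype) (by positivity) (by
    rintro _ ⟨v, hv, rfl⟩
    refine ⟨smooth v, hcs v, (hF v hv).trans ?_⟩
    have h4 := form_le hV hr h2 v
    rw [form_apply (fun x => rho x ^ 2)] at h4
    simp only [Submodule.subtype_apply, sq ((v : Euc n → ℝ) _)]
    rw [mul_assoc]
    exact mul_le_mul_of_nonneg_left h4 hL)
  rw [Submodule.finrank_map_subtype_eq] at h3
  refine h3.trans ?_
  have h5 : (1 + L * C0) ^ p ≤ (C0 * (1 + L)) ^ p :=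
    pow_le_pow_left₀ (by positivity) (by nlinarith) p
  rw [mul_assoc, ← mul_pow]
  exact (mul_le_mul_of_nonneg_right (le_max_left _ _) (by positivity)).trans
    (mul_le_mul_of_nonneg_left h5 (le_max_right _ _))

end Conc

open Pool.Agent.Lib.MP_465ce1_mp.Conc in
theorem conc_holds : ConcStmt := by
  intro n hn R hR V hV hVp
  obtain ⟨C1, h1, h1'⟩ := ratio_bound R hV (continuous_const (y := (1 : ℝ))) fun _ => one_pos
  obtain ⟨C2, h2, h2'⟩ := ratio_bound R (continuous_const (y := (1 : ℝ))) hV hVp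
  obtain ⟨C, p, hC⟩ := Conc.count (R := R) hn hV
  refine ⟨{ m := form (fun _ => 1) continuous_const
            b := form V hV
            d := fun i => der (EuclideanSpace.single i (1 : ℝ))
            g := Conc.mul
            m_symm := form_symm _ _
            b_symm := form_symm _ _
            m_pos := form_pos
            m_d := fun i => by_parts _
            d_comm := fun i j => der_comm _ _
            d_g := der_mul
            m_g := form_mul _ _
            b_g := form_mul _ _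
            g_le := ⟨R ^ 2, Conc.mul_le⟩
            b_le := ⟨C1, by linarith, form_le _ _ h1'⟩
            m_le := ⟨C2, by linarith, form_le _ _ h2'⟩
            inf_dim := Conc.inf_dim hn hR
            count := ⟨C, p, fun L F hL hF => hC L F hL fun v hv => by
              rw [← energy_eq]
              exact hF v hv⟩ }, fun v => ⟨?_, ?_, ?_⟩⟩
  · rw [Pre.a_apply]
    exact energy_eq v
  · simp only [form_one, sq]
  · simp only [form_apply, sq]

end Pool.Agent.Lib.MP_465ce1_mp
end
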