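import Pool.Agent.Lib.MP_465ce1_mp.Trans

-- part Pool.Agent.Lib.MP_465ce1_mp.Meas
section

/-!
Change of variables under the stereographic projection.
-/

open MeasureTheory Set
open scoped ContDiff Pointwise RealInnerProductSpace

namespace Pool.Agent.Lib.MP_465ce1_mp

namespace Meas

variable {n : ℕ}

/-- The first `n` coordinates. -/
noncomputable def ini (n : ℕ) : Euc (n + 1) →L[ℝ] Euc n :=
  (EuclideanSpace.equiv (Fin n) ℝ).symm.toContinuousLinearMap.comp
    (ContinuousLinearMap.pi fun i => EuclideanSpace.proj i.castSucc)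

@[simp] lemma ini_apply (z : Euc (n + 1)) (i : Fin n) : ini n z i = z i.castSucc := rfl

/-- The last coordinate. -/
noncomputable def las (n : ℕ) : Euc (n + 1) →L[ℝ] ℝ := EuclideanSpace.proj (Fin.last n)

@[simp] lemma las_apply (z : Euc (n + 1)) : las n z = z (Fin.last n) := rfl

/-- The pole. -/
noncomputable def pole (n : ℕ) : Euc (n + 1) := EuclideanSpace.single (Fin.last n) 1

/-- The inclusion of the first `n` coordinates. -/
noncomputable def inc (n : ℕ) : Euc n →L[ℝ] Euc (n + 1) :=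
  (EuclideanSpace.equiv (Fin (n + 1)) ℝ).symm.toContinuousLinearMap.comp
    (ContinuousLinearMap.pi fun i =>
      Fin.lastCases (motive := fun _ => Euc n →L[ℝ] ℝ) 0 (fun j => EuclideanSpace.proj j) i)

@[simp] lemma inc_castSucc (x : Euc n) (i : Fin n) : inc n x i.castSucc = x i := by
  simp [inc]

@[simp] lemma inc_last (x : Euc n) : inc n x (Fin.last n) = 0 := by
  simp [inc]

@[simp] lemma pole_castSucc (i : Fin n) : pole n i.castSucc = 0 := by
  simp [pole, (Fin.castSucc_lt_last i).ne]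

@[simp] lemma pole_last : pole n (Fin.last n) = 1 := by
  simp [pole]

@[simp] lemma sigA_castSucc (x : Euc n) (i : Fin n) : sigA x i.castSucc = rho x * x i := by
  simp [sigA]

@[simp] lemma sigA_last (x : Euc n) : sigA x (Fin.last n) = 1 - rho x := by
  simp [sigA]

lemma sigA_eq (x : Euc n) : sigA x = rho x • inc n x + (1 - rho x) • pole n := by
  ext i
  refine Fin.lastCases ?_ (fun j => ?_) i <;> simp

lemma inner_succ (u v : Euc (n + 1)) :
    ⟪u, v⟫ = ⟪ini n u, ini n v⟫ + u (Fin.last n) * v (Fin.last n) := by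
  simp only [PiLp.inner_apply, Fin.sum_univ_castSucc, ini_apply]
  simp [mul_comm]

@[simp] lemma ini_inc (x : Euc n) : ini n (inc n x) = x := by
  ext i; simp

@[simp] lemma ini_pole : ini n (pole n) = 0 := by
  ext i; simp

lemma hasFDerivAt_rho (x : Euc n) :
    HasFDerivAt rho ((-(rho x ^ 2)) • innerSL ℝ x) x := by
  have h1 : HasFDerivAt (fun y : Euc n => 1 + ‖y‖ ^ 2) (2 • innerSL ℝ x) x :=
    (hasStrictFDerivAt_norm_sq x).hasFDerivAt.const_add 1
  have hne : (1 + ‖x‖ ^ 2) ≠ 0 := by positivity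
  have h2 := ((hasDerivAt_inv hne).const_mul 2).comp_hasFDerivAt x h1
  have e : (rho : Euc n → ℝ) = (fun y : ℝ => 2 * y⁻¹) ∘ fun y : Euc n => 1 + ‖y‖ ^ 2 := by
    funext y; simp [rho, div_eq_mul_inv]
  rw [e]
  refine h2.congr_fderiv ?_
  ext k
  simp only [Function.comp, smul_apply, smul_eq_mul, innerSL_apply_apply,
    nsmul_eq_mul, Nat.cast_ofNat]
  field_simp

/-- The derivative of `sigA`. -/
noncomputable def dsig (x : Euc n) : Euc n →L[ℝ] Euc (n + 1) :=
  rho x • inc n + ((-(rho x ^ 2)) • innerSL ℝ x).smulRight (inc n x - pole n)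

lemma hasFDerivAt_sigA (x : Euc n) : HasFDerivAt sigA (dsig x) x := by
  have e : (sigA : Euc n → Euc (n + 1)) = fun y => rho y • (inc n y - pole n) + pole n := by
    funext y; rw [sigA_eq, smul_sub, sub_smul, one_smul]; abel
  rw [e]
  exact ((hasFDerivAt_rho x).smul ((inc n).hasFDerivAt.sub_const (pole n))).add_const _

/-- Polar coordinates. -/
noncomputable def psi (z : Euc (n + 1)) : Euc (n + 1) := las n z • sigA (ini n z)

/-- The derivative of `psi`. -/
noncomputable def dpsi (z : Euc (n + 1)) : Euc (n + 1) →L[ℝ] Euc (n + 1) :=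
  las n z • (dsig (ini n z)).comp (ini n) + (las n).smulRight (sigA (ini n z))

lemma hasFDerivAt_psi (z : Euc (n + 1)) : HasFDerivAt psi (dpsi z) z :=
  (las n).hasFDerivAt.smul ((hasFDerivAt_sigA (ini n z)).comp z (ini n).hasFDerivAt)

lemma ini_sigA (x : Euc n) : ini n (sigA x) = rho x • x := by
  ext i; simp

lemma ini_dsig (x k : Euc n) : ini n (dsig x k) = rho x • k - (rho x ^ 2 * ⟪x, k⟫) • x := by
  simp [dsig, sub_eq_add_neg]

lemma dsig_last (x k : Euc n) : dsig x k (Fin.last n) = rho x ^ 2 * ⟪x, k⟫ := by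
  simp [dsig]

lemma inner_dpsi (z u v : Euc (n + 1)) :
    ⟪dpsi z u, dpsi z v⟫ = (z (Fin.last n) * rho (ini n z)) ^ 2 * ⟪ini n u, ini n v⟫
      + u (Fin.last n) * v (Fin.last n) := by
  have e1 : ∀ w, ini n (dpsi z w) = z (Fin.last n) • (rho (ini n z) • ini n w
      - (rho (ini n z) ^ 2 * ⟪ini n z, ini n w⟫) • ini n z)
      + w (Fin.last n) • rho (ini n z) • ini n z := by
    intro w
    simp [dpsi, ini_dsig, ini_sigA]
  have e2 : ∀ w, dpsi z w (Fin.last n) = z (Fin.last n) * (rho (ini n z) ^ 2 * ⟪ini n z, ini n w⟫)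
      + w (Fin.last n) * (1 - rho (ini n z)) := by
    intro w
    simp [dpsi, dsig_last]
  rw [inner_succ, e1, e1, e2, e2]
  have h := rho_mul_norm_sq (ini n z)
  simp only [inner_add_left, inner_add_right, inner_sub_left, inner_sub_right, inner_smul_left,
    inner_smul_right, real_inner_self_eq_norm_sq, conj_trivial,
    real_inner_comm (ini n z) (ini n u)]
  set r := rho (ini n z)
  set q := ‖ini n z‖ ^ 2
  set t := z (Fin.last n)
  set a := ⟪ini n z, ini n u⟫
  set b := ⟪ini n z, ini n v⟫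
  set c := u (Fin.last n)
  set d := v (Fin.last n)
  linear_combination (t ^ 2 * r ^ 3 * a * b - t * r ^ 2 * (a * d + b * c) + r * c * d) * h

lemma det_sq {m : ℕ} (L : Euc m →L[ℝ] Euc m) (d : Fin m → ℝ)
    (h : ∀ i j, ⟪L (EuclideanSpace.single i 1), L (EuclideanSpace.single j 1)⟫
      = if i = j then d i else 0) : L.det ^ 2 = ∏ i, d i := by
  let b := (EuclideanSpace.basisFun (Fin m) ℝ).toBasis
  let M := LinearMap.toMatrix b b (L : Euc m →ₗ[ℝ] Euc m)
  have h1 : L.det = M.det := (LinearMap.det_toMatrix b _).symm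
  have h2 : M.transpose * M = Matrix.diagonal d := by
    ext i j
    rw [Matrix.diagonal_apply, ← h i j, Matrix.mul_apply, PiLp.inner_apply]
    refine Finset.sum_congr rfl fun k _ => ?_
    simp [M, b, LinearMap.toMatrix_apply, mul_comm]
  rw [h1, ← Matrix.det_diagonal, ← h2, Matrix.det_mul, Matrix.det_transpose, sq]

lemma abs_det_dpsi (z : Euc (n + 1)) (hz : 0 < z (Fin.last n)) :
    |(dpsi z).det| = z (Fin.last n) ^ n * rho (ini n z) ^ n := by
  have h := det_sq (dpsi z) (fun i => Fin.lastCases (motive := fun _ => ℝ) 1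
    (fun _ => (z (Fin.last n) * rho (ini n z)) ^ 2) i) (by
      intro i j
      rw [inner_dpsi]
      refine Fin.lastCases ?_ (fun i' => ?_) i <;> refine Fin.lastCases ?_ (fun j' => ?_) j
      · have : ini n (EuclideanSpace.single (Fin.last n) (1 : ℝ)) = 0 := ini_pole
        simp [this]
      · have : ini n (EuclideanSpace.single (Fin.last n) (1 : ℝ)) = 0 := ini_pole
        simp [this, (Fin.castSucc_lt_last j').ne']
      · have : ini n (EuclideanSpace.single (Fin.last n) (1 : ℝ)) = 0 := ini_pole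
        simp [this, (Fin.castSucc_lt_last i').ne', (Fin.castSucc_lt_last i').ne]
      · have e : ∀ k : Fin n, ini n (EuclideanSpace.single k.castSucc (1 : ℝ))
            = EuclideanSpace.single k 1 := by
          intro k; ext l; simp
        rw [e, e]
        simp [(Fin.castSucc_lt_last i').ne', EuclideanSpace.inner_single_left])
  rw [Fin.prod_univ_castSucc] at h
  simp only [Fin.lastCases_castSucc, Fin.lastCases_last, Finset.prod_const, Finset.card_univ,
    Fintype.card_fin, mul_one] at h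
  have hp : 0 ≤ z (Fin.last n) ^ n * rho (ini n z) ^ n := by
    have := rho_pos (ini n z); positivity
  rw [← abs_of_nonneg hp, ← sq_eq_sq_iff_abs_eq_abs, h]
  ring

lemma sigA_injective : Function.Injective (sigA : Euc n → Euc (n + 1)) := by
  intro x y h
  have h1 : rho x = rho y := by
    have := congrArg (fun w : Euc (n + 1) => w (Fin.last n)) h
    simpa using this
  ext i
  have h2 := congrArg (fun w : Euc (n + 1) => w i.castSucc) h
  simp only [sigA_castSucc, h1] at h2
  exact mul_left_cancel₀ (rho_pos y).ne' h2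

lemma norm_psi (z : Euc (n + 1)) (hz : 0 < z (Fin.last n)) : ‖psi z‖ = z (Fin.last n) := by
  simp [psi, norm_smul, norm_sigA, abs_of_pos hz]

lemma psi_injOn : InjOn psi {z : Euc (n + 1) | 0 < z (Fin.last n)} := by
  intro z hz w hw h
  have h1 : z (Fin.last n) = w (Fin.last n) := by
    rw [← norm_psi z hz, h, norm_psi w hw]
  have h2 : ini n z = ini n w := by
    apply sigA_injective
    simp only [psi, las_apply, h1] at h
    exact smul_right_injective _ (ne_of_gt hw) h
  ext i
  refine Fin.lastCases h1 (fun j => ?_) i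
  exact congrArg (fun w : Euc n => w j) h2

lemma exists_sigA (y : Euc (n + 1)) (hy : ‖y‖ = 1) (hN : y ≠ pole n) : ∃ x, sigA x = y := by
  have h1 : ‖ini n y‖ ^ 2 + y (Fin.last n) ^ 2 = 1 := by
    have := inner_succ y y
    rw [real_inner_self_eq_norm_sq, real_inner_self_eq_norm_sq, hy] at this
    nlinarith
  have h2 : y (Fin.last n) ≠ 1 := by
    intro h
    apply hN
    have h3 : ini n y = 0 := by
      rw [h] at h1
      have : ‖ini n y‖ ^ 2 = 0 := by linarith
      simpa using this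
    ext i
    refine Fin.lastCases (by simp [h]) (fun j => ?_) i
    have := congrArg (fun w : Euc n => w j) h3
    simpa using this
  have h3 : 1 - y (Fin.last n) ≠ 0 := sub_ne_zero.mpr h2.symm
  have h4 : rho ((1 - y (Fin.last n))⁻¹ • ini n y) = 1 - y (Fin.last n) := by
    have h5 : ‖ini n y‖ ^ 2 = 1 - y (Fin.last n) ^ 2 := by linarith
    have h6 : 1 + ‖(1 - y (Fin.last n))⁻¹ • ini n y‖ ^ 2 = 2 / (1 - y (Fin.last n)) := by
      rw [norm_smul, mul_pow, h5, Real.norm_eq_abs, sq_abs]
      field_simp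
      ring
    rw [rho, h6]
    field_simp
  refine ⟨(1 - y (Fin.last n))⁻¹ • ini n y, ?_⟩
  ext i
  refine Fin.lastCases ?_ (fun j => ?_) i
  · simp [h4]
  · rw [sigA_castSucc, h4]
    simp [h3]

lemma continuous_sigA : Continuous (sigA : Euc n → Euc (n + 1)) :=
  continuous_iff_continuousAt.mpr fun x => (hasFDerivAt_sigA x).continuousAt

lemma continuous_sig : Continuous (sig : Euc n → Sph n) := continuous_sigA.subtype_mk _

lemma continuous_rho : Continuous (rho : Euc n → ℝ) :=
  continuous_iff_continuousAt.mpr fun x => (hasFDerivAt_rho x).continuousAt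

lemma split_preserving :
    MeasurePreserving (fun z : Euc (n + 1) => (z (Fin.last n), ini n z)) volume
      ((volume : Measure ℝ).prod (volume : Measure (Euc n))) := by
  have h1 := PiLp.volume_preserving_ofLp (Fin (n + 1))
  have h2 := volume_preserving_piFinSuccAbove (fun _ : Fin (n + 1) => ℝ) (Fin.last n)
  have h3 := (MeasurePreserving.id (volume : Measure ℝ)).prod (PiLp.volume_preserving_toLp (Fin n))
  have h4 := h3.comp (h2.comp h1)
  have e : (fun z : Euc (n + 1) => (z (Fin.last n), ini n z)) = Prod.map id (WithLp.toLp 2) ∘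
      (MeasurableEquiv.piFinSuccAbove (fun _ : Fin (n + 1) => ℝ) (Fin.last n)) ∘ WithLp.ofLp := by
    funext z
    refine Prod.ext rfl ?_
    ext i
    simp [Fin.init]
  rw [e]
  exact h4

lemma line_null (hn : 1 ≤ n) :
    (volume : Measure (Euc (n + 1))) (Submodule.span ℝ {pole n}) = 0 := by
  apply Measure.addHaar_submodule
  intro h
  have h1 : (EuclideanSpace.single (Fin.castSucc ⟨0, hn⟩) (1 : ℝ) : Euc (n + 1))
      ∈ Submodule.span ℝ {pole n} := by rw [h]; trivial
  obtain ⟨a, ha⟩ := Submodule.mem_span_singleton.mp h1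
  have := congrArg (fun w : Euc (n + 1) => w (Fin.castSucc ⟨0, hn⟩)) ha
  simp only [PiLp.smul_apply, pole_castSucc, smul_zero] at this
  simp at this

lemma cone_eq (hn : 1 ≤ n) (s : Set (Sph n)) :
    (volume : Measure (Euc (n + 1))) (Ioo (0 : ℝ) 1 • ((↑) '' s)) =
      volume (psi '' ((fun z : Euc (n + 1) => (z (Fin.last n), ini n z)) ⁻¹'
        (Ioo (0 : ℝ) 1 ×ˢ (sig ⁻¹' s)))) := by
  apply le_antisymm
  · refine le_trans (measure_mono (t := psi '' ((fun z : Euc (n + 1) =>
      (z (Fin.last n), ini n z)) ⁻¹' (Ioo (0 : ℝ) 1 ×ˢ (sig ⁻¹' s))) ∪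
      (Submodule.span ℝ {pole n} : Set (Euc (n + 1)))) ?_) ?_
    · rintro _ ⟨r, hr, _, ⟨y, hy, rfl⟩, rfl⟩
      by_cases hN : (y : Euc (n + 1)) = pole n
      · right
        exact Submodule.mem_span_singleton.mpr ⟨r, by rw [hN]⟩
      · left
        obtain ⟨x, hx⟩ := exists_sigA (y : Euc (n + 1)) (by simp) hN
        have hy' : sig x = y := Subtype.ext hx
        refine ⟨inc n x + r • pole n, ⟨by simpa using hr, ?_⟩, ?_⟩
        · simpa [hy'] using hy
        · simp [psi, hx]
    · refine (measure_union_le _ _).trans ?_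
      rw [line_null hn, add_zero]
  · apply measure_mono
    rintro _ ⟨z, ⟨hz1, hz2⟩, rfl⟩
    exact ⟨z (Fin.last n), hz1, _, ⟨_, hz2, rfl⟩, rfl⟩

lemma vol_apply (hn : 1 ≤ n) (s : Set (Sph n)) (hs : MeasurableSet s) :
    vol n s = ∫⁻ x in sig ⁻¹' s, ENNReal.ofReal (rho x ^ n) := by
  have hs' : MeasurableSet (sig ⁻¹' s) := continuous_sig.measurable hs
  have hS : MeasurableSet (Ioo (0 : ℝ) 1 ×ˢ (sig ⁻¹' s)) := measurableSet_Ioo.prod hs'
  have hT := split_preserving.measurable hS
  have hf : Measurable fun r : ℝ => ENNReal.ofReal (r ^ n) := by fun_prop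
  have hg : Measurable fun x : Euc n => ENNReal.ofReal (rho x ^ n) :=
    (continuous_rho.pow n).measurable.ennreal_ofReal
  rw [vol, Measure.toSphere_apply' _ hs, cone_eq hn,
    ← lintegral_abs_det_fderiv_eq_addHaar_image volume hT
      (fun z _ => (hasFDerivAt_psi z).hasFDerivWithinAt)
      (psi_injOn.mono fun z hz => hz.1.1),
    setLIntegral_congr_fun hT (g := fun z => (fun p : ℝ × Euc n =>
      ENNReal.ofReal (p.1 ^ n) * ENNReal.ofReal (rho p.2 ^ n)) (z (Fin.last n), ini n z))
      (fun z hz => by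
        simp only
        rw [abs_det_dpsi z hz.1.1, ENNReal.ofReal_mul (pow_nonneg hz.1.1.le n)]),
    split_preserving.setLIntegral_comp_preimage hS (f := fun p : ℝ × Euc n =>
      ENNReal.ofReal (p.1 ^ n) * ENNReal.ofReal (rho p.2 ^ n))
      ((hf.comp measurable_fst).mul (hg.comp measurable_snd)),
    ← Measure.prod_restrict, lintegral_prod_mul hf.aemeasurable hg.aemeasurable]
  have h1 : ∫⁻ r in Ioo (0 : ℝ) 1, ENNReal.ofReal (r ^ n) = ENNReal.ofReal (1 / (n + 1)) := by
    rw [← ofReal_integral_eq_lintegral_ofReal]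
    · rw [← integral_Ioc_eq_integral_Ioo, ← intervalIntegral.integral_of_le zero_le_one]
      simp
    · exact ((continuous_pow n).integrableOn_Icc (a := 0) (b := 1)).mono_set Ioo_subset_Icc_self
    · refine (ae_restrict_iff' measurableSet_Ioo).mpr (Filter.Eventually.of_forall fun r hr => ?_)
      exact pow_nonneg hr.1.le n
  rw [h1, ← mul_assoc, finrank_euclideanSpace_fin, ← ENNReal.ofReal_natCast,
    ← ENNReal.ofReal_mul (by positivity)]
  have : ((n + 1 : ℕ) : ℝ) * (1 / (n + 1)) = 1 := by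
    push_cast
    field_simp
  rw [this, ENNReal.ofReal_one, one_mul]

lemma vol_eq (hn : 1 ≤ n) :
    vol n = Measure.map sig (volume.withDensity fun x : Euc n => ENNReal.ofReal (rho x ^ n)) := by
  ext s hs
  rw [vol_apply hn s hs, Measure.map_apply continuous_sig.measurable hs,
    withDensity_apply _ (continuous_sig.measurable hs)]

end Meas

/-- Change of variables under the stereographic projection. -/
theorem meas_pos (n : ℕ) (hn : 1 ≤ n) (f : Sph n → ℝ) (hf : Continuous f) :
    ∫ y, f y ∂vol n = ∫ x : Euc n, f (sig x) * rho x ^ n := by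
  rw [Meas.vol_eq hn, integral_map Meas.continuous_sig.measurable.aemeasurable
    hf.aestronglyMeasurable, integral_withDensity_eq_integral_toReal_smul
    (f := fun x : Euc n => ENNReal.ofReal (rho x ^ n)) (Meas.continuous_rho.pow n).measurable.ennreal_ofReal
    (Filter.Eventually.of_forall fun _ => ENNReal.ofReal_lt_top)]
  refine integral_congr_ae (Filter.Eventually.of_forall fun x => ?_)
  simp only [smul_eq_mul]
  rw [ENNReal.toReal_ofReal (pow_nonneg (rho_pos x).le n), mul_comm]

/-- Change of variables, for `n ≥ 1`. -/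
def MeasStmt1 : Prop :=
  ∀ n : ℕ, 1 ≤ n → ∀ f : Sph n → ℝ, Continuous f →
    ∫ y, f y ∂vol n = ∫ x : Euc n, f (sig x) * rho x ^ n

theorem meas_holds : MeasStmt1 := meas_pos

end Pool.Agent.Lib.MP_465ce1_mp
end

-- part Pool.Agent.Lib.MP_465ce1_mp.Fwd
section

/-!
Conformal covariance of the energy under the stereographic projection.
-/

open MeasureTheory
open scoped ContDiff RealInnerProductSpace

namespace Pool.Agent.Lib.MP_465ce1_mp

namespace Fwd

variable {n : ℕ}

lemma contDiff_rho : ContDiff ℝ ∞ (rho : Euc n → ℝ) := by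
  unfold rho
  exact contDiff_const.div (contDiff_const.add (contDiff_norm_sq ℝ)) fun x => by positivity

lemma hasF_rho (x : Euc n) : HasFDerivAt rho ((-(rho x ^ 2)) • innerSL ℝ x) x := by
  have h1 : HasFDerivAt (fun y : Euc n => 1 + ‖y‖ ^ 2) (2 • innerSL ℝ x) x :=
    (hasStrictFDerivAt_norm_sq x).hasFDerivAt.const_add 1
  have h0 : (1 + ‖x‖ ^ 2) ≠ 0 := by positivity
  have h2 := ((hasDerivAt_inv h0).comp_hasFDerivAt x h1).const_mul 2
  have e : rho = fun y : Euc n => 2 * (1 + ‖y‖ ^ 2)⁻¹ := by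
    funext y; rw [rho, div_eq_mul_inv]
  have h3 : HasFDerivAt rho _ x := e ▸ h2
  refine h3.congr_fderiv ?_
  ext h
  simp only [smul_apply, smul_eq_mul, nsmul_eq_mul, rho]
  field_simp
  ring

lemma sigA_cast (x : Euc n) (i : Fin n) : sigA x i.castSucc = rho x * x i := by
  simp [sigA]

lemma sigA_last (x : Euc n) : sigA x (Fin.last n) = 1 - rho x := by
  simp [sigA]

lemma contDiff_sigA : ContDiff ℝ ∞ (sigA : Euc n → Euc (n + 1)) := by
  refine contDiff_euclidean.2 fun j => ?_
  refine Fin.lastCases ?_ (fun i => ?_) j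
  · simp only [sigA_last]
    exact contDiff_const.sub contDiff_rho
  · simp only [sigA_cast]
    exact contDiff_rho.mul (EuclideanSpace.proj (𝕜 := ℝ) i).contDiff

lemma hasF_sigA (x : Euc n) : HasFDerivAt sigA (fderiv ℝ sigA x) x :=
  (contDiff_sigA.differentiable (by simp) x).hasFDerivAt

lemma fderiv_cast (x h : Euc n) (i : Fin n) :
    fderiv ℝ sigA x h i.castSucc = rho x * h i - rho x ^ 2 * ⟪x, h⟫ * x i := by
  have h1 := (EuclideanSpace.proj (𝕜 := ℝ) i.castSucc).hasFDerivAt.comp x (hasF_sigA x)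
  have h2 := (hasF_rho x).mul (EuclideanSpace.proj (𝕜 := ℝ) i).hasFDerivAt
  have e : (EuclideanSpace.proj (𝕜 := ℝ) i.castSucc ∘ sigA : Euc n → ℝ) =
      rho * ⇑(EuclideanSpace.proj (𝕜 := ℝ) i) := by
    funext y; simp [sigA_cast]
  rw [e] at h1
  have h3 := congrArg (fun L : Euc n →L[ℝ] ℝ => L h) (h1.unique h2)
  simp only [ContinuousLinearMap.comp_apply, add_apply,
    smul_apply, innerSL_apply_apply, smul_eq_mul] at h3
  simp only [EuclideanSpace.coe_proj] at h3
  rw [h3]
  ring

lemma fderiv_last (x h : Euc n) :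
    fderiv ℝ sigA x h (Fin.last n) = rho x ^ 2 * ⟪x, h⟫ := by
  have h1 := (EuclideanSpace.proj (𝕜 := ℝ) (Fin.last n)).hasFDerivAt.comp x (hasF_sigA x)
  have h2 := (hasF_rho x).const_sub 1
  have e : (EuclideanSpace.proj (𝕜 := ℝ) (Fin.last n) ∘ sigA : Euc n → ℝ) =
      fun y => 1 - rho y := by
    funext y; simp [sigA_last]
  rw [e] at h1
  have h3 := congrArg (fun L : Euc n →L[ℝ] ℝ => L h) (h1.unique h2)
  simp only [ContinuousLinearMap.comp_apply, neg_apply,
    smul_apply, innerSL_apply_apply, smul_eq_mul] at h3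
  simp only [EuclideanSpace.coe_proj] at h3
  rw [h3]
  ring

lemma inner_eq {m : ℕ} (a b : Euc m) : ⟪a, b⟫ = ∑ i, a i * b i := by
  simp [PiLp.inner_apply, mul_comm]

lemma ext_coe (u : Sph n → ℝ) (s : Sph n) : ext u (s : Euc (n + 1)) = u s := by
  have h1 : ‖(s : Euc (n + 1))‖ = 1 := by simp
  have h0 : (s : Euc (n + 1)) ≠ 0 := by
    intro h; rw [h] at h1; simp at h1
  unfold ext
  rw [dif_neg h0]
  congr 1
  ext1
  simp [h1]

lemma ext_smul (u : Sph n → ℝ) (y : Euc (n + 1)) {t : ℝ} (ht : 0 < t) :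
    ext u (t • y) = ext u y := by
  unfold ext
  by_cases h : y = 0
  · simp [h]
  · have h' : t • y ≠ 0 := smul_ne_zero ht.ne' h
    rw [dif_neg h, dif_neg h']
    congr 1
    ext1
    simp only [norm_smul, Real.norm_eq_abs, abs_of_pos ht, smul_smul]
    congr 1
    field_simp

lemma coe_ne (s : Sph n) : (s : Euc (n + 1)) ∈ ({0}ᶜ : Set (Euc (n + 1))) := by
  have h1 : ‖(s : Euc (n + 1))‖ = 1 := by simp
  intro h
  rw [Set.mem_singleton_iff.1 h] at h1
  simp at h1

lemma diffAt {u : Sph n → ℝ} (hu : IsSmooth u) (s : Sph n) :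
    DifferentiableAt ℝ (ext u) (s : Euc (n + 1)) :=
  (hu.contDiffAt (isOpen_compl_singleton.mem_nhds (coe_ne s))).differentiableAt (by simp)

lemma radial {u : Sph n → ℝ} (hu : IsSmooth u) (s : Sph n) :
    fderiv ℝ (ext u) (s : Euc (n + 1)) s = 0 := by
  set y : Euc (n + 1) := s.1 with hy
  have h1 : HasDerivAt (fun t : ℝ => t • y) y 1 := by
    simpa using (hasDerivAt_id (1 : ℝ)).smul_const y
  have h2 : HasFDerivAt (ext u) (fderiv ℝ (ext u) y) ((fun t : ℝ => t • y) 1) := by
    simpa using (diffAt hu s).hasFDerivAt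
  have h3 := h2.comp_hasDerivAt (1 : ℝ) h1
  have h4 : HasDerivAt (ext u ∘ fun t : ℝ => t • y) 0 1 := by
    refine (hasDerivAt_const (1 : ℝ) (ext u y)).congr_of_eventuallyEq ?_
    filter_upwards [lt_mem_nhds (show (0 : ℝ) < 1 by norm_num)] with t ht
    exact ext_smul u y ht
  exact h3.unique h4

lemma contDiff_U {u : Sph n → ℝ} (hu : IsSmooth u) : ContDiff ℝ ∞ fun x => u (sig x) := by
  have h := ContDiffOn.comp_contDiff hu contDiff_sigA fun x => coe_ne (sig x)
  convert h using 1
  funext x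
  exact (ext_coe u (sig x)).symm

/-- the gradient of the flat function has the norm of the tangential gradient times `rho` -/
lemma grad_U {u : Sph n → ℝ} (hu : IsSmooth u) (x : Euc n) :
    ∃ w : Euc n, HasFDerivAt (fun x => u (sig x)) (innerSL ℝ w) x ∧
      ‖w‖ = rho x * ‖fderiv ℝ (ext u) (sig x : Euc (n + 1))‖ := by
  set l := fderiv ℝ (ext u) (sig x : Euc (n + 1)) with hl
  set G : Euc (n + 1) := (InnerProductSpace.toDual ℝ _).symm l with hG
  have hGl : ∀ v, l v = ⟪G, v⟫ := fun v => InnerProductSpace.toDual_symm_apply.symm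
  have hGn : ‖G‖ = ‖l‖ := LinearIsometryEquiv.norm_map _ _
  set G' : Euc n := WithLp.toLp 2 fun i => G i.castSucc with hG'
  set b := G (Fin.last n) with hb
  have hrad : rho x * ⟪G', x⟫ + (1 - rho x) * b = 0 := by
    have h := radial hu (sig x)
    rw [← hl, hGl, inner_eq, Fin.sum_univ_castSucc] at h
    have e : ((sig x : Sph n) : Euc (n + 1)) = sigA x := rfl
    simp only [e, sigA_cast, sigA_last] at h
    rw [inner_eq, Finset.mul_sum, ← h, mul_comm (1 - rho x)]
    congr 1
    exact Finset.sum_congr rfl fun i _ => by simp only [hG']; ring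
  refine ⟨rho x • (G' + b • x), ?_, ?_⟩
  · have h1 : HasFDerivAt (ext u) l (sigA x) := (diffAt hu (sig x)).hasFDerivAt
    have h2 := h1.comp x (hasF_sigA x)
    have e : (fun x => u (sig x)) = ext u ∘ sigA := by
      funext y; exact (ext_coe u (sig y)).symm
    rw [e]
    refine h2.congr_fderiv (Eq.symm ?_)
    ext h
    rw [ContinuousLinearMap.comp_apply, hGl, inner_eq G, Fin.sum_univ_castSucc, fderiv_last]
    simp only [fderiv_cast, innerSL_apply_apply, inner_smul_left, inner_add_left, mul_sub,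
      Finset.sum_sub_distrib, conj_trivial]
    have e1 : ∑ i, G i.castSucc * (rho x * h i) = rho x * ⟪G', h⟫ := by
      rw [inner_eq, Finset.mul_sum]
      exact Finset.sum_congr rfl fun i _ => by simp only [hG']; ring
    have e2 : ∑ i, G i.castSucc * (rho x ^ 2 * ⟪x, h⟫ * x i) =
        rho x ^ 2 * ⟪x, h⟫ * ⟪G', x⟫ := by
      rw [inner_eq G', Finset.mul_sum]
      exact Finset.sum_congr rfl fun i _ => by simp only [hG']; ring
    rw [e1, e2, ← hb]
    linear_combination (rho x * ⟪x, h⟫) * hrad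
  · have hr := rho_pos x
    rw [norm_smul, Real.norm_eq_abs, abs_of_pos hr, ← hGn]
    congr 1
    have h1 : ‖G‖ ^ 2 = ‖G'‖ ^ 2 + b ^ 2 := by
      rw [EuclideanSpace.real_norm_sq_eq, Fin.sum_univ_castSucc, EuclideanSpace.real_norm_sq_eq]
    have h2 : ‖G' + b • x‖ ^ 2 = ‖G'‖ ^ 2 + b ^ 2 := by
      rw [norm_add_sq_real, inner_smul_right, norm_smul, mul_pow, Real.norm_eq_abs, sq_abs]
      have h3 := rho_mul_norm_sq x
      have h4 : rho x * (2 * (b * ⟪G', x⟫) + b ^ 2 * ‖x‖ ^ 2 - b ^ 2) = 0 := by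
        linear_combination 2 * b * hrad + b ^ 2 * h3
      have h5 := (mul_eq_zero.1 h4).resolve_left hr.ne'
      linarith
    exact (pow_left_inj₀ (norm_nonneg _) (norm_nonneg _) two_ne_zero).1 (h2.trans h1.symm)

lemma cont_u {u : Sph n → ℝ} (hu : IsSmooth u) : Continuous u := by
  have h := hu.continuousOn.comp_continuous continuous_subtype_val coe_ne
  convert h using 1
  funext s
  exact (ext_coe u s).symm

lemma cont_du {u : Sph n → ℝ} (hu : IsSmooth u) :
    Continuous fun s : Sph n => ‖fderiv ℝ (ext u) (s : Euc (n + 1))‖ :=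
  ((ContDiffOn.continuousOn_fderiv_of_isOpen hu isOpen_compl_singleton (by simp)).comp_continuous
    continuous_subtype_val coe_ne).norm

lemma bound {f : Sph n → ℝ} (hf : Continuous f) : ∃ C : ℝ, 0 ≤ C ∧ ∀ s, |f s| ≤ C := by
  obtain ⟨C, hC⟩ := isCompact_univ.exists_bound_of_continuousOn hf.continuousOn
  exact ⟨max C 0, le_max_right _ _, fun s => (hC s trivial).trans (le_max_left _ _)⟩

lemma integrable_of_le (hn : 4 ≤ n) {F : Euc n → ℝ} (hF : Continuous F) (C : ℝ)
    (h : ∀ x, |F x| ≤ C * (rho x ^ (n - 1) * (1 + ‖x‖))) : Integrable F := by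
  have h1 : Integrable (fun x : Euc n => (1 + ‖x‖) ^ (-((n : ℝ) + 1))) :=
    integrable_one_add_norm (by simp)
  refine (h1.const_mul (|C| * 4 ^ (n - 1))).mono' hF.aestronglyMeasurable
    (Filter.Eventually.of_forall fun x => (h x).trans ?_)
  have hr := rho_pos x
  have hx := norm_nonneg x
  have h2 : rho x * (1 + ‖x‖) ^ 2 ≤ 4 := by
    have h3 := rho_mul_norm_sq x
    have h4 : rho x * (1 - ‖x‖) ^ 2 ≥ 0 := by positivity
    nlinarith
  have h5 : rho x ^ (n - 1) * (1 + ‖x‖) * (1 + ‖x‖) ^ (n + 1) ≤ 4 ^ (n - 1) := by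
    calc rho x ^ (n - 1) * (1 + ‖x‖) * (1 + ‖x‖) ^ (n + 1)
        = rho x ^ (n - 1) * (1 + ‖x‖) ^ (n + 2) := by ring
      _ ≤ rho x ^ (n - 1) * (1 + ‖x‖) ^ (2 * (n - 1)) := by
          gcongr
          · linarith
          · omega
      _ = (rho x * (1 + ‖x‖) ^ 2) ^ (n - 1) := by rw [mul_pow, ← pow_mul]
      _ ≤ 4 ^ (n - 1) := by gcongr
  have h6 : (1 + ‖x‖) ^ (-((n : ℝ) + 1)) = ((1 + ‖x‖) ^ (n + 1))⁻¹ := by
    rw [Real.rpow_neg (by positivity), ← Nat.cast_succ, Real.rpow_natCast]
  rw [h6, mul_assoc]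
  have h7 : rho x ^ (n - 1) * (1 + ‖x‖) ≤ 4 ^ (n - 1) * ((1 + ‖x‖) ^ (n + 1))⁻¹ := by
    rw [← div_eq_mul_inv, le_div_iff₀ (by positivity)]
    exact h5
  calc C * (rho x ^ (n - 1) * (1 + ‖x‖)) ≤ |C| * (rho x ^ (n - 1) * (1 + ‖x‖)) := by
        gcongr; exact le_abs_self C
    _ ≤ _ := by gcongr

lemma abs_coord_le (x : Euc n) (i : Fin n) : |x i| ≤ ‖x‖ := by
  simpa using PiLp.norm_apply_le x i

/-- integration by parts against the radial field -/
lemma radial_parts (hn : 4 ≤ n) {φ : Euc n → ℝ} (hφ : ContDiff ℝ ∞ φ) (C : ℝ) (hC : 0 ≤ C)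
    (h0 : ∀ x, |φ x| ≤ C * rho x ^ (n - 1))
    (h1 : ∀ x, ‖fderiv ℝ φ x‖ ≤ C * rho x ^ (n - 1)) :
    Integrable (fun x => n * φ x + fderiv ℝ φ x x) ∧
      ∫ x, (n * φ x + fderiv ℝ φ x x) = 0 := by
  have hc : Continuous φ := hφ.continuous
  have hd : Continuous (fderiv ℝ φ) := hφ.continuous_fderiv (by simp)
  set e : Fin n → Euc n := fun i => EuclideanSpace.single i 1 with he
  have i0 : Integrable φ := integrable_of_le hn hc C fun x => (h0 x).trans (by
    have := rho_pos x
    have := norm_nonneg x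
    gcongr
    exact le_mul_of_one_le_right (by positivity) (by linarith))
  have i1 : ∀ i, Integrable fun x => fderiv ℝ φ x (e i) * x i := fun i =>
    integrable_of_le hn (by fun_prop) C fun x => by
      have := rho_pos x
      have h2 : |fderiv ℝ φ x (e i)| ≤ C * rho x ^ (n - 1) := by
        refine le_trans ?_ (h1 x)
        simpa [he] using (fderiv ℝ φ x).le_opNorm (e i)
      rw [abs_mul, ← mul_assoc]
      exact mul_le_mul h2 ((abs_coord_le x i).trans (by linarith)) (abs_nonneg _) (by positivity)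
  have i2 : ∀ i, Integrable fun x : Euc n => φ x * x i := fun i =>
    integrable_of_le hn (by fun_prop) C fun x => by
      have := rho_pos x
      rw [abs_mul, ← mul_assoc]
      exact mul_le_mul (h0 x) ((abs_coord_le x i).trans (by linarith)) (abs_nonneg _)
        (by positivity)
  have hp : ∀ i, ∫ x, φ x = -∫ x, fderiv ℝ φ x (e i) * x i := by
    intro i
    have hf : ∀ x : Euc n, fderiv ℝ (fun y : Euc n => y i) x (e i) = 1 := fun x => by
      have : fderiv ℝ (fun y : Euc n => y i) x = EuclideanSpace.proj (𝕜 := ℝ) i :=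
        (EuclideanSpace.proj (𝕜 := ℝ) i).fderiv
      rw [this]; simp [he]
    have h := integral_mul_fderiv_eq_neg_fderiv_mul_of_integrable (μ := volume) (f := φ)
      (g := fun y : Euc n => y i) (v := e i) (i1 i) (by simpa only [hf, mul_one] using i0) (i2 i)
      (fun x _ => hφ.differentiable (by simp) x)
      (fun x _ => (EuclideanSpace.proj (𝕜 := ℝ) i).differentiableAt)
    simpa only [hf, mul_one] using h
  have hs : ∀ x, fderiv ℝ φ x x = ∑ i, fderiv ℝ φ x (e i) * x i := fun x => by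
    have hx : x = ∑ i, x i • e i := by
      simpa [he] using ((EuclideanSpace.basisFun (Fin n) ℝ).sum_repr x).symm
    conv_lhs => rw [show fderiv ℝ φ x x = fderiv ℝ φ x (∑ i, x i • e i) by rw [← hx]]
    simp [map_sum, mul_comm]
  have i3 : Integrable fun x => ∑ i, fderiv ℝ φ x (e i) * x i :=
    integrable_finsetSum _ fun i _ => i1 i
  simp only [hs]
  refine ⟨(i0.const_mul _).add i3, ?_⟩
  rw [integral_add (i0.const_mul _) i3, integral_const_mul,
    integral_finsetSum _ fun i _ => i1 i]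
  have : ∀ i, ∫ x, fderiv ℝ φ x (e i) * x i = -∫ x, φ x := fun i => by rw [hp i, neg_neg]
  simp [this]

end Fwd

open Fwd in
theorem fwd_holds : FwdStmt := by
  intro n hn u hu
  obtain ⟨m, rfl⟩ : ∃ m, n = m + 2 := ⟨n - 2, by omega⟩
  set d : ℝ := ((m + 2 : ℕ) : ℝ) / 2 - 1 with hd
  have hdm : d = m / 2 := by rw [hd]; push_cast; ring
  have hd0 : 0 ≤ d := by rw [hdm]; positivity
  have hsq : ∀ x : Euc (m + 2), (rho x ^ d) ^ 2 = rho x ^ m := fun x => by
    rw [← Real.rpow_natCast, ← Real.rpow_mul (rho_pos x).le, hdm, ← Real.rpow_natCast]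
    congr 1; push_cast; ring
  obtain ⟨A, hA0, hA⟩ := bound (cont_u hu)
  obtain ⟨B, hB0, hB⟩ := bound (cont_du hu)
  set U : Euc (m + 2) → ℝ := fun x => u (sig x) with hU
  set g : Euc (m + 2) → ℝ := fun x => ‖fderiv ℝ (ext u) (sig x : Euc (m + 2 + 1))‖ with hg
  have hUs : ContDiff ℝ ∞ U := contDiff_U hu
  have hv : ContDiff ℝ ∞ (fwd u) :=
    (contDiff_rho.rpow_const_of_ne fun x => (rho_pos x).ne').mul hUs
  set φ : Euc (m + 2) → ℝ := fun x => rho x ^ (m + 1) * U x ^ 2 with hφ
  have hφs : ContDiff ℝ ∞ φ := (contDiff_rho.pow _).mul (hUs.pow 2)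
  have key : ∀ x, ∃ w : Euc (m + 2), ‖w‖ = rho x * g x ∧
      ‖fderiv ℝ (fwd u) x‖ ^ 2 = rho x ^ m * ‖w - (d * rho x * U x) • x‖ ^ 2 ∧
      fderiv ℝ φ x =
        innerSL ℝ ((rho x ^ (m + 1) * U x) • ((2 : ℝ) • w - ((m + 1) * rho x * U x) • x)) := by
    intro x
    obtain ⟨w, hw, hwn⟩ := grad_U hu x
    have hr := rho_pos x
    refine ⟨w, hwn, ?_, ?_⟩
    · have h1 := ((hasF_rho x).rpow_const (p := d) (Or.inl hr.ne')).mul hw
      have h2 : fderiv ℝ (fwd u) x =
          innerSL ℝ (rho x ^ d • (w - (d * rho x * U x) • x)) := by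
        refine (HasFDerivAt.fderiv h1).trans ?_
        ext k
        simp only [add_apply, smul_apply,
          innerSL_apply_apply, smul_eq_mul, inner_smul_left, inner_sub_left, conj_trivial, hU]
        rw [Real.rpow_sub_one hr.ne' d]
        generalize rho x ^ d = t
        field_simp
        ring
      rw [h2, innerSL_apply_norm, norm_smul, mul_pow, Real.norm_eq_abs, sq_abs, hsq]
    · have h1 := ((hasF_rho x).pow (m + 1)).mul (hw.pow 2)
      refine (HasFDerivAt.fderiv h1).trans ?_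
      ext k
      simp only [add_apply, smul_apply,
        innerSL_apply_apply, smul_eq_mul, inner_smul_left, inner_sub_left, conj_trivial, hU,
        nsmul_eq_mul, Nat.add_sub_cancel]
      push_cast
      ring
  have hUA : ∀ x, |U x| ≤ A := fun x => hA _
  have hgB : ∀ x, g x ≤ B := fun x => (le_abs_self _).trans (hB _)
  have hg0 : ∀ x, 0 ≤ g x := fun x => norm_nonneg _
  have hrx : ∀ x : Euc (m + 2), rho x * ‖x‖ ≤ 1 := fun x => by
    have h3 := rho_mul_norm_sq x
    have h4 : rho x * (1 - ‖x‖) ^ 2 ≥ 0 := by have := rho_pos x; positivity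
    nlinarith
  refine ⟨hv, ⟨max (A ^ 2) (4 * B ^ 2 + 4 * d ^ 2 * A ^ 2), fun x => ⟨?_, ?_⟩⟩, ?_⟩
  · have hr := rho_pos x
    have e : fwd u x ^ 2 = U x ^ 2 * rho x ^ m := by
      rw [← hsq, fwd, mul_pow, mul_comm]
    rw [e, Nat.add_sub_cancel]
    gcongr
    exact (sq_le_sq' (abs_le.1 (hUA x)).1 (abs_le.1 (hUA x)).2).trans (le_max_left _ _)
  · obtain ⟨w, hw, h1, -⟩ := key x
    have hr := rho_pos x
    have hr2 := rho_le_two x
    have h2 : ‖w - (d * rho x * U x) • x‖ ^ 2 ≤ (4 * B ^ 2 + 4 * d ^ 2 * A ^ 2) * rho x := by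
      have h3 : ‖w - (d * rho x * U x) • x‖ ≤ ‖w‖ + ‖(d * rho x * U x) • x‖ := norm_sub_le _ _
      have h4 : ‖w‖ ^ 2 ≤ 2 * B ^ 2 * rho x := by
        rw [hw, mul_pow]
        have : g x ^ 2 ≤ B ^ 2 := by have := hg0 x; have := hgB x; gcongr
        nlinarith [mul_le_mul hr2 this (sq_nonneg _) (by norm_num : (0 : ℝ) ≤ 2)]
      have h5 : ‖(d * rho x * U x) • x‖ ^ 2 ≤ 2 * d ^ 2 * A ^ 2 * rho x := by
        rw [norm_smul, mul_pow, Real.norm_eq_abs, sq_abs]
        have h6 : U x ^ 2 ≤ A ^ 2 := sq_le_sq' (abs_le.1 (hUA x)).1 (abs_le.1 (hUA x)).2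
        have h7 : rho x * ‖x‖ ^ 2 ≤ 2 := by rw [rho_mul_norm_sq]; linarith
        calc (d * rho x * U x) ^ 2 * ‖x‖ ^ 2
            = d ^ 2 * rho x * (U x ^ 2 * (rho x * ‖x‖ ^ 2)) := by ring
          _ ≤ d ^ 2 * rho x * (A ^ 2 * 2) := by gcongr
          _ = _ := by ring
      have h8 : ‖w - (d * rho x * U x) • x‖ ^ 2 ≤ (‖w‖ + ‖(d * rho x * U x) • x‖) ^ 2 := by
        gcongr
      nlinarith [sq_nonneg (‖w‖ - ‖(d * rho x * U x) • x‖)]
    rw [h1, show m + 2 - 1 = m + 1 from rfl, pow_succ (rho x) m]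
    calc rho x ^ m * ‖w - (d * rho x * U x) • x‖ ^ 2
        ≤ rho x ^ m * ((4 * B ^ 2 + 4 * d ^ 2 * A ^ 2) * rho x) := by gcongr
      _ = (4 * B ^ 2 + 4 * d ^ 2 * A ^ 2) * (rho x ^ m * rho x) := by ring
      _ ≤ _ := by gcongr; exact le_max_right _ _
  · set f : Sph (m + 2) → ℝ := fun s => ‖fderiv ℝ (ext u) (s : Euc (m + 2 + 1))‖ ^ 2 +
      (((m + 2 : ℕ) : ℝ) / 2) * (((m + 2 : ℕ) : ℝ) / 2 - 1) * u s ^ 2 with hf
    have hfc : Continuous f := ((cont_du hu).pow 2).add (continuous_const.mul ((cont_u hu).pow 2))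
    have hE : energy u = ∫ x : Euc (m + 2), f (sig x) * rho x ^ (m + 2) := meas_pos _ (by omega) f hfc
    obtain ⟨F, hF0, hF⟩ := bound hfc
    have hsig : Continuous (sig : Euc (m + 2) → Sph (m + 2)) :=
      contDiff_sigA.continuous.subtype_mk _
    have i1 : Integrable fun x : Euc (m + 2) => f (sig x) * rho x ^ (m + 2) := by
      refine integrable_of_le hn ((hfc.comp hsig).mul (contDiff_rho.continuous.pow _)) (2 * F)
        fun x => ?_
      have hr := rho_pos x
      have hr2 := rho_le_two x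
      have hx := norm_nonneg x
      rw [abs_mul, abs_of_pos (pow_pos hr _), show m + 2 - 1 = m + 1 from rfl]
      calc |f (sig x)| * rho x ^ (m + 2) = |f (sig x)| * (rho x ^ (m + 1) * rho x) := by ring
        _ ≤ F * (rho x ^ (m + 1) * (2 * (1 + ‖x‖))) := by
            gcongr
            · exact hF _
            · linarith
        _ = _ := by ring
    obtain ⟨i2, hz⟩ := radial_parts hn hφs (A ^ 2 + A * (4 * B + (m + 1) * A)) (by positivity)
      (fun x => by
        have hr := rho_pos x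
        have h6 : U x ^ 2 ≤ A ^ 2 := sq_le_sq' (abs_le.1 (hUA x)).1 (abs_le.1 (hUA x)).2
        simp only [hφ]
        rw [abs_of_nonneg (by positivity), show m + 2 - 1 = m + 1 from rfl, mul_comm]
        gcongr
        have : 0 ≤ A * (4 * B + (m + 1) * A) := by positivity
        linarith)
      (fun x => by
        obtain ⟨w, hw, -, h2⟩ := key x
        have hr := rho_pos x
        have hr2 := rho_le_two x
        have h3 : ‖(2 : ℝ) • w - ((m + 1) * rho x * U x) • x‖ ≤ 4 * B + (m + 1) * A := by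
          refine (norm_sub_le _ _).trans (add_le_add ?_ ?_)
          · rw [norm_smul, hw, Real.norm_two]
            nlinarith [mul_le_mul hr2 (hgB x) (hg0 x) (by norm_num : (0 : ℝ) ≤ 2)]
          · rw [norm_smul, Real.norm_eq_abs, abs_mul, abs_of_pos (by positivity)]
            calc (m + 1) * rho x * |U x| * ‖x‖ = (m + 1) * (|U x| * (rho x * ‖x‖)) := by ring
              _ ≤ (m + 1) * (A * 1) := by
                  gcongr
                  · exact hUA x
                  · exact hrx x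
              _ = _ := by ring
        rw [h2, innerSL_apply_norm, norm_smul, Real.norm_eq_abs, abs_mul,
          abs_of_pos (pow_pos hr _), show m + 2 - 1 = m + 1 from rfl]
        calc rho x ^ (m + 1) * |U x| * ‖(2 : ℝ) • w - ((m + 1) * rho x * U x) • x‖
            ≤ rho x ^ (m + 1) * A * (4 * B + (m + 1) * A) := by
              gcongr
              exact hUA x
          _ = A * (4 * B + (m + 1) * A) * rho x ^ (m + 1) := by ring
          _ ≤ _ := by
              gcongr
              linarith [sq_nonneg A])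
    have hpt : ∀ x, ‖fderiv ℝ (fwd u) x‖ ^ 2 = f (sig x) * rho x ^ (m + 2) -
        d * (((m + 2 : ℕ) : ℝ) * φ x + fderiv ℝ φ x x) := by
      intro x
      obtain ⟨w, hw, h1, h2⟩ := key x
      have h3 := rho_mul_norm_sq x
      have h4 : f (sig x) = g x ^ 2 + (d + 1) * d * U x ^ 2 := by
        simp only [hf, hg, hU, hd]; ring
      rw [h1, h2, h4, norm_sub_sq_real, hw, inner_smul_right, norm_smul, mul_pow _ ‖x‖,
        Real.norm_eq_abs, sq_abs, innerSL_apply_apply, inner_smul_left, inner_sub_left,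
        inner_smul_left, inner_smul_left, real_inner_self_eq_norm_sq]
      simp only [conj_trivial, hφ, hdm]
      push_cast
      linear_combination (rho x ^ (m + 1) * U x ^ 2 * (m / 2) * (m / 2 - (m + 1))) * h3
    simp only [hpt]
    rw [integral_sub i1 (i2.const_mul d), integral_const_mul, hz, mul_zero, sub_zero, hE]

end Pool.Agent.Lib.MP_465ce1_mp
end
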