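import Pool.Agent.Lib.MP_465ce1_mp.Trans
import Pool.Agent.Lib.MP_465ce1_mp.Fwd

/-!
Cutting off at infinity.
-/

open MeasureTheory Filter Topology
open scoped ContDiff

namespace Pool.Agent.Lib.MP_465ce1_mp

namespace Cut

variable {n : ℕ}

/-- A fixed bump function. -/
noncomputable def bump (n : ℕ) : ContDiffBump (0 : Euc n) := ⟨1 / 2, 1, by norm_num, by norm_num⟩

/-- The cut-off functions. -/
noncomputable def chi (n i : ℕ) (x : Euc n) : ℝ := bump n (((i : ℝ) + 1)⁻¹ • x)

theorem chi_smooth (i : ℕ) : ContDiff ℝ ∞ (chi n i) :=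
  (bump n).contDiff.comp (contDiff_id.const_smul _)

theorem norm_sc (i : ℕ) (x : Euc n) : ‖((i : ℝ) + 1)⁻¹ • x‖ = ‖x‖ / (i + 1) := by
  rw [norm_smul, norm_inv, Real.norm_of_nonneg (by positivity), inv_mul_eq_div]

theorem chi_zero (i : ℕ) (x : Euc n) (hx : (i : ℝ) + 1 < ‖x‖) : chi n i x = 0 := by
  refine (bump n).zero_of_le_dist ?_
  rw [dist_zero_right, norm_sc, le_div_iff₀ (by positivity)]
  simpa [bump] using hx.le

theorem chi_sq_le (i : ℕ) (x : Euc n) : chi n i x ^ 2 ≤ 1 :=
  pow_le_one₀ (bump n).nonneg (bump n).le_one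

theorem chi_ev (x : Euc n) : ∀ᶠ i : ℕ in atTop, chi n i =ᶠ[𝓝 x] fun _ => 1 := by
  filter_upwards [tendsto_natCast_atTop_atTop.eventually_ge_atTop (2 * ‖x‖)] with i hi
  have ho : IsOpen {y : Euc n | ‖y‖ < (i + 1) / 2} := isOpen_lt continuous_norm continuous_const
  filter_upwards [ho.mem_nhds (show ‖x‖ < (i + 1) / 2 by linarith)] with y hy
  refine (bump n).one_of_mem_closedBall ?_
  rw [mem_closedBall_zero_iff, norm_sc, div_le_iff₀ (by positivity)]
  have hy' : ‖y‖ < (i + 1) / 2 := hy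
  simp only [bump]
  linarith

theorem rho_ge (i : ℕ) (x : Euc n) (hx : ‖x‖ ≤ i + 1) : 2 / (1 + ((i : ℝ) + 1) ^ 2) ≤ rho x := by
  unfold rho
  gcongr

theorem grad_chi (n : ℕ) : ∃ K : ℝ, 0 ≤ K ∧ ∀ (i : ℕ) (x : Euc n),
    ‖fderiv ℝ (chi n i) x‖ ^ 2 ≤ K * rho x := by
  have hb : ContDiff ℝ 1 (bump n) := (bump n).contDiff
  obtain ⟨K, hK⟩ := (hb.continuous_fderiv one_ne_zero).bounded_above_of_compact_support
    ((bump n).hasCompactSupport.fderiv ℝ)
  refine ⟨K ^ 2, sq_nonneg _, fun i x => ?_⟩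
  have hr := rho_pos x
  by_cases hx : ‖x‖ ≤ i + 1
  · have h1 : HasFDerivAt (chi n i) ((fderiv ℝ (bump n) (((i : ℝ) + 1)⁻¹ • x)).comp
        (((i : ℝ) + 1)⁻¹ • ContinuousLinearMap.id ℝ (Euc n))) x :=
      (hb.differentiable one_ne_zero _).hasFDerivAt.comp x
        (((i : ℝ) + 1)⁻¹ • ContinuousLinearMap.id ℝ (Euc n)).hasFDerivAt
    have h2 : ‖fderiv ℝ (chi n i) x‖ ≤ K * ((i : ℝ) + 1)⁻¹ := by
      rw [h1.fderiv]
      refine (ContinuousLinearMap.opNorm_comp_le _ _).trans
        (mul_le_mul (hK _) ?_ (norm_nonneg _) ((norm_nonneg _).trans (hK 0)))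
      rw [norm_smul, norm_inv, Real.norm_of_nonneg (by positivity)]
      exact mul_le_of_le_one_right (by positivity) ContinuousLinearMap.norm_id_le
    have h3 : (((i : ℝ) + 1)⁻¹) ^ 2 ≤ rho x := by
      refine le_trans ?_ (rho_ge i x hx)
      have hi : (0 : ℝ) ≤ i := i.cast_nonneg
      rw [inv_pow, inv_eq_one_div, div_le_div_iff₀ (by positivity) (by positivity)]
      nlinarith
    calc _ ≤ (K * ((i : ℝ) + 1)⁻¹) ^ 2 := by gcongr
      _ ≤ _ := by
        rw [mul_pow]
        gcongr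
  · have ho : IsOpen {y : Euc n | (i : ℝ) + 1 < ‖y‖} := isOpen_lt continuous_const continuous_norm
    have h1 : chi n i =ᶠ[𝓝 x] fun _ => 0 := by
      filter_upwards [ho.mem_nhds (not_le.1 hx)] with y hy using chi_zero i y hy
    rw [h1.fderiv_eq]
    simp only [fderiv_fun_const, Pi.zero_apply, norm_zero]
    have : 0 ≤ K ^ 2 * rho x := by positivity
    simpa using this

theorem int_rho (hn : 4 ≤ n) (A : ℝ) : Integrable fun x : Euc n => A * rho x ^ (n - 1) := by
  refine (Fwd.integrable_of_le hn (Fwd.contDiff_rho.continuous.pow _) 1 fun x => ?_).const_mul A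
  have h1 : 0 < rho x ^ (n - 1) := pow_pos (rho_pos x) _
  rw [Pi.pow_apply, abs_of_pos h1]
  nlinarith [norm_nonneg x]

end Cut

open Pool.Agent.Lib.MP_465ce1_mp.Cut in
theorem cut_holds : CutStmt := by
  intro n hn
  refine ⟨chi n, fun i => ⟨chi_smooth i, chi_zero i⟩, fun v V C hv hV hVb hvb => ?_⟩
  obtain ⟨K, hK0, hK⟩ := grad_chi n
  have hC : 0 ≤ C := by
    have h1 := (sq_nonneg _).trans (hvb 0).1
    exact nonneg_of_mul_nonneg_left h1 (pow_pos (rho_pos _) _)
  have hp1 : ∀ x : Euc n, rho x ^ (n - 1) = rho x ^ (n - 2) * rho x := fun x => by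
    rw [← pow_succ]
    congr 1
    omega
  have hsq : ∀ i x, (chi n i x * v x) ^ 2 ≤ C * rho x ^ (n - 2) := fun i x => by
    rw [mul_pow]
    exact (mul_le_of_le_one_left (sq_nonneg _) (chi_sq_le i x)).trans (hvb x).1
  have hc : ∀ i, Continuous fun x => (chi n i x * v x) ^ 2 := fun i =>
    ((chi_smooth i).continuous.mul hv.continuous).pow 2
  have hev : ∀ x, ∀ᶠ i : ℕ in atTop, (fun y => chi n i y * v y) =ᶠ[𝓝 x] v := fun x => by
    filter_upwards [chi_ev x] with i hi
    filter_upwards [hi] with y hy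
    rw [hy, one_mul]
  refine ⟨?_, ?_, ?_⟩
  · refine tendsto_integral_of_dominated_convergence _ (fun i => ?_)
      (int_rho hn (2 * (C + C * K))) (fun i => ae_of_all _ fun x => ?_) (ae_of_all _ fun x => ?_)
    · exact ((((chi_smooth i).mul hv).continuous_fderiv (by simp)).norm.pow 2).aestronglyMeasurable
    · have h1 := (((chi_smooth (n := n) i).differentiable (by simp) x).hasFDerivAt.mul
        (hv.differentiable (by simp) x).hasFDerivAt).fderiv
      have h2 : ‖fderiv ℝ (fun y => chi n i y * v y) x‖ ≤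
          |chi n i x| * ‖fderiv ℝ v x‖ + |v x| * ‖fderiv ℝ (chi n i) x‖ := by
        refine (congrArg norm h1).trans_le ((norm_add_le _ _).trans_eq ?_)
        simp [norm_smul]
      have h3 : (|chi n i x| * ‖fderiv ℝ v x‖) ^ 2 ≤ C * rho x ^ (n - 1) := by
        rw [mul_pow, sq_abs]
        exact (mul_le_of_le_one_left (sq_nonneg _) (chi_sq_le i x)).trans (hvb x).2
      have h4 : (|v x| * ‖fderiv ℝ (chi n i) x‖) ^ 2 ≤ C * K * rho x ^ (n - 1) := by
        rw [mul_pow, sq_abs, hp1]
        refine (mul_le_mul (hvb x).1 (hK i x) (sq_nonneg _)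
          ((sq_nonneg _).trans (hvb x).1)).trans_eq ?_
        ring
      rw [Real.norm_of_nonneg (sq_nonneg _)]
      refine (pow_le_pow_left₀ (norm_nonneg _) h2 2).trans ?_
      nlinarith [sq_nonneg (|chi n i x| * ‖fderiv ℝ v x‖ - |v x| * ‖fderiv ℝ (chi n i) x‖)]
    · refine tendsto_const_nhds.congr' ?_
      filter_upwards [hev x] with i hi
      rw [hi.fderiv_eq]
  · have h0 : Tendsto (fun i : ℕ => (2 / (1 + ((i : ℝ) + 1) ^ 2)) ^ 2) atTop (𝓝 0) := by
      have h1 : Tendsto (fun i : ℕ => 1 + ((i : ℝ) + 1) ^ 2) atTop atTop :=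
        tendsto_atTop_add_const_left _ _ ((tendsto_pow_atTop two_ne_zero).comp
          (tendsto_atTop_add_const_right _ _ tendsto_natCast_atTop_atTop))
      simpa using (h1.const_div_atTop 2).pow 2
    have h1 : Tendsto (fun i : ℕ => ∫ x, (2 / (1 + ((i : ℝ) + 1) ^ 2)) ^ 2 * (chi n i x * v x) ^ 2)
        atTop (𝓝 (∫ _ : Euc n, (0 : ℝ))) := by
      refine tendsto_integral_of_dominated_convergence _
        (fun i => (continuous_const.mul (hc i)).aestronglyMeasurable)
        (int_rho hn (2 * C)) (fun i => ae_of_all _ fun x => ?_) (ae_of_all _ fun x => ?_)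
      · rw [Real.norm_of_nonneg (by positivity)]
        have hr := rho_pos x
        by_cases hx : ‖x‖ ≤ i + 1
        · have h2 : (2 / (1 + ((i : ℝ) + 1) ^ 2)) ^ 2 ≤ 2 * rho x := by
            refine (pow_le_pow_left₀ (by positivity) (rho_ge i x hx) 2).trans ?_
            nlinarith [rho_le_two x]
          refine (mul_le_mul h2 (hsq i x) (sq_nonneg _) (by positivity)).trans_eq ?_
          rw [hp1]
          ring
        · rw [chi_zero i x (not_le.1 hx)]
          have : 0 ≤ 2 * C * rho x ^ (n - 1) := by positivity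
          simpa using this
      · have h2 := h0.mul_const (v x ^ 2)
        rw [zero_mul] at h2
        refine h2.congr' ?_
        filter_upwards [hev x] with i hi
        rw [show chi n i x * v x = v x from hi.self_of_nhds]
    simpa only [integral_const_mul, integral_zero] using h1
  · refine tendsto_integral_of_dominated_convergence _
      (fun i => (hV.mul (hc i)).aestronglyMeasurable)
      (int_rho hn (2 * C * C)) (fun i => ae_of_all _ fun x => ?_) (ae_of_all _ fun x => ?_)
    · have hr := rho_pos x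
      have h2 : |V x| ≤ C * (2 * rho x) :=
        (hVb x).trans (mul_le_mul_of_nonneg_left (by nlinarith [rho_le_two x]) hC)
      rw [norm_mul, Real.norm_of_nonneg (sq_nonneg _), Real.norm_eq_abs]
      refine (mul_le_mul h2 (hsq i x) (sq_nonneg _) (by positivity)).trans_eq ?_
      rw [hp1]
      ring
    · refine tendsto_const_nhds.congr' ?_
      filter_upwards [hev x] with i hi
      rw [show chi n i x * v x = v x from hi.self_of_nhds]

end Pool.Agent.Lib.MP_465ce1_mp
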