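import Mathlib

/-!
Definitions for the weighted conformal Laplacian on the round sphere.
-/

open MeasureTheory
open scoped ContDiff

namespace Pool.Agent.Lib.MP_465ce1_mp

/-- The unit sphere `S^n` in Euclidean space of dimension `n + 1`. -/
abbrev Sph (n : ℕ) : Type := Metric.sphere (0 : EuclideanSpace ℝ (Fin (n + 1))) 1

/-- The extension of a function on the sphere to the ambient space that is homogeneous of
degree zero (and `0` at the origin). -/
noncomputable def ext {n : ℕ} (u : Sph n → ℝ) (y : EuclideanSpace ℝ (Fin (n + 1))) : ℝ :=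
  open Classical in
  if h : y = 0 then 0 else
    u ⟨‖y‖⁻¹ • y, by simp [norm_smul, norm_ne_zero_iff.mpr h]⟩

/-- A function on the sphere is smooth when its homogeneous extension is smooth off the origin. -/
def IsSmooth {n : ℕ} (u : Sph n → ℝ) : Prop := ContDiffOn ℝ ∞ (ext u) {0}ᶜ

/-- The Riemannian volume of the round sphere (surface measure). -/
noncomputable def vol (n : ℕ) : Measure (Sph n) :=
  (volume : Measure (EuclideanSpace ℝ (Fin (n + 1)))).toSphere

/-- The quadratic form of the conformal Laplacian `Y`: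
the integral of `|grad u|^2 + (n/2)(n/2-1) u^2` over the sphere. The gradient of the homogeneous
extension at a point of the sphere is the tangential gradient. -/
noncomputable def energy {n : ℕ} (u : Sph n → ℝ) : ℝ :=
  ∫ x, (‖fderiv ℝ (ext u) (x : EuclideanSpace ℝ (Fin (n + 1)))‖ ^ 2
    + (n / 2 : ℝ) * (n / 2 - 1) * u x ^ 2) ∂vol n

/-- The `k`-th eigenvalue (`k = 0, 1, ...`, with multiplicity) of `Y_W = W^(-1/2) Y W^(-1/2)` on
`L^2(S^n)`, by the min-max principle over spaces of smooth functions of dimension `k + 1`. -/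
noncomputable def eig {n : ℕ} (W : Sph n → ℝ) (k : ℕ) : ℝ :=
  sInf {L : ℝ | ∃ F : Submodule ℝ (Sph n → ℝ), Module.finrank ℝ F = k + 1 ∧
    ∀ φ ∈ F, IsSmooth φ ∧
      energy (fun x => φ x / Real.sqrt (W x)) ≤ L * ∫ x, φ x ^ 2 ∂vol n}

/-- The normalized heat trace `f_W(t) = t^(n/2) Tr exp(-t Y_W)`. -/
noncomputable def heat {n : ℕ} (W : Sph n → ℝ) (t : ℝ) : ℝ :=
  t ^ (n / 2 : ℝ) * ∑' k, Real.exp (-(t * eig W k))

end Pool.Agent.Lib.MP_465ce1_mp
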