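import Pool.Agent.Lib.MP_465ce1_mp.Trans

/-!
Properties of the weight function `om`.
-/

open MeasureTheory Filter Topology Set

namespace Pool.Agent.Lib.MP_465ce1_mp

namespace Om

/-- The integrand. -/
noncomputable def h (p y : ℝ) : ℝ := y ^ (p + 1) * (y ^ 2 - 6 * y + 6) * Real.exp (-y)

lemma om_eq (p a : ℝ) : om p a = ∫ y in Ioi a, h p y := rfl

lemma h_split (p : ℝ) {y : ℝ} (hy : 0 < y) :
    h p y = Real.exp (-y) * y ^ (p + 4 - 1) - 6 * (Real.exp (-y) * y ^ (p + 3 - 1)) +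
      6 * (Real.exp (-y) * y ^ (p + 2 - 1)) := by
  have e1 : y ^ (p + 4 - 1) = y ^ (p + 1) * y ^ 2 := by
    rw [show p + 4 - 1 = (p + 1) + (2 : ℕ) by push_cast; ring, Real.rpow_add hy,
      Real.rpow_natCast]
  have e2 : y ^ (p + 3 - 1) = y ^ (p + 1) * y := by
    rw [show p + 3 - 1 = (p + 1) + 1 by ring, Real.rpow_add hy, Real.rpow_one]
  have e3 : y ^ (p + 2 - 1) = y ^ (p + 1) := by
    rw [show p + 2 - 1 = p + 1 by ring]
  rw [e1, e2, e3, h]; ring

lemma integrableOn_h0 {p : ℝ} (hp : 0 ≤ p) : IntegrableOn (h p) (Ioi 0) := by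
  have i1 := Real.GammaIntegral_convergent (show 0 < p + 4 by linarith)
  have i2 := Real.GammaIntegral_convergent (show 0 < p + 3 by linarith)
  have i3 := Real.GammaIntegral_convergent (show 0 < p + 2 by linarith)
  have := (i1.sub (i2.const_mul 6)).add (i3.const_mul 6)
  refine IntegrableOn.congr_fun this (fun y hy => ?_) measurableSet_Ioi
  simp only [Pi.add_apply, Pi.sub_apply]
  exact (h_split p hy).symm

lemma integrableOn_h {p : ℝ} (hp : 0 ≤ p) {a : ℝ} (ha : 0 ≤ a) : IntegrableOn (h p) (Ioi a) :=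
  (integrableOn_h0 hp).mono_set (Ioi_subset_Ioi ha)

lemma integrableOn_h' {p : ℝ} (hp : 0 ≤ p) {a : ℝ} (ha : 0 ≤ a) (b : ℝ) :
    IntegrableOn (h p) (Ioc a b) :=
  (integrableOn_h hp ha).mono_set Ioc_subset_Ioi_self

lemma om_zero {p : ℝ} (hp : 0 ≤ p) : om p 0 = Real.Gamma (p + 2) * p * (p - 1) := by
  have i1 := Real.GammaIntegral_convergent (show 0 < p + 4 by linarith)
  have i2 := Real.GammaIntegral_convergent (show 0 < p + 3 by linarith)
  have i3 := Real.GammaIntegral_convergent (show 0 < p + 2 by linarith)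
  have i12 : IntegrableOn (fun y : ℝ => Real.exp (-y) * y ^ (p + 4 - 1) -
      6 * (Real.exp (-y) * y ^ (p + 3 - 1))) (Ioi 0) := i1.sub (i2.const_mul 6)
  have e : om p 0 = Real.Gamma (p + 4) - 6 * Real.Gamma (p + 3) + 6 * Real.Gamma (p + 2) := by
    rw [om_eq, setIntegral_congr_fun measurableSet_Ioi (fun y hy => h_split p hy),
      integral_add i12 (i3.const_mul 6),
      integral_sub i1 (i2.const_mul 6), integral_const_mul, integral_const_mul,
      Real.Gamma_eq_integral (show 0 < p + 4 by linarith),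
      Real.Gamma_eq_integral (show 0 < p + 3 by linarith),
      Real.Gamma_eq_integral (show 0 < p + 2 by linarith)]
  have g3 : Real.Gamma (p + 3) = (p + 2) * Real.Gamma (p + 2) := by
    rw [show p + 3 = (p + 2) + 1 by ring, Real.Gamma_add_one (by linarith)]
  have g4 : Real.Gamma (p + 4) = (p + 3) * Real.Gamma (p + 3) := by
    rw [show p + 4 = (p + 3) + 1 by ring, Real.Gamma_add_one (by linarith)]
  rw [e, g4, g3]; ring

lemma om_sub {p : ℝ} (hp : 0 ≤ p) {a b : ℝ} (ha : 0 ≤ a) (hab : a ≤ b) :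
    om p a - om p b = ∫ y in Ioc a b, h p y := by
  have hu : Ioi a = Ioc a b ∪ Ioi b := (Ioc_union_Ioi_eq_Ioi hab).symm
  rw [om_eq, om_eq, hu, setIntegral_union Ioc_disjoint_Ioi_same measurableSet_Ioi
    (integrableOn_h' hp ha b) (integrableOn_h hp (ha.trans hab))]
  ring

lemma s_sq : (√3 : ℝ) ^ 2 = 3 := Real.sq_sqrt (by norm_num)

lemma s_lo : (1.732 : ℝ) ≤ √3 := Real.le_sqrt_of_sq_le (by norm_num)

lemma s_hi : (√3 : ℝ) ≤ 1.73206 := Real.sqrt_le_iff.2 ⟨by norm_num, by norm_num⟩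

lemma q_fac (y : ℝ) : y ^ 2 - 6 * y + 6 = (y - (3 - √3)) * (y - (3 + √3)) := by
  have := s_sq
  nlinarith

lemma h_nonneg_lo (p : ℝ) {y : ℝ} (hy : 0 ≤ y) (h1 : y ≤ 3 - √3) : 0 ≤ h p y := by
  have := s_lo
  have hq : 0 ≤ y ^ 2 - 6 * y + 6 := by
    rw [q_fac]; exact mul_nonneg_of_nonpos_of_nonpos (by linarith) (by linarith)
  exact mul_nonneg (mul_nonneg (Real.rpow_nonneg hy _) hq) (Real.exp_pos _).le

lemma h_nonneg_hi (p : ℝ) {y : ℝ} (h1 : 3 + √3 ≤ y) : 0 ≤ h p y := by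
  have := s_lo
  have hq : 0 ≤ y ^ 2 - 6 * y + 6 := by
    rw [q_fac]; exact mul_nonneg (by linarith) (by linarith)
  exact mul_nonneg (mul_nonneg (Real.rpow_nonneg (by linarith) _) hq) (Real.exp_pos _).le

lemma h_nonpos_mid (p : ℝ) {y : ℝ} (h0 : 3 - √3 ≤ y) (h1 : y ≤ 3 + √3) : h p y ≤ 0 := by
  have := s_hi
  have hq : y ^ 2 - 6 * y + 6 ≤ 0 := by
    rw [q_fac]; exact mul_nonpos_of_nonneg_of_nonpos (by linarith) (by linarith)
  exact mul_nonpos_of_nonpos_of_nonneg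
    (mul_nonpos_of_nonneg_of_nonpos (Real.rpow_nonneg (by linarith) _) hq) (Real.exp_pos _).le

lemma anti_lo {p : ℝ} (hp : 0 ≤ p) {a b : ℝ} (ha : 0 ≤ a) (hab : a ≤ b) (hb : b ≤ 3 - √3) :
    om p b ≤ om p a := by
  have : 0 ≤ ∫ y in Ioc a b, h p y :=
    setIntegral_nonneg measurableSet_Ioc fun y hy =>
      h_nonneg_lo p (ha.trans hy.1.le) (hy.2.trans hb)
  linarith [om_sub hp ha hab]

lemma anti_hi {p : ℝ} (hp : 0 ≤ p) {a b : ℝ} (ha : 3 + √3 ≤ a) (hab : a ≤ b) :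
    om p b ≤ om p a := by
  have := s_lo
  have : 0 ≤ ∫ y in Ioc a b, h p y :=
    setIntegral_nonneg measurableSet_Ioc fun y hy => h_nonneg_hi p (ha.trans hy.1.le)
  linarith [om_sub hp (show 0 ≤ a by linarith) hab]

lemma mono_mid {p : ℝ} (hp : 0 ≤ p) {a b : ℝ} (ha : 3 - √3 ≤ a) (hab : a ≤ b)
    (hb : b ≤ 3 + √3) : om p a ≤ om p b := by
  have := s_hi
  have : ∫ y in Ioc a b, h p y ≤ 0 :=
    setIntegral_nonpos measurableSet_Ioc fun y hy =>
      h_nonpos_mid p (ha.trans hy.1.le) (hy.2.trans hb)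
  linarith [om_sub hp (show 0 ≤ a by linarith) hab]

lemma nonneg_hi (p : ℝ) {a : ℝ} (ha : 3 + √3 ≤ a) : 0 ≤ om p a :=
  setIntegral_nonneg measurableSet_Ioi fun _ hy => h_nonneg_hi p (ha.trans (le_of_lt hy))

lemma h_fac (p : ℝ) {y : ℝ} (hy : 0 < y) : h p y = y ^ (p - 2) * h 2 y := by
  rw [h, h, show p + 1 = (p - 2) + (2 + 1) by ring, Real.rpow_add hy]; ring

lemma h_two (y : ℝ) : h 2 y = y ^ 3 * (y ^ 2 - 6 * y + 6) * Real.exp (-y) := by
  rw [h, show (2 : ℝ) + 1 = (3 : ℕ) by norm_num, Real.rpow_natCast]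

lemma om_two {a : ℝ} (ha : 0 ≤ a) :
    om 2 a = (a ^ 5 - a ^ 4 + 2 * a ^ 3 + 6 * a ^ 2 + 12 * a + 12) * Real.exp (-a) := by
  have hd : ∀ y ∈ Ici a, HasDerivAt
      (fun y : ℝ => -((y ^ 5 - y ^ 4 + 2 * y ^ 3 + 6 * y ^ 2 + 12 * y + 12) * Real.exp (-y)))
      (h 2 y) y := by
    intro y _
    have h1 : HasDerivAt (fun y : ℝ => y ^ 5 - y ^ 4 + 2 * y ^ 3 + 6 * y ^ 2 + 12 * y + 12)
        (5 * y ^ 4 - 4 * y ^ 3 + 6 * y ^ 2 + 12 * y + 12) y := by
      have := (((((hasDerivAt_pow 5 y).sub (hasDerivAt_pow 4 y)).add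
        ((hasDerivAt_pow 3 y).const_mul 2)).add ((hasDerivAt_pow 2 y).const_mul 6)).add
        ((hasDerivAt_id y).const_mul 12)).add_const 12
      refine HasDerivAt.congr_deriv this ?_
      push_cast; ring
    have h2 : HasDerivAt (fun y : ℝ => Real.exp (-y)) (-Real.exp (-y)) y := by
      simpa using (hasDerivAt_neg y).exp
    refine HasDerivAt.congr_deriv (h1.mul h2).neg ?_
    rw [h_two]; ring
  have ht : Tendsto
      (fun y : ℝ => -((y ^ 5 - y ^ 4 + 2 * y ^ 3 + 6 * y ^ 2 + 12 * y + 12) * Real.exp (-y)))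
      atTop (𝓝 0) := by
    have t := Real.tendsto_pow_mul_exp_neg_atTop_nhds_zero
    have := ((((((t 5).sub (t 4)).add ((t 3).const_mul 2)).add ((t 2).const_mul 6)).add
      ((t 1).const_mul 12)).add ((t 0).const_mul 12)).neg
    simp only [sub_zero, mul_zero, add_zero, neg_zero] at this
    refine this.congr fun y => ?_
    ring
  rw [om_eq, integral_Ioi_of_hasDerivAt_of_tendsto' hd (integrableOn_h (by norm_num) ha) ht]
  ring

lemma P_red {y : ℝ} (hy : y ^ 2 - 6 * y + 6 = 0) :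
    y ^ 5 - y ^ 4 + 2 * y ^ 3 + 6 * y ^ 2 + 12 * y + 12 = 648 * y - 780 := by
  linear_combination (y ^ 3 + 5 * y ^ 2 + 26 * y + 132) * hy

lemma exp_s : (5.649 : ℝ) ≤ Real.exp (√3) := by
  have h1 := Real.sum_le_exp_of_nonneg (show (0 : ℝ) ≤ 1.732 by norm_num) 8
  have h2 : Real.exp 1.732 ≤ Real.exp (√3) := Real.exp_le_exp.2 s_lo
  refine le_trans ?_ (h1.trans h2)
  simp only [Finset.sum_range_succ, Finset.sum_range_zero, Nat.factorial]
  norm_num

lemma exp_three : (20.08 : ℝ) ≤ Real.exp 3 ∧ Real.exp 3 ≤ 20.09 := by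
  have e : Real.exp 3 = Real.exp 1 ^ 3 := by
    rw [← Real.exp_nat_mul]; norm_num
  have h1 := Real.exp_one_gt_d9
  have h2 := Real.exp_one_lt_d9
  rw [e]
  constructor
  · calc (20.08 : ℝ) ≤ 2.7182818283 ^ 3 := by norm_num
      _ ≤ _ := pow_le_pow_left₀ (by norm_num) h1.le 3
  · calc Real.exp 1 ^ 3 ≤ 2.7182818286 ^ 3 := pow_le_pow_left₀ (Real.exp_pos _).le h2.le 3
      _ ≤ _ := by norm_num

lemma M2 : 0 < om 2 (3 + √3) ∧ om 2 (3 + √3) ≤ 20.2 := by
  have hl := s_lo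
  have hh := s_hi
  have hE := exp_s
  have h3 := exp_three.1
  rw [om_two (by linarith), P_red (by rw [q_fac]; ring)]
  refine ⟨mul_pos (by linarith) (Real.exp_pos _), ?_⟩
  rw [Real.exp_neg, Real.exp_add, ← div_eq_mul_inv, div_le_iff₀ (by positivity)]
  have : (20.08 : ℝ) * 5.649 ≤ Real.exp 3 * Real.exp (√3) :=
    mul_le_mul h3 hE (by norm_num) (Real.exp_pos _).le
  linarith

lemma m2 : 11.7 ≤ om 2 (3 - √3) := by
  have hl := s_lo
  have hh := s_hi
  have hE := exp_s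
  have h3 := exp_three.2
  rw [om_two (by linarith), P_red (by rw [q_fac]; ring)]
  rw [show -(3 - √3) = √3 - 3 by ring, Real.exp_sub, ← mul_div_assoc,
    le_div_iff₀ (Real.exp_pos _)]
  have : (41.625 : ℝ) * 5.649 ≤ (648 * (3 - √3) - 780) * Real.exp (√3) :=
    mul_le_mul (by linarith) hE (by norm_num) (by linarith)
  linarith

lemma cmp_hi {p : ℝ} (hp : 2 ≤ p) : (3 + √3) ^ (p - 2) * om 2 (3 + √3) ≤ om p (3 + √3) := by
  have hl := s_lo
  have h0 : (0 : ℝ) ≤ 3 + √3 := by linarith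
  rw [om_eq, om_eq, ← integral_const_mul]
  refine setIntegral_mono_on ((integrableOn_h (by norm_num) h0).const_mul _)
    (integrableOn_h (by linarith) h0) measurableSet_Ioi fun y hy => ?_
  have hy' : 3 + √3 ≤ y := le_of_lt hy
  rw [h_fac p (show 0 < y by linarith)]
  exact mul_le_mul_of_nonneg_right (Real.rpow_le_rpow h0 hy' (by linarith)) (h_nonneg_hi 2 hy')

lemma cmp_mid {p : ℝ} (hp : 2 ≤ p) : om p (3 + √3) - om p (3 - √3) ≤
    (3 + √3) ^ (p - 2) * (om 2 (3 + √3) - om 2 (3 - √3)) := by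
  have hl := s_lo
  have hh := s_hi
  have h0 : (0 : ℝ) ≤ 3 - √3 := by linarith
  have h01 : (3 : ℝ) - √3 ≤ 3 + √3 := by linarith
  have key : (3 + √3) ^ (p - 2) * (om 2 (3 - √3) - om 2 (3 + √3)) ≤
      om p (3 - √3) - om p (3 + √3) := by
    rw [om_sub (by linarith) h0 h01, om_sub (by linarith) h0 h01, ← integral_const_mul]
    refine setIntegral_mono_on ((integrableOn_h' (by norm_num) h0 _).const_mul _)
      (integrableOn_h' (by linarith) h0 _) measurableSet_Ioc fun y hy => ?_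
    have hy0 : 0 < y := by linarith [hy.1]
    rw [h_fac p hy0]
    exact mul_le_mul_of_nonpos_right (Real.rpow_le_rpow hy0.le hy.2 (by linarith))
      (h_nonpos_mid 2 hy.1.le hy.2)
  linarith

lemma cmp_lo {p : ℝ} (hp : 2 ≤ p) : om p 0 - om p (3 - √3) ≤
    (3 + √3) ^ (p - 2) * (om 2 0 - om 2 (3 - √3)) := by
  have hl := s_lo
  have hh := s_hi
  have h0 : (0 : ℝ) ≤ 3 - √3 := by linarith
  rw [om_sub (by linarith) le_rfl h0, om_sub (by linarith) le_rfl h0, ← integral_const_mul]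
  refine setIntegral_mono_on (integrableOn_h' (by linarith) le_rfl _)
    ((integrableOn_h' (by norm_num) le_rfl _).const_mul _) measurableSet_Ioc fun y hy => ?_
  rw [h_fac p hy.1]
  exact mul_le_mul_of_nonneg_right
    (Real.rpow_le_rpow hy.1.le (by linarith [hy.2]) (by linarith)) (h_nonneg_lo 2 hy.1.le hy.2)

end Om

open Om in
theorem om_holds : OmStmt := by
  intro p hp
  have hl := s_lo
  have hh := s_hi
  have hp0 : 0 ≤ p := by linarith
  have h0 : (0 : ℝ) ≤ 3 - √3 := by linarith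
  have h01 : (3 : ℝ) - √3 ≤ 3 + √3 := by linarith
  have hK : (0 : ℝ) < (3 + √3) ^ (p - 2) := Real.rpow_pos_of_pos (by linarith) _
  have c1 := cmp_hi hp
  have c2 := cmp_mid hp
  have c3 := cmp_lo hp
  have n1 := M2
  have n2 := m2
  have n0 : om 2 0 = 12 := by rw [om_two le_rfl]; simp
  have hmM : om p (3 - √3) ≤ om p (3 + √3) := mono_mid hp0 le_rfl h01 le_rfl
  have hM : 0 < om p (3 + √3) := lt_of_lt_of_le (mul_pos hK n1.1) c1
  have h47 : 4 * om p (3 + √3) ≤ 7 * om p (3 - √3) := by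
    have : (3 + √3) ^ (p - 2) * (7 * (om 2 (3 + √3) - om 2 (3 - √3))) ≤
        (3 + √3) ^ (p - 2) * (3 * om 2 (3 + √3)) :=
      mul_le_mul_of_nonneg_left (by linarith [n1.2]) hK.le
    nlinarith
  have hm : 0 < om p (3 - √3) := by linarith
  refine ⟨fun a a' ha haa => anti_hi hp0 ha haa, fun a a' ha haa => ?_, hm, hmM, h47, ?_⟩
  · have easy : 0 ≤ om p a → om p a' ≤ om p a →
        om p (3 - √3) * om p a' ≤ om p (3 + √3) * om p a := fun h1 h2 =>
      (mul_le_mul_of_nonneg_left h2 hm.le).trans (mul_le_mul_of_nonneg_right hmM h1)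
    rcases le_total (3 + √3) a with h1 | h1
    · exact easy (nonneg_hi p h1) (anti_hi hp0 h1 haa)
    have hma : om p (3 - √3) ≤ om p a := by
      rcases le_total a (3 - √3) with h2 | h2
      · exact anti_lo hp0 ha.le h2 le_rfl
      · exact mono_mid hp0 le_rfl h2 h1
    rcases le_total a' (3 - √3) with h2 | h2
    · exact easy (hm.le.trans hma) (anti_lo hp0 ha.le haa h2)
    have hM' : om p a' ≤ om p (3 + √3) := by
      rcases le_total a' (3 + √3) with h3 | h3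
      · exact mono_mid hp0 h2 h3 le_rfl
      · exact anti_hi hp0 le_rfl h3
    calc om p (3 - √3) * om p a' ≤ om p (3 - √3) * om p (3 + √3) :=
          mul_le_mul_of_nonneg_left hM' hm.le
      _ = om p (3 + √3) * om p (3 - √3) := mul_comm _ _
      _ ≤ _ := mul_le_mul_of_nonneg_left hma hM.le
  · rw [← om_zero hp0]
    have hA : om p (3 - √3) ≤ om p 0 := anti_lo hp0 le_rfl h0 le_rfl
    have hw : 0 < om p 0 := hm.trans_le hA
    set η := 9 * (3 + √3) ^ (p - 2) / om p 0 with hη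
    have hη0 : 0 ≤ η := by positivity
    have hηw : η * om p 0 = 9 * (3 + √3) ^ (p - 2) := by
      rw [hη]; field_simp
    have hAB : (om p 0 - om p (3 - √3)) + (om p (3 + √3) - om p (3 - √3)) ≤ η * om p 0 := by
      have : (3 + √3) ^ (p - 2) * ((om 2 0 - om 2 (3 - √3)) + (om 2 (3 + √3) - om 2 (3 - √3))) ≤
          (3 + √3) ^ (p - 2) * 9 :=
        mul_le_mul_of_nonneg_left (by linarith [n1.2]) hK.le
      nlinarith
    rcases le_total 1 η with h1 | h1
    · exact (mul_nonpos_of_nonpos_of_nonneg (by linarith) hM.le).trans hm.le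
    · have a1 : (1 - η) * om p (3 + √3) ≤
          (1 - η) * (om p 0 + (om p (3 + √3) - om p (3 - √3))) :=
        mul_le_mul_of_nonneg_left (by linarith) (by linarith)
      have a2 : 0 ≤ η * (om p (3 + √3) - om p (3 - √3)) := mul_nonneg hη0 (by linarith)
      nlinarith

end Pool.Agent.Lib.MP_465ce1_mp
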