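import Pool.Agent.Lib.MP_465ce1_mp.Trans

-- part Pool.Agent.Lib.MP_465ce1_mp.Spec
section

/-!
The spectral theorem for a pair of forms with a finite counting function.
-/

open Filter Topology

namespace Pool.Agent.Lib.MP_465ce1_mp

namespace Spec

variable {H : Type} [NormedAddCommGroup H] [NormedSpace ℝ H]

lemma cs (T : H →ₗ[ℝ] H →ₗ[ℝ] ℝ) (hs : ∀ x y, T x y = T y x) (hp : ∀ x, 0 ≤ T x x) (x y : H) :
    T x y ^ 2 ≤ T x x * T y y := by
  have := LinearMap.BilinForm.apply_mul_apply_le_of_forall_zero_le T hp x y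
  rwa [hs y x, ← sq] at this

lemma cont (T : H →ₗ[ℝ] H →ₗ[ℝ] ℝ) (hs : ∀ x y, T x y = T y x) (hp : ∀ x, 0 ≤ T x x) {C : ℝ}
    (hC : ∀ x, T x x ≤ C * ‖x‖ ^ 2) : Continuous fun p : H × H => T p.1 p.2 := by
  have h : ∀ x y, ‖T x y‖ ≤ |C| * ‖x‖ * ‖y‖ := fun x y => by
    refine abs_le_of_sq_le_sq' ?_ (by positivity) |> abs_le.2
    have h1 : ∀ z, T z z ≤ |C| * ‖z‖ ^ 2 := fun z =>
      (hC z).trans (mul_le_mul_of_nonneg_right (le_abs_self C) (by positivity))
    calc _ ≤ T x x * T y y := cs T hs hp x y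
      _ ≤ (|C| * ‖x‖ ^ 2) * (|C| * ‖y‖ ^ 2) := mul_le_mul (h1 x) (h1 y) (hp y) (by positivity)
      _ = _ := by ring
  exact (T.mkContinuous₂ |C| h).continuous₂

lemma sub_le (T : H →ₗ[ℝ] H →ₗ[ℝ] ℝ) (hp : ∀ x, 0 ≤ T x x) (x y : H) :
    T (x - y) (x - y) ≤ 2 * T x x + 2 * T y y := by
  have := hp (x + y)
  simp only [map_add, map_sub, LinearMap.add_apply, LinearMap.sub_apply] at this ⊢
  linarith

/-- the standing hypotheses -/
structure Hyp (q b : H →ₗ[ℝ] H →ₗ[ℝ] ℝ) (c C : ℝ) : Prop where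
  hc : 0 < c
  qs : ∀ x y, q x y = q y x
  bs : ∀ x y, b x y = b y x
  qlo : ∀ x, c * ‖x‖ ^ 2 ≤ q x x
  qhi : ∀ x, q x x ≤ C * ‖x‖ ^ 2
  bpos : ∀ x, x ≠ 0 → 0 < b x x
  bhi : ∀ x, b x x ≤ C * ‖x‖ ^ 2
  fin : ∀ L : ℝ, ∃ N : ℕ, ∀ F : Submodule ℝ H, (∀ x ∈ F, q x x ≤ L * b x x) →
    Module.finrank ℝ F ≤ N

variable {q b : H →ₗ[ℝ] H →ₗ[ℝ] ℝ} {c C : ℝ}

lemma Hyp.q0 (h : Hyp q b c C) (x : H) : 0 ≤ q x x :=
  le_trans (mul_nonneg h.hc.le (sq_nonneg _)) (h.qlo x)

lemma Hyp.qpos (h : Hyp q b c C) {x : H} (hx : x ≠ 0) : 0 < q x x :=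
  lt_of_lt_of_le (mul_pos h.hc (pow_pos (norm_pos_iff.2 hx) 2)) (h.qlo x)

lemma Hyp.b0 (h : Hyp q b c C) (x : H) : 0 ≤ b x x := by
  by_cases hx : x = 0
  · simp [hx]
  · exact (h.bpos x hx).le

lemma Hyp.qc (h : Hyp q b c C) : Continuous fun p : H × H => q p.1 p.2 := cont q h.qs h.q0 h.qhi

lemma Hyp.bc (h : Hyp q b c C) : Continuous fun p : H × H => b p.1 p.2 := cont b h.bs h.b0 h.bhi

lemma Hyp.sub (h : Hyp q b c C) (W : Submodule ℝ H) :
    Hyp (q.compl₁₂ W.subtype W.subtype) (b.compl₁₂ W.subtype W.subtype) c C where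
  hc := h.hc
  qs := fun x y => h.qs x y
  bs := fun x y => h.bs x y
  qlo := fun x => h.qlo x
  qhi := fun x => h.qhi x
  bpos := fun x hx => h.bpos x (by simpa using hx)
  bhi := fun x => h.bhi x
  fin := fun L => by
    obtain ⟨N, hN⟩ := h.fin L
    refine ⟨N, fun F hF => ?_⟩
    rw [← Submodule.finrank_map_subtype_eq]
    refine hN _ ?_
    rintro _ ⟨x, hx, rfl⟩
    exact hF x hx

/-- on a subspace of finite codimension the form `b` is small -/
lemma Hyp.small (h : Hyp q b c C) (L : ℝ) : ∃ (n : ℕ) (A : H →L[ℝ] (Fin n → ℝ)),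
    ∀ x, A x = 0 → L * b x x ≤ q x x := by
  obtain ⟨N, hN⟩ := h.fin L
  set P : Set ℕ := {n | ∃ F : Submodule ℝ H, FiniteDimensional ℝ F ∧ Module.finrank ℝ F = n ∧
    ∀ x ∈ F, q x x ≤ L * b x x} with hP
  have hb : BddAbove P := ⟨N, by
    rintro _ ⟨F, -, rfl, hF⟩
    exact hN F hF⟩
  have hne : P.Nonempty := ⟨_, ⊥, inferInstance, rfl, fun x hx => by
    simp [(Submodule.mem_bot ℝ).1 hx]⟩
  obtain ⟨F, hfd, hrk, hF⟩ := Nat.sSup_mem hne hb
  let β := Module.finBasisOfFinrankEq ℝ F hrk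
  let S : H →ₗ[ℝ] H →ₗ[ℝ] ℝ := q - L • b
  have hS : ∀ x y, S x y = q x y - L * b x y := fun x y => by simp [S]
  let A : H →ₗ[ℝ] (Fin (sSup P) → ℝ) := LinearMap.pi fun i => S (β i)
  have hA : Continuous A := continuous_pi fun i => by
    simp only [A, LinearMap.pi_apply, hS]
    exact (h.qc.comp (Continuous.prodMk_right _)).sub
      ((h.bc.comp (Continuous.prodMk_right _)).const_mul L)
  refine ⟨_, ⟨A, hA⟩, fun x hx => ?_⟩
  have h1 : (S.flip x).comp F.subtype = 0 := β.ext fun i => congrFun hx i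
  have h2 : ∀ f ∈ F, S f x = 0 := fun f hf => LinearMap.congr_fun h1 ⟨f, hf⟩
  by_contra hlt
  have h3 : S x x < 0 := by rw [hS]; linarith
  have hx : x ∉ F := fun hx => h3.ne (h2 x hx)
  have h4 : F < F ⊔ Submodule.span ℝ {x} := left_lt_sup.2 (by simpa using hx)
  have h5 := Submodule.finrank_lt_finrank_of_lt h4
  have h6 : Module.finrank ℝ (F ⊔ Submodule.span ℝ {x} : Submodule ℝ H) ∈ P := by
    refine ⟨_, inferInstance, rfl, fun y hy => ?_⟩
    obtain ⟨f, hf, z, hz, rfl⟩ := Submodule.mem_sup.1 hy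
    obtain ⟨t, rfl⟩ := Submodule.mem_span_singleton.1 hz
    have a1 : S f f ≤ 0 := by rw [hS]; linarith [hF f hf]
    have a2 : S x f = 0 := by rw [hS, h.qs, h.bs, ← hS, h2 f hf]
    have a3 : S (f + t • x) (f + t • x) = S f f + t * t * S x x := by
      simp only [map_add, map_smul, LinearMap.add_apply, LinearMap.smul_apply, smul_eq_mul, a2,
        h2 f hf]
      ring
    have a4 := mul_nonneg (mul_self_nonneg t) (neg_nonneg.2 h3.le)
    have a5 := hS (f + t • x) (f + t • x)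
    linarith
  have h7 := le_csSup hb h6
  omega

lemma Hyp.norm1 (h : Hyp q b c C) {x : H} (hx : x ≠ 0) :
    ∃ y, q y y = 1 ∧ b x x = b y y * q x x := by
  have h1 := h.qpos hx
  have h2 : 0 < √(q x x) := Real.sqrt_pos.2 h1
  have h3 : (√(q x x))⁻¹ * ((√(q x x))⁻¹ * q x x) = 1 := by
    field_simp
    rw [Real.sq_sqrt h1.le]
  refine ⟨(√(q x x))⁻¹ • x, by simpa using h3, ?_⟩
  simp only [map_smul, LinearMap.smul_apply, smul_eq_mul]
  linear_combination (-b x x) * h3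

/-- the maximum of the quotient is attained -/
lemma Hyp.exists_max [CompleteSpace H] (h : Hyp q b c C) {x0 : H} (hx0 : x0 ≠ 0) :
    ∃ (e : H) (κ : ℝ), q e e = 1 ∧ 0 < κ ∧ (∀ y, b e y = κ * q e y) ∧
      ∀ y, b y y ≤ κ * q y y := by
  have hc := h.hc
  set M : Set ℝ := {t | ∃ x, q x x = 1 ∧ b x x = t} with hM
  have hnorm : ∀ x, q x x = 1 → ‖x‖ ≤ 1 + 1 / c := fun x hx => by
    have h1 : ‖x‖ ^ 2 ≤ 1 / c := by rw [le_div_iff₀ hc]; linarith [h.qlo x]
    nlinarith [sq_nonneg (‖x‖ - 1), norm_nonneg x, one_div_pos.2 hc]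
  have hb : BddAbove M := ⟨|C| * (1 + 1 / c) ^ 2, by
    rintro _ ⟨x, hx, rfl⟩
    refine (h.bhi x).trans ((mul_le_mul_of_nonneg_right (le_abs_self C) (by positivity)).trans ?_)
    gcongr
    exact hnorm x hx⟩
  obtain ⟨y0, hy0, -⟩ := h.norm1 hx0
  have hne : M.Nonempty := ⟨_, y0, hy0, rfl⟩
  set κ := sSup M with hκ
  have hκ0 : 0 < κ := lt_of_lt_of_le (h.bpos y0 fun h0 => by simp [h0] at hy0)
    (le_csSup hb ⟨y0, hy0, rfl⟩)
  have hle : ∀ y, b y y ≤ κ * q y y := fun y => by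
    by_cases hy : y = 0
    · simp [hy]
    obtain ⟨z, hz, h1⟩ := h.norm1 hy
    rw [h1]
    exact mul_le_mul_of_nonneg_right (le_csSup hb ⟨z, hz, rfl⟩) (h.q0 y)
  let T : H →ₗ[ℝ] H →ₗ[ℝ] ℝ := κ • q - b
  have hT : ∀ x y, T x y = κ * q x y - b x y := fun x y => by simp [T]
  have hT0 : ∀ x, 0 ≤ T x x := fun x => by rw [hT]; linarith [hle x]
  have hTs : ∀ x y, T x y = T y x := fun x y => by rw [hT, hT, h.qs, h.bs]
  have hTc : Continuous fun x => T x x := by
    simp only [hT]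
    exact ((h.qc.comp (continuous_id.prodMk continuous_id)).const_mul κ).sub
      (h.bc.comp (continuous_id.prodMk continuous_id))
  obtain ⟨u, -, hu, hu'⟩ := exists_seq_tendsto_sSup hne hb
  choose x hx1 hx2 using hu'
  have hTx : Tendsto (fun n => T (x n) (x n)) atTop (𝓝 0) := by
    simp only [hT, hx1, hx2, mul_one]
    have := (tendsto_const_nhds (x := κ)).sub hu
    rwa [← hκ, sub_self] at this
  obtain ⟨n, A, hA⟩ := h.small (2 / κ)
  obtain ⟨σ0, hσ0⟩ := (A : H →ₗ[ℝ] (Fin n → ℝ)).rangeRestrict.exists_rightInverse_of_surjective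
    (LinearMap.range_rangeRestrict _)
  obtain ⟨σ, hσ⟩ := σ0.exists_extend
  have hAσ : ∀ z, A (σ (A z)) = A z := fun z => by
    have a1 := LinearMap.congr_fun hσ ⟨A z, z, rfl⟩
    have a2 := congrArg Subtype.val (LinearMap.congr_fun hσ0 ⟨A z, z, rfl⟩)
    simp only [LinearMap.comp_apply, Submodule.subtype_apply] at a1
    rw [a1]
    exact a2
  obtain ⟨a, -, φ, hφ, ha⟩ := tendsto_subseq_of_bounded
    (Metric.isBounded_closedBall (x := (0 : Fin n → ℝ)) (r := ‖A‖ * (1 + 1 / c)))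
    (x := fun k => A (x k)) fun k => by
      rw [mem_closedBall_zero_iff]
      exact (A.le_opNorm _).trans (mul_le_mul_of_nonneg_left (hnorm _ (hx1 k)) (norm_nonneg _))
  set w : ℕ → H := fun k => σ (A (x (φ k))) - σ a with hw
  have hw0 : Tendsto w atTop (𝓝 0) := by
    have := ((σ.continuous_of_finiteDimensional.tendsto a).comp ha).sub_const (σ a)
    rwa [sub_self] at this
  set y : ℕ → H := fun k => x (φ k) - w k with hy
  have hTy : Tendsto (fun k => T (y k) (y k)) atTop (𝓝 0) := by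
    have a1 : Tendsto (fun k => T (w k) (w k)) atTop (𝓝 0) := by
      simpa [Function.comp_def] using (hTc.tendsto 0).comp hw0
    have a2 := ((hTx.comp hφ.tendsto_atTop).const_mul 2).add (a1.const_mul 2)
    rw [mul_zero, add_zero] at a2
    exact squeeze_zero (fun k => hT0 _) (fun k => sub_le T hT0 _ _) a2
  have hcau : CauchySeq y := by
    rw [Metric.cauchySeq_iff]
    intro ε hε
    obtain ⟨N, hN⟩ := eventually_atTop.1
      (hTy.eventually (gt_mem_nhds (show 0 < κ * c * ε ^ 2 / 8 by positivity)))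
    refine ⟨N, fun k hk l hl => ?_⟩
    have a1 : A (y k - y l) = 0 := by simp [hy, hw, hAσ]
    have a2 := hA _ a1
    have a3 := sub_le T hT0 (y k) (y l)
    have a4 := h.qlo (y k - y l)
    rw [hT] at a3
    rw [div_mul_eq_mul_div, div_le_iff₀ hκ0] at a2
    have a5 := mul_le_mul_of_nonneg_left a4 hκ0.le
    have a6 : κ * c * ‖y k - y l‖ ^ 2 < κ * c * ε ^ 2 := by linarith [hN k hk, hN l hl]
    rw [dist_eq_norm]
    exact lt_of_pow_lt_pow_left₀ 2 hε.le (lt_of_mul_lt_mul_left a6 (by positivity))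
  obtain ⟨e, he⟩ := cauchySeq_tendsto_of_complete hcau
  have he2 : Tendsto (fun k => x (φ k)) atTop (𝓝 e) := by simpa [hy] using he.add hw0
  have he3 : q e e = 1 := tendsto_nhds_unique
    (((h.qc.comp (continuous_id.prodMk continuous_id)).tendsto e).comp he2)
    (by simp [Function.comp_def, hx1])
  have he4 : T e e = 0 := tendsto_nhds_unique ((hTc.tendsto e).comp he) hTy
  refine ⟨e, κ, he3, hκ0, fun z => ?_, hle⟩
  have a1 := cs T hTs hT0 e z
  rw [he4, zero_mul] at a1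
  have a2 : T e z = 0 := pow_eq_zero_iff (n := 2) (by norm_num) |>.1 (le_antisymm a1 (sq_nonneg _))
  rw [hT] at a2
  linarith

lemma exists_orth (q : H →ₗ[ℝ] H →ₗ[ℝ] ℝ) {k : ℕ} (e : Fin k → H) {F : Submodule ℝ H}
    (hF : Module.finrank ℝ F = k + 1) : ∃ x ∈ F, x ≠ 0 ∧ ∀ j, q (e j) x = 0 := by
  have : FiniteDimensional ℝ F := Module.finite_of_finrank_pos (by omega)
  obtain ⟨x, hx, hx0⟩ := (Submodule.ne_bot_iff _).1 (LinearMap.ker_ne_bot_of_finrank_lt
    (f := (LinearMap.pi fun j => q (e j)).comp F.subtype) (by simp [hF]))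
  exact ⟨x, x.2, by simpa using hx0, fun j => congrFun hx j⟩

lemma Hyp.step [CompleteSpace H] (h : Hyp q b c C)
    (hinf : ∀ k : ℕ, ∃ F : Submodule ℝ H, Module.finrank ℝ F = k + 1) (s : Finset H) :
    ∃ (e : H) (κ : ℝ), q e e = 1 ∧ 0 < κ ∧ (∀ f ∈ s, q f e = 0) ∧
      ∀ y, (∀ f ∈ s, q f y = 0) → b e y = κ * q e y ∧ b y y ≤ κ * q y y := by
  let W : Submodule ℝ H := ⨅ f ∈ s, LinearMap.ker (q f)
  have hW : ∀ y, y ∈ W ↔ ∀ f ∈ s, q f y = 0 := fun y => by simp [W]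
  have hcl : IsClosed (W : Set H) := by
    have : (W : Set H) = ⋂ f ∈ s, {y | q f y = 0} := by ext y; simp [hW]
    rw [this]
    exact isClosed_biInter fun f _ =>
      isClosed_eq (h.qc.comp (Continuous.prodMk_right f)) continuous_const
  have := hcl.completeSpace_coe
  obtain ⟨F, hF⟩ := hinf s.card
  obtain ⟨x, -, hx0, hx⟩ := exists_orth q (fun j => (s.equivFin.symm j : H)) hF
  obtain ⟨e, κ, h1, h2, h3, h4⟩ := (h.sub W).exists_max
    (x0 := ⟨x, (hW x).2 fun f hf => by simpa using hx (s.equivFin ⟨f, hf⟩)⟩) (by simpa using hx0)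
  exact ⟨e, κ, h1, h2, (hW e).1 e.2, fun y hy => ⟨h3 ⟨y, (hW y).2 hy⟩, h4 ⟨y, (hW y).2 hy⟩⟩⟩

lemma Hyp.seq [CompleteSpace H] (h : Hyp q b c C)
    (hinf : ∀ k : ℕ, ∃ F : Submodule ℝ H, Module.finrank ℝ F = k + 1) :
    ∃ (e : ℕ → H) (κ : ℕ → ℝ), (∀ k, 0 < κ k) ∧ (∀ j k, q (e j) (e k) = if j = k then 1 else 0) ∧
      (∀ k y, b (e k) y = κ k * q (e k) y) ∧
      ∀ k y, (∀ j < k, q (e j) y = 0) → b y y ≤ κ k * q y y := by
  classical
  choose nx κ h1 h2 h3 h4 using h.step hinf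
  let S : ℕ → Finset H := fun k => Nat.rec ∅ (fun _ s => insert (nx s) s) k
  have hS : ∀ k f, f ∈ S k ↔ ∃ j < k, f = nx (S j) := fun k => by
    induction k with
    | zero => simp [S]
    | succ k ih =>
      intro f
      rw [show S (k + 1) = insert (nx (S k)) (S k) from rfl, Finset.mem_insert, ih]
      constructor
      · rintro (rfl | ⟨j, hj, rfl⟩)
        exacts [⟨k, by omega, rfl⟩, ⟨j, by omega, rfl⟩]
      · rintro ⟨j, hj, rfl⟩
        rcases (Nat.lt_succ_iff_lt_or_eq.1 hj) with hj | rfl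
        exacts [Or.inr ⟨j, hj, rfl⟩, Or.inl rfl]
  set e : ℕ → H := fun k => nx (S k) with he
  have h5 : ∀ k y, (∀ j < k, q (e j) y = 0) → ∀ f ∈ S k, q f y = 0 := fun k y hy f hf => by
    obtain ⟨j, hj, rfl⟩ := (hS k f).1 hf
    exact hy j hj
  have h6 : ∀ j k, j < k → q (e j) (e k) = 0 := fun j k hj => h3 _ _ ((hS k _).2 ⟨j, hj, rfl⟩)
  have h7 : ∀ j k, q (e j) (e k) = if j = k then 1 else 0 := fun j k => by
    rcases lt_trichotomy j k with hj | rfl | hj
    · rw [h6 j k hj, if_neg hj.ne]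
    · rw [if_pos rfl]; exact h1 _
    · rw [h.qs, h6 k j hj, if_neg hj.ne']
  refine ⟨e, fun k => κ (S k), fun k => h2 _, h7, fun k y => ?_,
    fun k y hy => (h4 _ y (h5 k y hy)).2⟩
  have a1 := (h4 (S k) (y - ∑ i ∈ Finset.range k, q (e i) y • e i) (h5 k _ fun j hj => by
    simp [h7, hj])).1
  have a2 : ∀ i ∈ Finset.range k, b (e k) (e i) = 0 ∧ q (e k) (e i) = 0 := fun i hi => by
    have hi := Finset.mem_range.1 hi
    have a3 := (h4 (S i) (e k) (h5 i _ fun j hj => h6 j k (by omega))).1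
    rw [h.bs, h.qs, h6 i k hi]
    exact ⟨a3.trans (mul_eq_zero_of_right _ (h6 i k hi)), rfl⟩
  simp only [map_sub, map_sum, map_smul, smul_eq_mul] at a1
  rw [Finset.sum_eq_zero fun i hi => mul_eq_zero_of_right _ (a2 i hi).1,
    Finset.sum_eq_zero fun i hi => mul_eq_zero_of_right _ (a2 i hi).2, sub_zero, sub_zero] at a1
  exact a1

section Final

variable {e : ℕ → H} {κ : ℕ → ℝ}

lemma form_sum (T : H →ₗ[ℝ] H →ₗ[ℝ] ℝ) (hT : ∀ j k, T (e j) (e k) = if j = k then κ j else 0)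
    (a : ℕ → ℝ) (t : Finset ℕ) :
    T (∑ j ∈ t, a j • e j) (∑ j ∈ t, a j • e j) = ∑ j ∈ t, κ j * a j ^ 2 := by
  simp only [map_sum, map_smul, LinearMap.sum_apply, LinearMap.smul_apply, smul_eq_mul, hT,
    mul_ite, mul_zero, Finset.sum_ite_eq']
  exact Finset.sum_congr rfl fun j hj => by rw [if_pos hj]; ring

lemma form_rem (T : H →ₗ[ℝ] H →ₗ[ℝ] ℝ) (hs : ∀ x y, T x y = T y x)
    (hT : ∀ j k, T (e j) (e k) = if j = k then κ j else 0) {a : ℕ → ℝ} {φ : H}
    (ha : ∀ j, T (e j) φ = κ j * a j) (t : Finset ℕ) :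
    T (φ - ∑ j ∈ t, a j • e j) (φ - ∑ j ∈ t, a j • e j) = T φ φ - ∑ j ∈ t, κ j * a j ^ 2 := by
  have h1 : T (∑ j ∈ t, a j • e j) φ = ∑ j ∈ t, κ j * a j ^ 2 := by
    simp only [map_sum, map_smul, LinearMap.sum_apply, LinearMap.smul_apply, smul_eq_mul, ha]
    exact Finset.sum_congr rfl fun j _ => by ring
  have h2 := form_sum T hT a t
  generalize ∑ j ∈ t, a j • e j = s at h1 h2 ⊢
  simp only [map_sub, LinearMap.sub_apply]
  rw [hs φ s, h1, h2]
  ring

lemma span_le (hq : ∀ j k, q (e j) (e k) = if j = k then 1 else 0)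
    (hb : ∀ j k, b (e j) (e k) = if j = k then κ j else 0) (hκ : Antitone κ) (k : ℕ) :
    ∃ F : Submodule ℝ H, Module.finrank ℝ F = k + 1 ∧ ∀ x ∈ F, κ k * q x x ≤ b x x := by
  have hli : LinearIndependent ℝ fun j : Fin (k + 1) => e j := by
    rw [Fintype.linearIndependent_iff]
    intro g hg i
    have := congrArg (q (e i)) hg
    simpa [hq, Fin.val_inj] using this
  refine ⟨_, by rw [finrank_span_eq_card hli, Fintype.card_fin], fun x hx => ?_⟩
  obtain ⟨g, rfl⟩ := (Submodule.mem_span_range_iff_exists_fun ℝ).1 hx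
  have h1 : ∑ j, g j • e j = ∑ j ∈ Finset.range (k + 1),
      (if h : j < k + 1 then g ⟨j, h⟩ else 0) • e j := by
    rw [Finset.sum_range]
    exact Finset.sum_congr rfl fun j _ => by rw [dif_pos j.2]
  rw [h1, form_sum (κ := fun _ => 1) q hq, form_sum b hb, Finset.mul_sum]
  refine Finset.sum_le_sum fun j hj => ?_
  rw [one_mul]
  exact mul_le_mul_of_nonneg_right (hκ (Nat.lt_succ_iff.1 (Finset.mem_range.1 hj))) (sq_nonneg _)

end Final

end Spec

open Spec in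
theorem spec_holds : SpecStmt := by
  intro H _ _ _ q b c C hc qs bs qlo qhi bpos bhi hinf fin
  have h : Hyp q b c C := ⟨hc, qs, bs, qlo, qhi, bpos, bhi, fin⟩
  obtain ⟨e, κ, hκ, hq, hbq, hmax⟩ := h.seq hinf
  have hb : ∀ j k, b (e j) (e k) = if j = k then κ j else 0 := fun j k => by simp [hbq, hq]
  have hanti : Antitone κ := antitone_nat_of_succ_le fun k => by
    have := hmax k (e (k + 1)) fun j hj => by rw [hq, if_neg (by omega)]
    simpa [hb, hq] using this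
  have hκ0 : Tendsto κ atTop (𝓝 0) := by
    rw [Metric.tendsto_atTop]
    intro ε hε
    obtain ⟨N, hN⟩ := fin (1 / ε)
    refine ⟨N, fun k hk => ?_⟩
    rw [Real.dist_eq, sub_zero, abs_of_pos (hκ k)]
    refine (hanti hk).trans_lt (not_le.1 fun h1 => ?_)
    obtain ⟨F, hF, h2⟩ := span_le hq hb hanti N
    have := hN F fun x hx => by
      rw [one_div_mul_eq_div, le_div_iff₀' hε]
      exact (mul_le_mul_of_nonneg_right h1 (h.q0 x)).trans (h2 x hx)
    omega
  have hrq : ∀ φ t, q (φ - ∑ j ∈ t, q (e j) φ • e j) (φ - ∑ j ∈ t, q (e j) φ • e j) =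
      q φ φ - ∑ j ∈ t, q (e j) φ ^ 2 := fun φ t => by
    simpa using form_rem (κ := fun _ => 1) q qs hq (a := fun j => q (e j) φ) (φ := φ)
      (fun j => by simp) t
  have hrb : ∀ φ t, b (φ - ∑ j ∈ t, q (e j) φ • e j) (φ - ∑ j ∈ t, q (e j) φ • e j) =
      b φ φ - ∑ j ∈ t, κ j * q (e j) φ ^ 2 := fun φ t => form_rem b bs hb (fun j => hbq j φ) t
  have hbz : ∀ φ, Tendsto (fun n => b (φ - ∑ j ∈ Finset.range n, q (e j) φ • e j)
      (φ - ∑ j ∈ Finset.range n, q (e j) φ • e j)) atTop (𝓝 0) := fun φ => by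
    have h1 := hκ0.mul_const (q φ φ)
    rw [zero_mul] at h1
    refine squeeze_zero (fun n => h.b0 _) (fun n => (hmax n _ fun j hj => by simp [hq, hj]).trans
      (mul_le_mul_of_nonneg_left ?_ (hκ n).le)) h1
    rw [hrq]
    exact sub_le_self _ (Finset.sum_nonneg fun j _ => sq_nonneg _)
  have hqz : ∀ φ, Tendsto (fun n => q (φ - ∑ j ∈ Finset.range n, q (e j) φ • e j)
      (φ - ∑ j ∈ Finset.range n, q (e j) φ • e j)) atTop (𝓝 0) := fun φ => by
    have h1 : Summable fun j => q (e j) φ ^ 2 :=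
      summable_of_sum_le (c := q φ φ) (fun j => sq_nonneg _) fun t => by
        have := h.q0 (φ - ∑ j ∈ t, q (e j) φ • e j)
        rw [hrq] at this
        linarith
    have h2 : Summable fun j => q (e j) φ • e j := by
      rw [summable_iff_vanishing_norm]
      intro ε hε
      obtain ⟨s, hs⟩ := summable_iff_vanishing_norm.1 h1 (c * ε ^ 2) (by positivity)
      refine ⟨s, fun t ht => ?_⟩
      have a1 := qlo (∑ j ∈ t, q (e j) φ • e j)
      rw [form_sum (κ := fun _ => 1) q hq] at a1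
      simp only [one_mul] at a1
      exact lt_of_pow_lt_pow_left₀ 2 hε.le (lt_of_mul_lt_mul_left
        (a1.trans_lt ((le_abs_self _).trans_lt (hs t ht))) hc.le)
    have h3 := h2.hasSum.tendsto_sum_nat.const_sub φ
    generalize φ - ∑' j, q (e j) φ • e j = r at h3
    have h4 : b r r = 0 := tendsto_nhds_unique
      (((h.bc.comp (continuous_id.prodMk continuous_id)).tendsto r).comp h3) (hbz φ)
    have h5 : r = 0 := by_contra fun h5 => (bpos r h5).ne' h4
    have h6 := ((h.qc.comp (continuous_id.prodMk continuous_id)).tendsto r).comp h3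
    simpa [h5, Function.comp_def, -map_sub, -map_sum] using h6
  have hs : ∀ k, √(κ k)⁻¹ * √(κ k)⁻¹ = (κ k)⁻¹ := fun k =>
    Real.mul_self_sqrt (inv_pos.2 (hκ k)).le
  have hv : ∀ φ k, b φ (√(κ k)⁻¹ • e k) ^ 2 = κ k * q (e k) φ ^ 2 := fun φ k => by
    rw [map_smul, smul_eq_mul, bs, hbq, mul_pow, sq √_, hs]
    have := (hκ k).ne'
    field_simp
  refine ⟨fun k => √(κ k)⁻¹ • e k, fun k => (κ k)⁻¹, fun k => inv_pos.2 (hκ k), fun j φ => ?_,
    fun j k => ?_, fun φ => ?_, fun φ => ?_, fun k => ⟨?_, ?_⟩⟩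
  · have := (hκ j).ne'
    simp only [map_smul, LinearMap.smul_apply, smul_eq_mul, hbq]
    field_simp
  · simp only [map_smul, LinearMap.smul_apply, smul_eq_mul, hb]
    split_ifs with hjk
    · subst hjk
      rw [← mul_assoc, hs, inv_mul_cancel₀ (hκ j).ne']
    · simp
  · simp only [hv]
    rw [hasSum_iff_tendsto_nat_of_nonneg fun k => mul_nonneg (hκ k).le (sq_nonneg _)]
    simpa [hrb, -map_sub, -map_sum] using (hbz φ).const_sub (b φ φ)
  · simp only [hv, inv_mul_cancel_left₀ (hκ _).ne']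
    rw [hasSum_iff_tendsto_nat_of_nonneg fun k => sq_nonneg _]
    simpa [hrq, -map_sub, -map_sum] using (hqz φ).const_sub (q φ φ)
  · obtain ⟨F, hF, h2⟩ := span_le hq hb hanti k
    exact ⟨F, hF, fun x hx => (le_inv_mul_iff₀ (hκ k)).2 (h2 x hx)⟩
  · rintro L ⟨F, hF, h1⟩
    obtain ⟨x, hx, hx0, h2⟩ := exists_orth q (fun j : Fin k => e j) hF
    have h3 := hmax k x fun j hj => h2 ⟨j, hj⟩
    refine le_of_mul_le_mul_right ?_ (bpos x hx0)
    exact ((inv_mul_le_iff₀ (hκ k)).2 h3).trans (h1 x hx)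

end Pool.Agent.Lib.MP_465ce1_mp
end

-- part Pool.Agent.Lib.MP_465ce1_mp.ProfEx
section

/-!
Existence of the test profile.
-/

open MeasureTheory Filter Topology Set

namespace Pool.Agent.Lib.MP_465ce1_mp

namespace ProfEx

/-- Exponential decay on `[c, ∞)`. -/
def Dec (c : ℝ) (f : ℝ → ℝ) : Prop :=
  ∃ s C : ℝ, 0 < s ∧ 0 ≤ C ∧ ∀ y, c ≤ y → |f y| ≤ C * Real.exp (-(s * y))

lemma Dec.add {c : ℝ} (hc : 0 < c) {f g : ℝ → ℝ} (hf : Dec c f) (hg : Dec c g) :
    Dec c (fun y => f y + g y) := by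
  obtain ⟨s, C, hs, hC, h⟩ := hf
  obtain ⟨s', C', hs', hC', h'⟩ := hg
  refine ⟨min s s', C + C', lt_min hs hs', by positivity, fun y hy => ?_⟩
  have hy0 : 0 ≤ y := by linarith
  have e1 : Real.exp (-(s * y)) ≤ Real.exp (-(min s s' * y)) :=
    Real.exp_le_exp.2 (by nlinarith [min_le_left s s'])
  have e2 : Real.exp (-(s' * y)) ≤ Real.exp (-(min s s' * y)) :=
    Real.exp_le_exp.2 (by nlinarith [min_le_right s s'])
  have := abs_add_le (f y) (g y)
  have h1 := h y hy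
  have h2 := h' y hy
  nlinarith [mul_le_mul_of_nonneg_left e1 hC, mul_le_mul_of_nonneg_left e2 hC']

lemma Dec.const_mul {c : ℝ} (a : ℝ) {f : ℝ → ℝ} (hf : Dec c f) :
    Dec c (fun y => a * f y) := by
  obtain ⟨s, C, hs, hC, h⟩ := hf
  refine ⟨s, |a| * C, hs, by positivity, fun y hy => ?_⟩
  rw [abs_mul, mul_assoc]
  exact mul_le_mul_of_nonneg_left (h y hy) (abs_nonneg a)

lemma Dec.congr {c : ℝ} {f g : ℝ → ℝ} (hf : Dec c f) (h : ∀ y, c ≤ y → f y = g y) :
    Dec c g := by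
  obtain ⟨s, C, hs, hC, h1⟩ := hf
  exact ⟨s, C, hs, hC, fun y hy => h y hy ▸ h1 y hy⟩

lemma Dec.sub {c : ℝ} (hc : 0 < c) {f g : ℝ → ℝ} (hf : Dec c f) (hg : Dec c g) :
    Dec c (fun y => f y - g y) :=
  (hf.add hc (hg.const_mul (-1))).congr fun y _ => by ring

lemma Dec.id_mul {c : ℝ} (hc : 0 < c) {f : ℝ → ℝ} (hf : Dec c f) :
    Dec c (fun y => y * f y) := by
  obtain ⟨s, C, hs, hC, h⟩ := hf
  refine ⟨s / 2, 2 / s * C, by positivity, by positivity, fun y hy => ?_⟩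
  have hy0 : 0 ≤ y := by linarith
  have e1 : s / 2 * y ≤ Real.exp (s / 2 * y) := by
    linarith [Real.add_one_le_exp (s / 2 * y)]
  have e2 : y ≤ 2 / s * Real.exp (s / 2 * y) := by
    have : y = 2 / s * (s / 2 * y) := by field_simp
    rw [this]
    have h3 : 2 / s * (s / 2 * y) ≤ 2 / s * Real.exp (s / 2 * y) :=
      mul_le_mul_of_nonneg_left e1 (by positivity)
    rw [← this] at h3 ⊢
    exact h3
  have e3 : Real.exp (s / 2 * y) * Real.exp (-(s * y)) = Real.exp (-(s / 2 * y)) := by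
    rw [← Real.exp_add]; congr 1; ring
  rw [abs_mul, abs_of_nonneg hy0]
  calc y * |f y| ≤ (2 / s * Real.exp (s / 2 * y)) * (C * Real.exp (-(s * y))) :=
        mul_le_mul e2 (h y hy) (abs_nonneg _) (by positivity)
    _ = 2 / s * C * (Real.exp (s / 2 * y) * Real.exp (-(s * y))) := by ring
    _ = _ := by rw [e3]

lemma Dec.div_id {c : ℝ} (hc : 0 < c) {f : ℝ → ℝ} (hf : Dec c f) :
    Dec c (fun y => f y / y) := by
  obtain ⟨s, C, hs, hC, h⟩ := hf
  refine ⟨s, C / c, hs, by positivity, fun y hy => ?_⟩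
  have hy0 : 0 < y := by linarith
  rw [abs_div, abs_of_pos hy0]
  calc |f y| / y ≤ C * Real.exp (-(s * y)) / c :=
        div_le_div₀ (by positivity) (h y hy) hc hy
    _ = _ := by ring

lemma Dec.scale {c t : ℝ} (ht : 0 < t) {f : ℝ → ℝ} (hf : Dec (t * c) f) :
    Dec c (fun y => f (t * y)) := by
  obtain ⟨s, C, hs, hC, h⟩ := hf
  refine ⟨s * t, C, by positivity, hC, fun y hy => ?_⟩
  have := h (t * y) (mul_le_mul_of_nonneg_left hy ht.le)
  rwa [← mul_assoc] at this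

lemma Dec.tendsto {c : ℝ} {f : ℝ → ℝ} (hf : Dec c f) : Tendsto f atTop (𝓝 0) := by
  obtain ⟨s, C, hs, hC, h⟩ := hf
  have h1 : Tendsto (fun y : ℝ => C * Real.exp (-(s * y))) atTop (𝓝 0) := by
    have h2 : Tendsto (fun y : ℝ => Real.exp (-(s * y))) atTop (𝓝 0) :=
      Real.tendsto_exp_neg_atTop_nhds_zero.comp (tendsto_id.const_mul_atTop hs)
    simpa using h2.const_mul C
  refine squeeze_zero_norm' ?_ h1
  filter_upwards [eventually_ge_atTop c] with y hy
  exact h y hy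

lemma dec_exp (c : ℝ) : Dec c (fun y => Real.exp (-y)) :=
  ⟨1, 1, one_pos, zero_le_one, fun y _ => by simp [abs_of_pos (Real.exp_pos _)]⟩

lemma anti_of_deriv {c : ℝ} {f f' : ℝ → ℝ} (h : ∀ y, c ≤ y → HasDerivAt f (f' y) y)
    (h0 : ∀ y, c ≤ y → f' y ≤ 0) : AntitoneOn f (Ici c) := by
  refine antitoneOn_of_deriv_nonpos (convex_Ici c)
    (fun y hy => (h y hy).continuousAt.continuousWithinAt)
    (fun y hy => (h y (interior_subset hy)).differentiableAt.differentiableWithinAt) ?_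
  intro y hy
  have hy' : c ≤ y := interior_subset hy
  rw [(h y hy').deriv]
  exact h0 y hy'

lemma nonneg_of_anti {c : ℝ} {f : ℝ → ℝ} (h : AntitoneOn f (Ici c))
    (h0 : Tendsto f atTop (𝓝 0)) (y : ℝ) (hy : c ≤ y) : 0 ≤ f y := by
  refine le_of_tendsto h0 ?_
  filter_upwards [eventually_ge_atTop y] with z hz
  exact h hy (le_trans hy hz) hz

lemma tangent {c : ℝ} {f g : ℝ → ℝ} (h : ∀ y, c ≤ y → HasDerivAt f (-(g y)) y)
    (hg : AntitoneOn g (Ici c)) (x y : ℝ) (hx : c ≤ x) (hy : c ≤ y) :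
    f x - g x * (y - x) ≤ f y := by
  rcases lt_trichotomy x y with hlt | rfl | hlt
  · obtain ⟨z, hz, he⟩ := exists_hasDerivAt_eq_slope f (fun y => -(g y)) hlt
      (fun w hw => (h w (le_trans hx hw.1)).continuousAt.continuousWithinAt)
      (fun w hw => h w (le_trans hx hw.1.le))
    have h1 : g z ≤ g x := hg hx (le_trans hx hz.1.le) hz.1.le
    have h2 : 0 < y - x := sub_pos.2 hlt
    rw [eq_div_iff h2.ne'] at he
    nlinarith
  · simp
  · obtain ⟨z, hz, he⟩ := exists_hasDerivAt_eq_slope f (fun y => -(g y)) hlt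
      (fun w hw => (h w (le_trans hy hw.1)).continuousAt.continuousWithinAt)
      (fun w hw => h w (le_trans hy hw.1.le))
    have h1 : g x ≤ g z := hg (le_trans hy hz.1.le) hx hz.2.le
    have h2 : 0 < x - y := sub_pos.2 hlt
    rw [eq_div_iff h2.ne'] at he
    nlinarith

lemma hh_aux {c : ℝ} (hc : 0 < c) {Th chi kap : ℝ → ℝ}
    (h1 : ∀ y, c ≤ y → HasDerivAt Th (-(chi y / y ^ 2)) y)
    (h2 : ∀ y, c ≤ y → HasDerivAt chi (-(kap y / y ^ 2)) y)
    (h3 : AntitoneOn kap (Ici c)) (x y : ℝ) (hx : c ≤ x) (hxy : x ≤ y) :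
    Th x - Th y ≤ (y - x) * (chi x / x / (2 * y) + chi y / y / (2 * x)) := by
  have hmem : ∀ u ∈ Ioc (0 : ℝ) c⁻¹, c ≤ u⁻¹ := fun u hu => by
    have := inv_anti₀ hu.1 hu.2
    rwa [inv_inv] at this
  have key : ∀ {f g : ℝ → ℝ}, (∀ y, c ≤ y → HasDerivAt f (-(g y / y ^ 2)) y) →
      ∀ u ∈ Ioc (0 : ℝ) c⁻¹, HasDerivAt (fun u => f u⁻¹) (g u⁻¹) u := by
    intro f g h u hu
    have h4 := (h u⁻¹ (hmem u hu)).comp u (hasDerivAt_inv hu.1.ne')
    refine h4.congr_deriv ?_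
    have := hu.1.ne'
    field_simp
  have hconv : ConvexOn ℝ (Ioc (0 : ℝ) c⁻¹) (fun u => chi u⁻¹) := by
    refine MonotoneOn.convexOn_of_deriv (convex_Ioc _ _)
      (fun u hu => (key h2 u hu).continuousAt.continuousWithinAt)
      (fun u hu => (key h2 u (interior_subset hu)).differentiableAt.differentiableWithinAt) ?_
    intro u hu v hv huv
    have hu' := interior_subset hu
    have hv' := interior_subset hv
    rw [(key h2 u hu').deriv, (key h2 v hv').deriv]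
    exact h3 (hmem v hv') (hmem u hu') (inv_anti₀ hu'.1 huv)
  have hx0 : 0 < x := by linarith
  have hy0 : 0 < y := by linarith
  have h5 := trapezoid hconv (key h1) (a := y⁻¹) (b := x⁻¹)
    ⟨inv_pos.2 hy0, inv_anti₀ hc (le_trans hx hxy)⟩ ⟨inv_pos.2 hx0, inv_anti₀ hc hx⟩
    (inv_anti₀ hx0 hxy)
  simp only [inv_inv] at h5
  refine h5.trans (le_of_eq ?_)
  field_simp
  ring

lemma prof_of {c : ℝ} (hc : 0 < c) {F0 F1 F2 F3 F4 : ℝ → ℝ}
    (d0 : ∀ y, c ≤ y → HasDerivAt F0 (-(F1 y / y)) y)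
    (d1 : ∀ y, c ≤ y → HasDerivAt F1 (-(F2 y / y)) y)
    (d2 : ∀ y, c ≤ y → HasDerivAt F2 (-(F3 y / y)) y)
    (d3 : ∀ y, c ≤ y → HasDerivAt F3 (-(F4 y / y)) y)
    (h24 : ∀ y, c ≤ y → F2 y ≤ F4 y)
    (e0 : Dec c F0) (e1 : Dec c F1) (e2 : Dec c F2) (e3 : Dec c F3) :
    ∃ P : Prof c, P.Phi = F0 ∧ P.Th = fun y => F1 y / y := by
  have dk : ∀ y, c ≤ y → HasDerivAt (fun y => y * (F3 y + F2 y)) (F2 y - F4 y) y := by
    intro y hy
    have hy0 : y ≠ 0 := by linarith [hc] |> ne_of_gt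
    refine ((hasDerivAt_id y).mul ((d3 y hy).add (d2 y hy))).congr_deriv ?_
    simp only [id, Pi.add_apply]
    field_simp
    ring
  have ak : AntitoneOn (fun y => y * (F3 y + F2 y)) (Ici c) :=
    anti_of_deriv dk fun y hy => by linarith [h24 y hy]
  have nk := nonneg_of_anti ak ((e3.add hc e2).id_mul hc).tendsto
  have dc : ∀ y, c ≤ y →
      HasDerivAt (fun y => F2 y + F1 y) (-(y * (F3 y + F2 y) / y ^ 2)) y := by
    intro y hy
    have hy0 : y ≠ 0 := by linarith [hc] |> ne_of_gt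
    refine ((d2 y hy).add (d1 y hy)).congr_deriv ?_
    field_simp
    ring
  have ac : AntitoneOn (fun y => F2 y + F1 y) (Ici c) :=
    anti_of_deriv dc fun y hy => by
      have := nk y hy
      have h1 : 0 ≤ y * (F3 y + F2 y) / y ^ 2 := by positivity
      linarith
  have nc := nonneg_of_anti ac (e2.add hc e1).tendsto
  have dt : ∀ y, c ≤ y → HasDerivAt (fun y => F1 y / y) (-((F2 y + F1 y) / y ^ 2)) y := by
    intro y hy
    have hy0 : y ≠ 0 := by linarith [hc] |> ne_of_gt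
    refine ((d1 y hy).div (hasDerivAt_id y) hy0).congr_deriv ?_
    simp only [id]
    field_simp
    ring
  have at' : AntitoneOn (fun y => F1 y / y) (Ici c) :=
    anti_of_deriv dt fun y hy => by
      have := nc y hy
      have h1 : 0 ≤ (F2 y + F1 y) / y ^ 2 := by positivity
      linarith
  have nt := nonneg_of_anti at' (e1.div_id hc).tendsto
  have a0 : AntitoneOn F0 (Ici c) := anti_of_deriv d0 fun y hy => by linarith [nt y hy]
  have n0 := nonneg_of_anti a0 e0.tendsto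
  have np : ∀ y, c ≤ y → 0 ≤ (F2 y + F1 y) / y := fun y hy =>
    div_nonneg (nc y hy) (by linarith)
  have ap : AntitoneOn (fun y => (F2 y + F1 y) / y) (Ici c) := by
    intro x hx y hy hxy
    have hx' : c ≤ x := hx
    exact div_le_div₀ (nc x hx) (ac hx hy hxy) (by linarith) hxy
  have dr : ∀ y, c ≤ y → HasDerivAt (fun y => F1 y + F0 y) (-((F2 y + F1 y) / y)) y := by
    intro y hy
    refine ((d1 y hy).add (d0 y hy)).congr_deriv ?_
    ring
  refine ⟨⟨F0, fun y => F1 y / y, fun y => (F2 y + F1 y) / y, n0, nt, np, ?_,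
    tangent d0 at', ?_, ?_⟩, rfl, rfl⟩
  · intro x y hx hy
    rcases le_total x y with hxy | hxy
    · have h1 := hh_aux hc dt dc ak x y hx hxy
      have h2 : 0 ≤ y - x := sub_nonneg.2 hxy
      calc _ ≤ ((y - x) * ((F2 x + F1 x) / x / (2 * y) + (F2 y + F1 y) / y / (2 * x))) *
            (y - x) := mul_le_mul_of_nonneg_right h1 h2
        _ = _ := by ring
    · have h1 := hh_aux hc dt dc ak y x hy hxy
      have h2 : 0 ≤ x - y := sub_nonneg.2 hxy
      calc _ = (F1 y / y - F1 x / x) * (x - y) := by ring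
        _ ≤ ((x - y) * ((F2 y + F1 y) / y / (2 * x) + (F2 x + F1 x) / x / (2 * y))) *
            (x - y) := mul_le_mul_of_nonneg_right h1 h2
        _ = _ := by ring
  · intro x y hx hy
    have h1 := tangent dr ap x y hx hy
    have hx0 : x ≠ 0 := by linarith [hc] |> ne_of_gt
    have hy0 : y ≠ 0 := by linarith [hc] |> ne_of_gt
    rw [mul_div_cancel₀ _ hx0, mul_div_cancel₀ _ hy0]
    exact h1
  · have h1 := (e0.add hc (e1.div_id hc)).add hc ((e2.add hc e1).div_id hc)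
    obtain ⟨s, C, hs, _, h⟩ := h1.add hc (h1.id_mul hc)
    refine ⟨s, C, hs, fun x hx => le_trans ?_ (h x hx)⟩
    refine le_trans (le_of_eq ?_) (le_abs_self _)
    ring

/-- The upper incomplete gamma integral. -/
noncomputable def G (p y : ℝ) : ℝ := ∫ z in Ioi y, Real.exp (-z) * z ^ (p - 1)

lemma int_G {p : ℝ} (hp : 0 < p) {y : ℝ} (hy : 0 ≤ y) :
    IntegrableOn (fun z : ℝ => Real.exp (-z) * z ^ (p - 1)) (Ioi y) :=
  (Real.GammaIntegral_convergent hp).mono_set (Ioi_subset_Ioi hy)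

lemma G_deriv {p : ℝ} (hp : 0 < p) {y : ℝ} (hy : 0 < y) :
    HasDerivAt (G p) (-(Real.exp (-y) * y ^ (p - 1))) y := by
  have hcont : ContinuousOn (fun z : ℝ => Real.exp (-z) * z ^ (p - 1)) (Ioi 0) :=
    fun z hz => ((Real.continuous_exp.comp continuous_neg).continuousAt.mul
      (Real.continuousAt_rpow_const z _ (Or.inl (ne_of_gt hz)))).continuousWithinAt
  have h1 : HasDerivAt (fun u => ∫ z in y..u, Real.exp (-z) * z ^ (p - 1))
      (Real.exp (-y) * y ^ (p - 1)) y :=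
    intervalIntegral.integral_hasDerivAt_right (by simp)
      (hcont.stronglyMeasurableAtFilter isOpen_Ioi y hy)
      (hcont.continuousAt (isOpen_Ioi.mem_nhds hy))
  have h2 : (G p) =ᶠ[𝓝 y] fun u => G p y - ∫ z in y..u, Real.exp (-z) * z ^ (p - 1) := by
    filter_upwards [isOpen_Ioi.mem_nhds hy] with u hu
    have h3 := intervalIntegral.integral_Ioi_sub_Ioi' (int_G hp hy.le) (int_G hp (le_of_lt hu))
    unfold G
    linarith
  exact (h1.const_sub (G p y)).congr_of_eventuallyEq h2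

lemma dec_G {p : ℝ} (hp : 0 < p) {c : ℝ} (hc : 0 < c) : Dec c (G p) := by
  have hI : IntegrableOn (fun z : ℝ => z ^ (p - 1) * Real.exp (-(1 / 2) * z)) (Ioi 0) := by
    have := integrableOn_rpow_mul_exp_neg_mul_rpow (p := 1) (s := p - 1) (b := 1 / 2)
      (by linarith) one_pos (by norm_num)
    simpa using this
  have hnn : ∀ z ∈ Ioi (0 : ℝ), 0 ≤ z ^ (p - 1) * Real.exp (-(1 / 2) * z) := fun z hz =>
    mul_nonneg (Real.rpow_nonneg (le_of_lt hz) _) (Real.exp_pos _).le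
  refine ⟨1 / 2, ∫ z in Ioi (0 : ℝ), z ^ (p - 1) * Real.exp (-(1 / 2) * z), by norm_num,
    setIntegral_nonneg measurableSet_Ioi hnn, fun y hy => ?_⟩
  have hy0 : 0 ≤ y := by linarith
  have hsub : Ioi y ⊆ Ioi (0 : ℝ) := Ioi_subset_Ioi hy0
  have h0 : 0 ≤ G p y := setIntegral_nonneg measurableSet_Ioi fun z hz =>
    mul_nonneg (Real.exp_pos _).le (Real.rpow_nonneg (le_of_lt (hsub hz)) _)
  rw [abs_of_nonneg h0]
  calc G p y ≤ ∫ z in Ioi y,
        z ^ (p - 1) * Real.exp (-(1 / 2) * z) * Real.exp (-(1 / 2 * y)) := by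
        refine setIntegral_mono_on (int_G hp hy0) ((hI.mono_set hsub).mul_const _)
          measurableSet_Ioi fun z hz => ?_
        have hz' : y < z := hz
        rw [mul_assoc, ← Real.exp_add, mul_comm]
        exact mul_le_mul_of_nonneg_left (Real.exp_le_exp.2 (by linarith))
          (Real.rpow_nonneg (by linarith) _)
    _ = (∫ z in Ioi y, z ^ (p - 1) * Real.exp (-(1 / 2) * z)) * Real.exp (-(1 / 2 * y)) :=
        integral_mul_const _ _
    _ ≤ _ := by
        refine mul_le_mul_of_nonneg_right ?_ (Real.exp_pos _).le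
        refine setIntegral_mono_set hI ?_ hsub.eventuallyLE
        exact (ae_restrict_iff' measurableSet_Ioi).2 (Eventually.of_forall hnn)

/-- The basic profile. -/
noncomputable def A0 (p y : ℝ) : ℝ := y ^ (-p) * G p y

lemma A0_deriv {p : ℝ} (hp : 0 < p) {y : ℝ} (hy : 0 < y) :
    HasDerivAt (A0 p) (-((p * A0 p y + Real.exp (-y)) / y)) y := by
  have h1 := (Real.hasDerivAt_rpow_const (x := y) (p := -p) (Or.inl hy.ne')).mul (G_deriv hp hy)
  refine h1.congr_deriv ?_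
  have e1 : y ^ (-p - 1) = y ^ (-p) / y := Real.rpow_sub_one hy.ne' _
  have e2 : y ^ (-p) * y ^ (p - 1) = 1 / y := by
    rw [← Real.rpow_add hy, show -p + (p - 1) = -1 by ring, Real.rpow_neg_one, one_div]
  unfold A0
  rw [e1]
  have e3 : y ^ (-p) * -(Real.exp (-y) * y ^ (p - 1)) = -(Real.exp (-y) * (1 / y)) := by
    rw [← e2]; ring
  rw [e3]
  field_simp
  ring

lemma dec_A0 {p : ℝ} (hp : 0 < p) {c : ℝ} (hc : 0 < c) : Dec c (A0 p) := by
  obtain ⟨s, C, hs, hC, h⟩ := dec_G hp hc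
  refine ⟨s, c ^ (-p) * C, hs, by positivity, fun y hy => ?_⟩
  have hy0 : 0 < y := by linarith
  unfold A0
  rw [abs_mul, abs_of_pos (Real.rpow_pos_of_pos hy0 _), mul_assoc]
  exact mul_le_mul (Real.rpow_le_rpow_of_nonpos hc hy (by linarith)) (h y hy) (abs_nonneg _)
    (by positivity)

/-- The iterates of the basic profile under `-y d/dy` have this shape. -/
noncomputable def B (p a b0 b1 b2 b3 y : ℝ) : ℝ :=
  a * A0 p y + (b0 + b1 * y + b2 * y ^ 2 + b3 * y ^ 3) * Real.exp (-y)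

lemma B_deriv {p : ℝ} (hp : 0 < p) (a b0 b1 b2 : ℝ) {y : ℝ} (hy : 0 < y) :
    HasDerivAt (B p a b0 b1 b2 0)
      (-(B p (a * p) a (b0 - b1) (b1 - 2 * b2) b2 y / y)) y := by
  have hE : HasDerivAt (fun y : ℝ => Real.exp (-y)) (-Real.exp (-y)) y := by
    simpa using (hasDerivAt_neg y).exp
  have hP : HasDerivAt (fun y : ℝ => b0 + b1 * y + b2 * y ^ 2 + 0 * y ^ 3)
      (b1 + b2 * (2 * y)) y := by
    have h1 := ((((hasDerivAt_id y).const_mul b1).const_add b0).add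
      ((hasDerivAt_pow 2 y).const_mul b2)).add ((hasDerivAt_pow 3 y).const_mul 0)
    refine h1.congr_deriv ?_
    simp
  have h1 := ((A0_deriv hp hy).const_mul a).add (hP.mul hE)
  refine h1.congr_deriv ?_
  unfold B
  have := hy.ne'
  field_simp
  ring

lemma dec_B {p : ℝ} (hp : 0 < p) (a b0 b1 b2 b3 : ℝ) {c : ℝ} (hc : 0 < c) :
    Dec c (B p a b0 b1 b2 b3) := by
  have e0 := dec_exp c
  have e1 := e0.id_mul hc
  have e2 := e1.id_mul hc
  have e3 := e2.id_mul hc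
  refine (((dec_A0 hp hc).const_mul a).add hc ((((e0.const_mul b0).add hc
    (e1.const_mul b1)).add hc (e2.const_mul b2)).add hc (e3.const_mul b3))).congr ?_
  intro y _
  unfold B
  ring

lemma om_eq {p : ℝ} (hp : 0 < p) {a : ℝ} (ha : 0 < a) :
    om p a = (p ^ 4 - p ^ 2) * G p a +
      a ^ p * ((p ^ 3 - p + (p ^ 2 - p) * a + (p - 3) * a ^ 2 + a ^ 3) * Real.exp (-a)) := by
  set W : ℝ → ℝ := fun y => -((p ^ 4 - p ^ 2) * G p y +
      y ^ p * ((p ^ 3 - p + (p ^ 2 - p) * y + (p - 3) * y ^ 2 + y ^ 3) * Real.exp (-y)))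
    with hW
  have hd : ∀ y, 0 < y →
      HasDerivAt W (y ^ (p + 1) * (y ^ 2 - 6 * y + 6) * Real.exp (-y)) y := by
    intro y hy
    have hE : HasDerivAt (fun y : ℝ => Real.exp (-y)) (-Real.exp (-y)) y := by
      simpa using (hasDerivAt_neg y).exp
    have hP : HasDerivAt (fun y : ℝ => p ^ 3 - p + (p ^ 2 - p) * y + (p - 3) * y ^ 2 + y ^ 3)
        ((p ^ 2 - p) + (p - 3) * (2 * y) + 3 * y ^ 2) y := by
      have h1 := ((((hasDerivAt_id y).const_mul (p ^ 2 - p)).const_add (p ^ 3 - p)).add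
        ((hasDerivAt_pow 2 y).const_mul (p - 3))).add (hasDerivAt_pow 3 y)
      refine h1.congr_deriv ?_
      simp
    have h1 := (((G_deriv hp hy).const_mul (p ^ 4 - p ^ 2)).add
      ((Real.hasDerivAt_rpow_const (x := y) (p := p) (Or.inl hy.ne')).mul (hP.mul hE))).neg
    refine h1.congr_deriv ?_
    have e1 : y ^ p = y ^ (p - 1) * y := by
      rw [← Real.rpow_add_one hy.ne']; congr 1; ring
    have e2 : y ^ (p + 1) = y ^ (p - 1) * y * y := by
      rw [Real.rpow_add_one hy.ne', e1]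
    simp only [Pi.mul_apply]
    rw [e2, e1]
    ring
  have hint : IntegrableOn
      (fun y : ℝ => y ^ (p + 1) * (y ^ 2 - 6 * y + 6) * Real.exp (-y)) (Ioi a) := by
    have i1 := int_G (p := p + 4) (by linarith) ha.le
    have i2 := int_G (p := p + 3) (by linarith) ha.le
    have i3 := int_G (p := p + 2) (by linarith) ha.le
    refine ((i1.sub (i2.const_mul 6)).add (i3.const_mul 6)).congr_fun ?_ measurableSet_Ioi
    intro y hy
    have hy0 : y ≠ 0 := ne_of_gt (lt_trans ha hy)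
    have e3 : y ^ (p + 2 - 1) = y ^ (p + 1) := by congr 1; ring
    have e2 : y ^ (p + 3 - 1) = y ^ (p + 1) * y := by
      rw [← Real.rpow_add_one hy0]; congr 1; ring
    have e1 : y ^ (p + 4 - 1) = y ^ (p + 1) * y * y := by
      rw [← Real.rpow_add_one hy0, ← Real.rpow_add_one hy0]; congr 1; ring
    simp only [Pi.add_apply, Pi.sub_apply]
    rw [e1, e2, e3]
    ring
  have hlim : Tendsto W atTop (𝓝 0) := by
    have t0 := (dec_G hp one_pos).tendsto
    have t : ∀ q : ℝ, Tendsto (fun y : ℝ => y ^ q * Real.exp (-1 * y)) atTop (𝓝 0) :=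
      fun q => tendsto_rpow_mul_exp_neg_mul_atTop_nhds_zero q 1 one_pos
    have h1 := ((t0.const_mul (p ^ 4 - p ^ 2)).add (((((t p).const_mul (p ^ 3 - p)).add
      ((t (p + 1)).const_mul (p ^ 2 - p))).add ((t (p + 1 + 1)).const_mul (p - 3))).add
      (t (p + 1 + 1 + 1)))).neg
    simp only [mul_zero, add_zero, neg_zero] at h1
    refine h1.congr' ?_
    filter_upwards [eventually_gt_atTop (0 : ℝ)] with y hy
    simp only [hW, Real.rpow_add_one hy.ne', neg_mul, one_mul]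
    ring
  have h := integral_Ioi_of_hasDerivAt_of_tendsto (hd a ha).continuousAt.continuousWithinAt
    (fun y hy => hd y (lt_trans ha hy)) hint hlim
  unfold om
  rw [h]
  simp [hW]

lemma B_diff {p : ℝ} (hp : 0 < p) {y : ℝ} (hy : 0 < y) :
    B p (p ^ 4) (p ^ 3) (p ^ 2 - p + 1) (p - 3) 1 y - B p (p ^ 2) p 1 0 0 y =
      y ^ (-p) * om p y := by
  rw [om_eq hp hy]
  have e : y ^ (-p) * y ^ p = 1 := by
    rw [← Real.rpow_add hy]; simp
  unfold B A0
  linear_combination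
    (-((p ^ 3 - p + (p ^ 2 - p) * y + (p - 3) * y ^ 2 + y ^ 3) * Real.exp (-y))) * e

lemma scale_deriv {f g : ℝ → ℝ} (h : ∀ y, 0 < y → HasDerivAt f (-(g y / y)) y)
    {t1 t2 : ℝ} (h1 : 0 < t1) (h2 : 0 < t2) (a b : ℝ) {x : ℝ} (hx : 0 < x) :
    HasDerivAt (fun x => a * f (t1 * x) - b * f (t2 * x))
      (-((a * g (t1 * x) - b * g (t2 * x)) / x)) x := by
  have k1 := (h (t1 * x) (by positivity)).comp x ((hasDerivAt_id x).const_mul t1)
  have k2 := (h (t2 * x) (by positivity)).comp x ((hasDerivAt_id x).const_mul t2)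
  refine ((k1.const_mul a).sub (k2.const_mul b)).congr_deriv ?_
  have := hx.ne'
  have := h1.ne'
  have := h2.ne'
  field_simp
  ring

lemma scale_dec {f : ℝ → ℝ} (h : ∀ c, 0 < c → Dec c f) {c t1 t2 : ℝ} (hc : 0 < c)
    (h1 : 0 < t1) (h2 : 0 < t2) (a b : ℝ) :
    Dec c (fun x => a * f (t1 * x) - b * f (t2 * x)) :=
  (((h _ (by positivity)).scale h1).const_mul a).sub hc
    (((h _ (by positivity)).scale h2).const_mul b)

end ProfEx

open ProfEx in
theorem prof_holds : ProfStmt := by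
  intro p c t1 t2 θ hp hc h1 h2 hom
  have d0 : ∀ y, 0 < y → HasDerivAt (B p 1 0 0 0 0) (-(B p p 1 0 0 0 y / y)) y := by
    intro y hy
    simpa using B_deriv hp 1 0 0 0 hy
  have d1 : ∀ y, 0 < y → HasDerivAt (B p p 1 0 0 0) (-(B p (p ^ 2) p 1 0 0 y / y)) y := by
    intro y hy
    simpa [sq] using B_deriv hp p 1 0 0 hy
  have d2 : ∀ y, 0 < y →
      HasDerivAt (B p (p ^ 2) p 1 0 0) (-(B p (p ^ 3) (p ^ 2) (p - 1) 1 0 y / y)) y := by
    intro y hy
    have h := B_deriv hp (p ^ 2) p 1 0 hy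
    rw [show p ^ 2 * p = p ^ 3 by ring, show (1 : ℝ) - 2 * 0 = 1 by ring] at h
    exact h
  have d3 : ∀ y, 0 < y → HasDerivAt (B p (p ^ 3) (p ^ 2) (p - 1) 1 0)
      (-(B p (p ^ 4) (p ^ 3) (p ^ 2 - p + 1) (p - 3) 1 y / y)) y := by
    intro y hy
    have h := B_deriv hp (p ^ 3) (p ^ 2) (p - 1) 1 hy
    rw [show p ^ 3 * p = p ^ 4 by ring, show p ^ 2 - (p - 1) = p ^ 2 - p + 1 by ring,
      show p - 1 - 2 * 1 = p - 3 by ring] at h
    exact h
  obtain ⟨P, hP0, hP1⟩ := prof_of hc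
    (fun y hy => scale_deriv d0 h1 h2 (t1 ^ p) (θ * t2 ^ p) (lt_of_lt_of_le hc hy))
    (fun y hy => scale_deriv d1 h1 h2 (t1 ^ p) (θ * t2 ^ p) (lt_of_lt_of_le hc hy))
    (fun y hy => scale_deriv d2 h1 h2 (t1 ^ p) (θ * t2 ^ p) (lt_of_lt_of_le hc hy))
    (fun y hy => scale_deriv d3 h1 h2 (t1 ^ p) (θ * t2 ^ p) (lt_of_lt_of_le hc hy))
    (fun y hy => by
      have hy0 : 0 < y := lt_of_lt_of_le hc hy
      have k1 := B_diff hp (mul_pos h1 hy0)
      have k2 := B_diff hp (mul_pos h2 hy0)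
      have e : ∀ t : ℝ, 0 < t → t ^ p * (t * y) ^ (-p) = y ^ (-p) := by
        intro t ht
        rw [Real.mul_rpow ht.le hy0.le, ← mul_assoc, ← Real.rpow_add ht]
        simp
      have k3 := mul_le_mul_of_nonneg_left (hom y hy) (Real.rpow_pos_of_pos hy0 (-p)).le
      have e1 := e t1 h1
      have e2 := e t2 h2
      have k4 : t1 ^ p * B p (p ^ 4) (p ^ 3) (p ^ 2 - p + 1) (p - 3) 1 (t1 * y) -
          t1 ^ p * B p (p ^ 2) p 1 0 0 (t1 * y) = y ^ (-p) * om p (t1 * y) := by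
        rw [← mul_sub, k1, ← mul_assoc, e1]
      have k5 : θ * t2 ^ p * B p (p ^ 4) (p ^ 3) (p ^ 2 - p + 1) (p - 3) 1 (t2 * y) -
          θ * t2 ^ p * B p (p ^ 2) p 1 0 0 (t2 * y) = y ^ (-p) * (θ * om p (t2 * y)) := by
        rw [← mul_sub, k2, mul_assoc θ, ← mul_assoc (t2 ^ p), e2]
        ring
      linarith)
    (scale_dec (fun c hc => dec_B hp _ _ _ _ _ hc) hc h1 h2 _ _)
    (scale_dec (fun c hc => dec_B hp _ _ _ _ _ hc) hc h1 h2 _ _)
    (scale_dec (fun c hc => dec_B hp _ _ _ _ _ hc) hc h1 h2 _ _)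
    (scale_dec (fun c hc => dec_B hp _ _ _ _ _ hc) hc h1 h2 _ _)
  refine ⟨P, fun x hx => ?_⟩
  have hx0 : x ≠ 0 := ne_of_gt (lt_of_lt_of_le hc hx)
  rw [hP0, hP1]
  simp only []
  rw [mul_div_cancel₀ _ hx0]
  unfold B
  ring

end Pool.Agent.Lib.MP_465ce1_mp
end
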