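import Pool.Agent.Lib.MP_465ce1_mp.Sphere
import Pool.Agent.Lib.MP_465ce1_mp.ProfEx

import Pool.Agent.Lib.MP_465ce1_mp.Om

/-!
The unconditional comparison theorem.
-/

namespace Pool.Agent.Lib.MP_465ce1_mp

variable {n : ℕ} {W : Sph n → ℝ}

theorem eig_ctl (hn : 4 ≤ n) (hW : IsSmooth W) (hpos : ∀ x, 0 < W x) :
    Ctl (eig W 0) (eig W) (eig W) :=
  (sphere_trace (pre_of_spec spec_holds) hn hW hpos).1

theorem heat_le (hn : 4 ≤ n) (hW : IsSmooth W) (hpos : ∀ x, 0 < W x) {t1 t2 θ : ℝ}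
    (h1 : 0 < t1) (h2 : 0 < t2)
    (h : ∀ x, eig W 0 ≤ x → θ * om (n / 2) (t2 * x) ≤ om (n / 2) (t1 * x)) :
    θ * heat W t2 ≤ heat W t1 :=
  heat_compare (pre_of_spec spec_holds) prof_holds hn hW hpos h1 h2 h

end Pool.Agent.Lib.MP_465ce1_mp
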