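import Mathlib

/-!
The weight function that gives the constants of the heat trace comparison.
-/

open MeasureTheory

namespace Pool.Agent.Lib.MP_465ce1_mp

/-- `om p a` is the integral of `y^(p+1) (y^2 - 6 y + 6) exp(-y)` over `y > a`. -/
noncomputable def om (p a : ℝ) : ℝ :=
  ∫ y in Set.Ioi a, y ^ (p + 1) * (y ^ 2 - 6 * y + 6) * Real.exp (-y)

end Pool.Agent.Lib.MP_465ce1_mp
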