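import Pool.Agent.Lib.MP_465ce1_mp.Comp
import Pool.Agent.Lib.MP_465ce1_mp.Fwd
import Pool.Agent.Lib.MP_465ce1_mp.Back
import Pool.Agent.Lib.MP_465ce1_mp.Conc
import Pool.Agent.Lib.MP_465ce1_mp.Cut

/-!
The trace inequality on the sphere.
-/

open MeasureTheory Filter Topology
open scoped ContDiff

namespace Pool.Agent.Lib.MP_465ce1_mp

variable {n : ℕ} {W : Sph n → ℝ}

/-- The set whose infimum is `eig W k`. -/
def SS (W : Sph n → ℝ) (k : ℕ) : Set ℝ :=
  {L : ℝ | ∃ F : Submodule ℝ (Sph n → ℝ), Module.finrank ℝ F = k + 1 ∧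
    ∀ φ ∈ F, IsSmooth φ ∧
      energy (fun x => φ x / Real.sqrt (W x)) ≤ L * ∫ x, φ x ^ 2 ∂vol n}

lemma eig_eq (k : ℕ) : eig W k = sInf (SS W k) := rfl

/-- The weight on the flat side. -/
noncomputable def VV (W : Sph n → ℝ) (x : Euc n) : ℝ := W (sig x) * rho x ^ 2

instance : IsFiniteMeasure (vol n) := by unfold vol; infer_instance

instance : (vol n).IsOpenPosMeasure := by unfold vol; infer_instance

lemma ext_pos (hpos : ∀ x, 0 < W x) {y : Euc (n + 1)} (hy : y ∈ ({0}ᶜ : Set (Euc (n + 1)))) :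
    0 < ext W y := by
  unfold ext
  rw [dif_neg (show ¬y = 0 from hy)]
  exact hpos _

lemma smooth_div (hW : IsSmooth W) (hpos : ∀ x, 0 < W x) {φ : Sph n → ℝ} (hφ : IsSmooth φ) :
    IsSmooth fun x => φ x / Real.sqrt (W x) := by
  refine (ContDiffOn.div hφ (ContDiffOn.sqrt hW fun y hy => (ext_pos hpos hy).ne')
    fun y hy => (Real.sqrt_pos.mpr (ext_pos hpos hy)).ne').congr fun y hy => ?_
  simp only [ext, dif_neg (show ¬y = 0 from hy), Pi.div_apply]

lemma smooth_mul (hW : IsSmooth W) (hpos : ∀ x, 0 < W x) {u : Sph n → ℝ} (hu : IsSmooth u) :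
    IsSmooth fun x => Real.sqrt (W x) * u x := by
  refine (ContDiffOn.mul (ContDiffOn.sqrt hW fun y hy => (ext_pos hpos hy).ne') hu).congr
    fun y hy => ?_
  simp only [ext, dif_neg (show ¬y = 0 from hy)]

lemma cont_int {f : Sph n → ℝ} (hf : Continuous f) : Integrable f (vol n) :=
  hf.integrable_of_hasCompactSupport (HasCompactSupport.of_compactSpace f)

lemma int_sq (hn : 4 ≤ n) (hpos : ∀ x, 0 < W x) {φ : Sph n → ℝ} (hφ : IsSmooth φ) :
    ∫ x, φ x ^ 2 ∂vol n = ∫ x, VV W x * fwd (fun x => φ x / Real.sqrt (W x)) x ^ 2 := by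
  rw [meas_pos n (by omega) (fun x => φ x ^ 2) ((Fwd.cont_u hφ).pow 2)]
  refine integral_congr_ae (Eventually.of_forall fun x => ?_)
  obtain ⟨m, rfl⟩ : ∃ m, n = m + 2 := ⟨n - 2, by omega⟩
  have hsq : (rho x ^ (((m + 2 : ℕ) : ℝ) / 2 - 1)) ^ 2 = rho x ^ m := by
    rw [← Real.rpow_natCast, ← Real.rpow_mul (rho_pos x).le, ← Real.rpow_natCast]
    congr 1; push_cast; ring
  simp only [VV, fwd, mul_pow, div_pow, hsq, Real.sq_sqrt (hpos _).le]
  have := (hpos (sig x)).ne'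
  field_simp
  ring

lemma int_sq_pos {φ : Sph n → ℝ} (hφ : IsSmooth φ) (h : φ ≠ 0) : 0 < ∫ x, φ x ^ 2 ∂vol n := by
  obtain ⟨x, hx⟩ := Function.ne_iff.mp h
  exact integral_pos_of_integrable_nonneg_nonzero (x := x) ((Fwd.cont_u hφ).pow 2)
    (cont_int ((Fwd.cont_u hφ).pow 2)) (fun y => sq_nonneg _) (pow_ne_zero 2 hx)

lemma SS_lower (hn : 4 ≤ n) (hW : IsSmooth W) (hpos : ∀ x, 0 < W x) :
    ∃ c : ℝ, 0 < c ∧ ∀ k, ∀ L ∈ SS W k, c ≤ L := by
  obtain ⟨C, hC0, hC⟩ := Fwd.bound (Fwd.cont_u hW)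
  refine ⟨1 / (C + 1), by positivity, ?_⟩
  rintro k L ⟨F, hF, h⟩
  obtain ⟨φ, hφF, hφ⟩ := exists_ne_zero_of_finrank hF
  obtain ⟨hs, he⟩ := h φ hφF
  have hu := smooth_div hW hpos hs
  have h1 : 1 / (C + 1) * ∫ x, φ x ^ 2 ∂vol n ≤ energy fun x => φ x / Real.sqrt (W x) := by
    rw [← integral_const_mul]
    refine integral_mono (cont_int (continuous_const.mul ((Fwd.cont_u hs).pow 2)))
      (cont_int (((Fwd.cont_du hu).pow 2).add (continuous_const.mul ((Fwd.cont_u hu).pow 2))))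
      fun x => ?_
    have hn' : (4 : ℝ) ≤ n := by exact_mod_cast hn
    have h2 : (1 : ℝ) ≤ (n / 2 : ℝ) * (n / 2 - 1) := by nlinarith
    have h3 : 1 / (C + 1) * φ x ^ 2 ≤ (φ x / Real.sqrt (W x)) ^ 2 := by
      rw [div_pow, Real.sq_sqrt (hpos x).le, one_div_mul_eq_div]
      exact div_le_div_of_nonneg_left (sq_nonneg _) (hpos x) (by linarith [(abs_le.mp (hC x)).2])
    have h4 := mul_le_mul_of_nonneg_right h2 (sq_nonneg (φ x / Real.sqrt (W x)))
    have h5 := sq_nonneg ‖fderiv ℝ (ext fun x => φ x / Real.sqrt (W x)) (x : Euc (n + 1))‖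
    simp only
    linarith
  exact le_of_mul_le_mul_right (h1.trans he) (int_sq_pos hs hφ)

lemma SS_zero (k : ℕ) : SS W k ⊆ SS W 0 := by
  rintro L ⟨F, hF, h⟩
  obtain ⟨φ, hφF, hφ⟩ := exists_ne_zero_of_finrank hF
  exact ⟨Submodule.span ℝ {φ}, finrank_span_singleton hφ, fun ψ hψ =>
    h ψ ((Submodule.span_singleton_le_iff_mem φ F).mpr hφF hψ)⟩

lemma DR_compact {R : ℝ} (v : DR n R) : HasCompactSupport (v : Euc n → ℝ) :=
  HasCompactSupport.intro (isCompact_closedBall 0 R) fun x hx => v.2.2 x (by simpa using hx)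

/-- The identification of the abstract forms with integrals. -/
def Ident (W : Sph n → ℝ) {R : ℝ} (S : Pre (DR n R) n) : Prop :=
  ∀ v : DR n R, S.a v v = ∫ x, ‖fderiv ℝ (v : Euc n → ℝ) x‖ ^ 2 ∧
    S.m v v = ∫ x, (v : Euc n → ℝ) x ^ 2 ∧ S.b v v = ∫ x, VV W x * (v : Euc n → ℝ) x ^ 2

lemma back_sub (hn : 4 ≤ n) (hW : IsSmooth W) (hpos : ∀ x, 0 < W x) {R : ℝ}
    {S : Pre (DR n R) n} (hS : Ident W S) {μ : ℝ} (hμ : 0 ≤ μ) (k : ℕ) :
    MM (S.a + μ • S.m) S.b k ⊆ SS W k := by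
  obtain ⟨B, hB⟩ := back_holds n hn
  rintro L ⟨F, hF, h⟩
  let T : DR n R →ₗ[ℝ] (Sph n → ℝ) :=
    (LinearMap.mulLeft ℝ fun x => Real.sqrt (W x)) ∘ₗ B ∘ₗ (DR n R).subtype
  have hT : ∀ v x, T v x = Real.sqrt (W x) * B v x := fun v x => rfl
  have hTd : ∀ v, (fun x => T v x / Real.sqrt (W x)) = B v := fun v => by
    funext x
    have := (Real.sqrt_pos.mpr (hpos x)).ne'
    rw [hT]; field_simp
  have hinj : Function.Injective T := by
    rw [← LinearMap.ker_eq_bot, LinearMap.ker_eq_bot']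
    intro v hv
    have h1 := (hB v v.2.1 (DR_compact v)).2
    rw [← hTd, hv] at h1
    ext x
    rw [← h1]
    simp [fwd]
  refine ⟨F.map T, by rw [← hF]; exact (Submodule.equivMapOfInjective T hinj F).finrank_eq.symm, ?_⟩
  rintro _ ⟨v, hv, rfl⟩
  obtain ⟨h1, h2⟩ := hB v v.2.1 (DR_compact v)
  have h3 : IsSmooth (T v) := smooth_mul hW hpos h1
  refine ⟨h3, ?_⟩
  rw [int_sq hn hpos h3, hTd, (fwd_holds n hn _ h1).2.2, h2, ← (hS v).1, ← (hS v).2.2]
  have h4 := h v hv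
  simp only [LinearMap.add_apply, LinearMap.smul_apply, smul_eq_mul] at h4
  linarith [mul_nonneg hμ (S.m_nonneg v)]

lemma VV_cont (hW : IsSmooth W) : Continuous (VV W) :=
  ((Fwd.cont_u hW).comp Meas.continuous_sig).mul (Meas.continuous_rho.pow 2)

lemma fwd_ev (hn : 4 ≤ n) (hW : IsSmooth W) (hpos : ∀ x, 0 < W x)
    {S : ∀ i : ℕ, Pre (DR n ((i : ℝ) + 1)) n} (hS : ∀ i, Ident W (S i)) {k : ℕ} {L ε : ℝ}
    (hε : 0 < ε) (hL : L ∈ SS W k) :
    ∀ᶠ i : ℕ in atTop, L + ε ∈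
      MM ((S i).a + (2 / (1 + ((i : ℝ) + 1) ^ 2)) ^ 2 • (S i).m) (S i).b k := by
  obtain ⟨χ, hχ, hcut⟩ := cut_holds n hn
  obtain ⟨F, hF, h⟩ := hL
  obtain ⟨Cw, hCw0, hCw⟩ := Fwd.bound (Fwd.cont_u hW)
  let T : ∀ i : ℕ, F →ₗ[ℝ] DR n ((i : ℝ) + 1) := fun i =>
    { toFun := fun φ => ⟨fun y => χ i y * fwd (fun x => φ.1 x / Real.sqrt (W x)) y,
        (hχ i).1.mul (fwd_holds n hn _ (smooth_div hW hpos (h φ φ.2).1)).1,
        fun x hx => by simp only [(hχ i).2 x hx, zero_mul]⟩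
      map_add' := fun φ ψ => by
        ext y; simp [fwd]; ring
      map_smul' := fun c φ => by
        ext y; simp [fwd]; ring }
  choose C h2 using fun φ : F => (fwd_holds n hn _ (smooth_div hW hpos (h φ φ.2).1)).2.1
  have key := fun φ : F => hcut _ (VV W) (max (C φ) Cw)
    (fwd_holds n hn _ (smooth_div hW hpos (h φ φ.2).1)).1 (VV_cont hW)
    (fun x => by
      rw [VV, abs_mul, abs_of_nonneg (sq_nonneg (rho x))]
      exact mul_le_mul_of_nonneg_right ((hCw _).trans (le_max_right _ _)) (sq_nonneg _))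
    fun x => ⟨(h2 φ x).1.trans (mul_le_mul_of_nonneg_right (le_max_left _ _)
        (pow_pos (rho_pos x) _).le),
      (h2 φ x).2.trans (mul_le_mul_of_nonneg_right (le_max_left _ _) (pow_pos (rho_pos x) _).le)⟩
  refine trans_mm hF T _ _ (fun φ => energy fun x => φ.1 x / Real.sqrt (W x))
    (fun φ => ∫ x, φ.1 x ^ 2 ∂vol n) hε (fun φ => ?_) (fun φ => ?_)
    (fun φ hφ => int_sq_pos (h φ φ.2).1 (by simpa using hφ)) fun φ => (h φ φ.2).2
  · simp only [LinearMap.add_apply, LinearMap.smul_apply, smul_eq_mul, (hS _ _).1, (hS _ _).2.1]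
    rw [(fwd_holds n hn _ (smooth_div hW hpos (h φ φ.2).1)).2.2]
    have := (key φ).1.add (key φ).2.1
    rw [add_zero] at this
    exact this
  · simp only [(hS _ _).2.2]
    rw [int_sq hn hpos (h φ φ.2).1]
    exact (key φ).2.2

theorem sphere_trace (hP : PreStmt) (hn : 4 ≤ n) (hW : IsSmooth W) (hpos : ∀ x, 0 < W x) :
    Ctl (eig W 0) (eig W) (eig W) ∧ ∀ c : ℝ, 0 < c → c ≤ eig W 0 → ∀ P : Prof c,
      (n : ℝ) / 2 * ∑' k, P.Phi (eig W k) ≤ ∑' k, eig W k * P.Th (eig W k) := by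
  choose S hS using fun i : ℕ => conc_holds n (by omega) ((i : ℝ) + 1) (by positivity) (VV W)
    (VV_cont hW) fun x => mul_pos (hpos _) (pow_pos (rho_pos x) 2)
  set μ : ℕ → ℝ := fun i => (2 / (1 + ((i : ℝ) + 1) ^ 2)) ^ 2 with hμ
  have hμ0 : ∀ i, 0 < μ i := fun i => by positivity
  have hpre := fun i => hP _ n (S i) (μ i) (hμ0 i)
  have hsub := fun i k => back_sub hn hW hpos (hS i) (hμ0 i).le k
  obtain ⟨c0, hc0, hlow⟩ := SS_lower hn hW hpos
  have hne : ∀ k, (SS W k).Nonempty := fun k => ((hpre 0).1 k).mono (hsub 0 k)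
  have hbd : ∀ k, BddBelow (SS W k) := fun k => ⟨c0, hlow k⟩
  have h0 : 0 < eig W 0 := hc0.trans_le (le_csInf (hne 0) (hlow 0))
  have h0k : ∀ k, eig W 0 ≤ eig W k := fun k => csInf_le_csInf (hbd 0) (hne k) (SS_zero k)
  set lam : ℕ → ℕ → ℝ := fun i k => sInf (MM ((S i).a + μ i • (S i).m) (S i).b k) with hlam
  have hle : ∀ i k, eig W k ≤ lam i k := fun i k =>
    csInf_le_csInf (hbd k) ((hpre i).1 k) (hsub i k)
  have hev : ∀ k ε, 0 < ε → ∃ L, L < eig W k + ε ∧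
      ∀ᶠ i : ℕ in atTop, L ∈ MM ((S i).a + μ i • (S i).m) (S i).b k := by
    intro k ε hε
    obtain ⟨L, hL, hL'⟩ := exists_lt_of_csInf_lt (hne k)
      (show sInf (SS W k) < eig W k + ε / 2 by rw [eig_eq]; linarith)
    exact ⟨L + ε / 2, by linarith, fwd_ev hn hW hpos hS (by positivity) hL⟩
  have hlim : ∀ k, Tendsto (fun i => lam i k) atTop (𝓝 (eig W k)) := by
    intro k
    rw [tendsto_order]
    refine ⟨fun a ha => Eventually.of_forall fun i => ha.trans_le (hle i k), fun a ha => ?_⟩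
    obtain ⟨L, hL, hL'⟩ := hev k (a - eig W k) (by linarith)
    filter_upwards [hL'] with i hi
    exact (csInf_le ((hbd k).mono (hsub i k)) hi).trans_lt (by linarith)
  obtain ⟨Cc, p, hcount⟩ := count_holds n (by omega)
  obtain ⟨Cw, hCw0, hCw⟩ := Fwd.bound (Fwd.cont_u hW)
  have hcnt : ∀ k : ℕ, (k : ℝ) + 1 ≤ |Cc| * (1 + Cw) ^ p * (2 + eig W k) ^ p := by
    intro k
    obtain ⟨L, hL, hL'⟩ := hev k 1 one_pos
    obtain ⟨i, F, hF, h⟩ := hL'.exists
    have he : 0 < eig W k := h0.trans_le (h0k k)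
    have h1 := hcount ((eig W k + 1) * Cw) (F.map (DR n ((i : ℝ) + 1)).subtype) (by positivity) (by
      rintro _ ⟨v, hv, rfl⟩
      refine ⟨v.2.1, DR_compact v, ?_⟩
      have h2 := h v hv
      simp only [LinearMap.add_apply, LinearMap.smul_apply, smul_eq_mul] at h2
      have h3 : (S i).b v v ≤ Cw * ∫ x, rho x ^ 2 * (v : Euc n → ℝ) x ^ 2 := by
        rw [(hS i v).2.2, ← integral_const_mul]
        refine integral_mono (Count.int_mul_sq (VV_cont hW) v.2.1.continuous (DR_compact v))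
          ((Count.int_mul_sq (Meas.continuous_rho.pow 2) v.2.1.continuous
            (DR_compact v)).const_mul _) fun x => ?_
        simp only [VV]
        rw [mul_assoc]
        exact mul_le_mul_of_nonneg_right (abs_le.mp (hCw _)).2 (by positivity)
      change ∫ x, ‖fderiv ℝ (v : Euc n → ℝ) x‖ ^ 2 ≤ _ * ∫ x, rho x ^ 2 * (v : Euc n → ℝ) x ^ 2
      rw [← (hS i v).1, mul_assoc]
      have h4 := mul_nonneg (hμ0 i).le ((S i).m_nonneg v)
      have h5 := mul_le_mul_of_nonneg_right hL.le ((S i).b_nonneg v)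
      have h6 := mul_le_mul_of_nonneg_left h3 (show 0 ≤ eig W k + 1 by positivity)
      linarith)
    rw [Submodule.finrank_map_subtype_eq, hF] at h1
    push_cast at h1
    rw [mul_assoc, ← mul_pow]
    refine h1.trans (mul_le_mul (le_abs_self _) ?_ (by positivity) (abs_nonneg _))
    exact pow_le_pow_left₀ (by positivity) (by nlinarith) p
  have hsum : ∀ s : ℝ, 0 < s → Summable fun k => Real.exp (-(s * eig W k)) := fun s hs =>
    summable_of_count (fun k => (h0.trans_le (h0k k)).le) hcnt hs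
  refine ⟨⟨h0, h0k, fun _ => le_rfl, hsum⟩, fun c hc hc' P => ?_⟩
  have hck : ∀ k, c ≤ eig W k := fun k => hc'.trans (h0k k)
  have C : Ctl c (eig W) (eig W) := ⟨hc, hck, fun _ => le_rfl, hsum⟩
  have hn0 : (0 : ℝ) ≤ n / 2 + 1 := by positivity
  have hi : ∀ N i, ((n : ℝ) / 2 + 1) * ∑ k ∈ Finset.range N,
      (P.Phi (eig W k) - P.Th (eig W k) * (lam i k - eig W k)) ≤
      ∑' k, eig W k * P.Th (eig W k) + ∑' k, P.Phi (eig W k) := by
    intro N i
    have hci : ∀ k, c ≤ lam i k := fun k => (hck k).trans (hle i k)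
    obtain ⟨s1, s2, h3⟩ := (hpre i).2 c hc hci P
    have h4 : ∑ k ∈ Finset.range N, (P.Phi (eig W k) - P.Th (eig W k) * (lam i k - eig W k)) ≤
        ∑' k, P.Phi (lam i k) :=
      (Finset.sum_le_sum fun k _ => P.tanPhi _ _ (hck k) (hci k)).trans
        (s1.sum_le_tsum _ fun k _ => P.Phi_nonneg _ (hci k))
    have h5 : ∑' k, lam i k * P.Th (lam i k) + ∑' k, P.Phi (lam i k) ≤
        ∑' k, eig W k * P.Th (eig W k) + ∑' k, P.Phi (eig W k) := by
      refine hasSum_le (fun k => ?_) (s2.hasSum.add s1.hasSum)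
        ((C.sLam P).hasSum.add (C.sPhi P).hasSum)
      have h6 := P.tanRho _ _ (hci k) (hck k)
      have h7 := mul_nonneg (P.psi_nonneg _ (hci k)) (sub_nonneg.mpr (hle i k))
      linarith
    have h8 := mul_le_mul_of_nonneg_left h4 hn0
    linarith
  have hN : ∀ N, ((n : ℝ) / 2 + 1) * ∑ k ∈ Finset.range N, P.Phi (eig W k) ≤
      ∑' k, eig W k * P.Th (eig W k) + ∑' k, P.Phi (eig W k) := by
    intro N
    have lim := (tendsto_finsetSum (Finset.range N) fun k _ =>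
      (((hlim k).sub_const (eig W k)).const_mul (P.Th (eig W k))).const_sub
        (P.Phi (eig W k))).const_mul ((n : ℝ) / 2 + 1)
    simpa using le_of_tendsto' lim (hi N)
  have := le_of_tendsto' ((C.sPhi P).hasSum.tendsto_sum_nat.const_mul ((n : ℝ) / 2 + 1)) hN
  linarith

/-- Comparison of two values of the heat trace. -/
theorem heat_compare (hP : PreStmt) (hQ : ProfStmt) (hn : 4 ≤ n) (hW : IsSmooth W)
    (hpos : ∀ x, 0 < W x) {t1 t2 θ : ℝ} (h1 : 0 < t1) (h2 : 0 < t2)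
    (h : ∀ x, eig W 0 ≤ x → θ * om (n / 2) (t2 * x) ≤ om (n / 2) (t1 * x)) :
    θ * heat W t2 ≤ heat W t1 := by
  obtain ⟨C, hT⟩ := sphere_trace hP hn hW hpos
  have hn' : (4 : ℝ) ≤ n := by exact_mod_cast hn
  obtain ⟨P, hPe⟩ := hQ (n / 2) _ t1 t2 θ (by linarith) C.c_pos h1 h2 h
  have h3 := hT _ C.c_pos le_rfl P
  have h4 := (C.sLam P).hasSum.sub ((C.sPhi P).hasSum.mul_left ((n : ℝ) / 2))
  simp only [fun k => hPe _ (C.c_le k)] at h4
  have h5 := h4.unique (((C.summ t1 h1).hasSum.mul_left (t1 ^ (n / 2 : ℝ))).sub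
    (((C.summ t2 h2).hasSum.mul_left (t2 ^ (n / 2 : ℝ))).mul_left θ))
  unfold heat
  linarith

end Pool.Agent.Lib.MP_465ce1_mp
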