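import Pool.Agent.Lib.MP_465ce1_mp.Defs
import Mathlib
import Pool.Agent.Lib.MP_465ce1_mp.Om0

-- part Pool.Agent.Lib.MP_465ce1_mp.Flat
section

/-!
Stereographic projection: the flat side.
-/

open MeasureTheory
open scoped ContDiff

namespace Pool.Agent.Lib.MP_465ce1_mp

/-- Euclidean space of dimension `n`. -/
abbrev Euc (n : ℕ) : Type := EuclideanSpace ℝ (Fin n)

/-- The conformal factor of the stereographic projection. -/
noncomputable def rho {n : ℕ} (x : Euc n) : ℝ := 2 / (1 + ‖x‖ ^ 2)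

lemma rho_pos {n : ℕ} (x : Euc n) : 0 < rho x := by
  unfold rho; positivity

lemma rho_le_two {n : ℕ} (x : Euc n) : rho x ≤ 2 := by
  unfold rho
  rw [div_le_iff₀ (by positivity)]
  nlinarith [sq_nonneg ‖x‖]

lemma rho_mul_norm_sq {n : ℕ} (x : Euc n) : rho x * ‖x‖ ^ 2 = 2 - rho x := by
  unfold rho
  field_simp
  ring

/-- Inverse stereographic projection from the pole `(0, ..., 0, 1)`, in the ambient space. -/
noncomputable def sigA {n : ℕ} (x : Euc n) : Euc (n + 1) :=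
  WithLp.toLp 2 (Fin.snoc (α := fun _ => ℝ) (fun i => rho x * x i) (1 - rho x))

lemma norm_sigA {n : ℕ} (x : Euc n) : ‖sigA x‖ = 1 := by
  have h : ‖sigA x‖ ^ 2 = 1 := by
    rw [EuclideanSpace.real_norm_sq_eq, Fin.sum_univ_castSucc]
    simp only [sigA, Fin.snoc_castSucc, Fin.snoc_last, mul_pow]
    rw [← Finset.mul_sum, ← EuclideanSpace.real_norm_sq_eq]
    have := rho_mul_norm_sq x
    nlinarith
  nlinarith [norm_nonneg (sigA x)]

/-- Inverse stereographic projection, as a map to the sphere. -/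
noncomputable def sig {n : ℕ} (x : Euc n) : Sph n := ⟨sigA x, by simp [norm_sigA]⟩

/-- The flat function attached to a function on the sphere. -/
noncomputable def fwd {n : ℕ} (u : Sph n → ℝ) (x : Euc n) : ℝ :=
  rho x ^ ((n : ℝ) / 2 - 1) * u (sig x)

/-- Change of variables (job Meas). -/
def MeasStmt : Prop :=
  ∀ (n : ℕ) (f : Sph n → ℝ), Continuous f →
    ∫ y, f y ∂vol n = ∫ x : Euc n, f (sig x) * rho x ^ n

/-- Conformal covariance of the energy and decay of the flat function (job Fwd). -/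
def FwdStmt : Prop :=
  ∀ n : ℕ, 4 ≤ n → ∀ u : Sph n → ℝ, IsSmooth u →
    ContDiff ℝ ∞ (fwd u) ∧
    (∃ C : ℝ, ∀ x, fwd u x ^ 2 ≤ C * rho x ^ (n - 2) ∧
      ‖fderiv ℝ (fwd u) x‖ ^ 2 ≤ C * rho x ^ (n - 1)) ∧
    energy u = ∫ x : Euc n, ‖fderiv ℝ (fwd u) x‖ ^ 2

/-- Compactly supported smooth flat functions come from smooth functions on the sphere
(job Back). -/
def BackStmt : Prop :=
  ∀ n : ℕ, 4 ≤ n → ∃ B : (Euc n → ℝ) →ₗ[ℝ] (Sph n → ℝ), ∀ v : Euc n → ℝ, ContDiff ℝ ∞ v →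
    HasCompactSupport v → IsSmooth (B v) ∧ fwd (B v) = v

/-- A crude polynomial Weyl bound (job Count). -/
def CountStmt : Prop :=
  ∀ n : ℕ, 3 ≤ n → ∃ (C : ℝ) (p : ℕ), ∀ (L : ℝ) (F : Submodule ℝ (Euc n → ℝ)), 0 ≤ L →
    (∀ v ∈ F, ContDiff ℝ ∞ v ∧ HasCompactSupport v ∧
      ∫ x, ‖fderiv ℝ v x‖ ^ 2 ≤ L * ∫ x, rho x ^ 2 * v x ^ 2) →
    (Module.finrank ℝ F : ℝ) ≤ C * (1 + L) ^ p

end Pool.Agent.Lib.MP_465ce1_mp
end

-- part Pool.Agent.Lib.MP_465ce1_mp.Num
section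

/-!
Numerical lemmas on double series, a telescoping lemma, and test profiles.
-/

open Filter Topology

namespace Pool.Agent.Lib.MP_465ce1_mp

/-- A triple of test functions on `[c, ∞)` with the inequalities used in the trace identities. -/
structure Prof (c : ℝ) where
  Phi : ℝ → ℝ
  Th : ℝ → ℝ
  psi : ℝ → ℝ
  Phi_nonneg : ∀ x, c ≤ x → 0 ≤ Phi x
  Th_nonneg : ∀ x, c ≤ x → 0 ≤ Th x
  psi_nonneg : ∀ x, c ≤ x → 0 ≤ psi x
  hh : ∀ x y, c ≤ x → c ≤ y →
    (Th x - Th y) * (y - x) ≤ (y - x) ^ 2 * (psi x / (2 * y) + psi y / (2 * x))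
  tanPhi : ∀ x y, c ≤ x → c ≤ y → Phi x - Th x * (y - x) ≤ Phi y
  tanRho : ∀ x y, c ≤ x → c ≤ y →
    (x * Th x + Phi x) - psi x * (y - x) ≤ y * Th y + Phi y
  bound : ∃ s C : ℝ, 0 < s ∧ ∀ x, c ≤ x →
    (1 + x) * (Phi x + Th x + psi x) ≤ C * Real.exp (-(s * x))

lemma hasSum_prod_rows {f : ℕ → ℕ → ℝ} {F : ℕ → ℝ} (h0 : ∀ j k, 0 ≤ f j k)
    (hr : ∀ j, HasSum (f j) (F j)) (hF : Summable F) :
    HasSum (fun p : ℕ × ℕ => f p.1 p.2) (∑' j, F j) := by
  have hs : Summable (fun p : ℕ × ℕ => f p.1 p.2) := by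
    rw [summable_prod_of_nonneg (fun p => h0 p.1 p.2)]
    refine ⟨fun j => (hr j).summable, ?_⟩
    simpa [fun j => (hr j).tsum_eq] using hF
  have h1 := hs.hasSum
  have h2 := h1.prod_fiberwise hr
  rw [h2.tsum_eq]
  exact h1

lemma hasSum_prod_cols {f : ℕ → ℕ → ℝ} {F : ℕ → ℝ} (h0 : ∀ j k, 0 ≤ f j k)
    (hc : ∀ k, HasSum (fun j => f j k) (F k)) (hF : Summable F) :
    HasSum (fun p : ℕ × ℕ => f p.1 p.2) (∑' k, F k) := by
  have h := hasSum_prod_rows (f := fun k j => f j k) (fun k j => h0 j k) hc hF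
  exact (Equiv.prodComm ℕ ℕ).hasSum_iff.mp h

lemma exists_hasSum_prod_rows_le {f : ℕ → ℕ → ℝ} {U : ℕ → ℝ} (h0 : ∀ j k, 0 ≤ f j k)
    (hU : ∀ j N, ∑ k ∈ Finset.range N, f j k ≤ U j) (hs : Summable U) :
    ∃ t, HasSum (fun p : ℕ × ℕ => f p.1 p.2) t ∧ t ≤ ∑' j, U j := by
  have hr : ∀ j, Summable (f j) := fun j => summable_of_sum_range_le (h0 j) (hU j)
  have hle : ∀ j, ∑' k, f j k ≤ U j := fun j => Real.tsum_le_of_sum_range_le (h0 j) (hU j)
  have hF : Summable (fun j => ∑' k, f j k) :=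
    Summable.of_nonneg_of_le (fun j => tsum_nonneg (h0 j)) hle hs
  exact ⟨_, hasSum_prod_rows h0 (fun j => (hr j).hasSum) hF, hF.tsum_le_tsum hle hs⟩

/-- The symmetrized commutator inequality. -/
lemma pair_ineq {c : ℝ} (hc : 0 < c) (P : Prof c) {x y A B A' B' U U' : ℕ → ℝ}
    {q : ℕ → ℕ → ℝ} (hx : ∀ j, c ≤ x j) (hy : ∀ k, c ≤ y k) (hq : ∀ j k, 0 ≤ q j k)
    (hB : ∀ j, HasSum (q j) (B j)) (hA : ∀ j, HasSum (fun k => y k * q j k) (A j))
    (hB' : ∀ k, HasSum (fun j => q j k) (B' k))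
    (hA' : ∀ k, HasSum (fun j => x j * q j k) (A' k))
    (hU : ∀ j N, ∑ k ∈ Finset.range N, (y k - x j) ^ 2 * q j k / y k ≤ U j)
    (hU' : ∀ k N, ∑ j ∈ Finset.range N, (y k - x j) ^ 2 * q j k / x j ≤ U' k)
    (s1 : Summable fun j => P.Th (x j) * A j) (s2 : Summable fun j => P.Th (x j) * (x j * B j))
    (s3 : Summable fun k => P.Th (y k) * A' k) (s4 : Summable fun k => P.Th (y k) * (y k * B' k))
    (s5 : Summable fun j => P.psi (x j) * U j) (s6 : Summable fun k => P.psi (y k) * U' k) :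
    ∑' j, P.Th (x j) * (A j - x j * B j) + ∑' k, P.Th (y k) * (A' k - y k * B' k) ≤
      (∑' j, P.psi (x j) * U j + ∑' k, P.psi (y k) * U' k) / 2 := by
  have hx0 : ∀ j, 0 < x j := fun j => hc.trans_le (hx j)
  have hy0 : ∀ k, 0 < y k := fun k => hc.trans_le (hy k)
  have tx := fun j => P.Th_nonneg _ (hx j)
  have ty := fun k => P.Th_nonneg _ (hy k)
  have px := fun j => P.psi_nonneg _ (hx j)
  have py := fun k => P.psi_nonneg _ (hy k)
  have f1 := hasSum_prod_rows (f := fun j k => P.Th (x j) * (y k * q j k))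
    (fun j k => mul_nonneg (tx j) (mul_nonneg (hy0 k).le (hq j k)))
    (fun j => (hA j).mul_left _) s1
  have f2 := hasSum_prod_rows (f := fun j k => P.Th (x j) * (x j * q j k))
    (fun j k => mul_nonneg (tx j) (mul_nonneg (hx0 j).le (hq j k)))
    (fun j => ((hB j).mul_left _).mul_left _) s2
  have f3 := hasSum_prod_cols (f := fun j k => P.Th (y k) * (x j * q j k))
    (fun j k => mul_nonneg (ty k) (mul_nonneg (hx0 j).le (hq j k)))
    (fun k => (hA' k).mul_left _) s3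
  have f4 := hasSum_prod_cols (f := fun j k => P.Th (y k) * (y k * q j k))
    (fun j k => mul_nonneg (ty k) (mul_nonneg (hy0 k).le (hq j k)))
    (fun k => ((hB' k).mul_left _).mul_left _) s4
  obtain ⟨t1, r1, ht1⟩ := exists_hasSum_prod_rows_le
    (f := fun j k => P.psi (x j) * ((y k - x j) ^ 2 * q j k / y k))
    (U := fun j => P.psi (x j) * U j)
    (fun j k => mul_nonneg (px j) (div_nonneg (mul_nonneg (sq_nonneg _) (hq j k)) (hy0 k).le))
    (fun j N => by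
      rw [← Finset.mul_sum]; exact mul_le_mul_of_nonneg_left (hU j N) (px j)) s5
  obtain ⟨t2, r2, ht2⟩ := exists_hasSum_prod_rows_le
    (f := fun k j => P.psi (y k) * ((y k - x j) ^ 2 * q j k / x j))
    (U := fun k => P.psi (y k) * U' k)
    (fun k j => mul_nonneg (py k) (div_nonneg (mul_nonneg (sq_nonneg _) (hq j k)) (hx0 j).le))
    (fun k N => by
      rw [← Finset.mul_sum]; exact mul_le_mul_of_nonneg_left (hU' k N) (py k)) s6
  have r2' : HasSum (fun p : ℕ × ℕ => P.psi (y p.2) * ((y p.2 - x p.1) ^ 2 * q p.1 p.2 / x p.1))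
      t2 := (Equiv.prodComm ℕ ℕ).hasSum_iff.mp r2
  have key := hasSum_le (fun p : ℕ × ℕ => ?_) ((f1.sub f2).add (f3.sub f4))
    ((r1.add r2').div_const 2)
  · have e1 : ∑' j, P.Th (x j) * (A j - x j * B j) =
        ∑' j, P.Th (x j) * A j - ∑' j, P.Th (x j) * (x j * B j) := by
      rw [← s1.tsum_sub s2]; exact tsum_congr fun j => by ring
    have e2 : ∑' k, P.Th (y k) * (A' k - y k * B' k) =
        ∑' k, P.Th (y k) * A' k - ∑' k, P.Th (y k) * (y k * B' k) := by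
      rw [← s3.tsum_sub s4]; exact tsum_congr fun j => by ring
    rw [e1, e2]
    linarith
  · have h := mul_le_mul_of_nonneg_right (P.hh _ _ (hx p.1) (hy p.2)) (hq p.1 p.2)
    have a1 := (hx0 p.1).ne'
    have a2 := (hy0 p.2).ne'
    calc _ = (P.Th (x p.1) - P.Th (y p.2)) * (y p.2 - x p.1) * q p.1 p.2 := by ring
      _ ≤ _ := h
      _ = _ := by field_simp

/-- Jensen's inequality through tangent lines, for a doubly stochastic kernel. -/
lemma tangent_ineq {F G : ℝ → ℝ} {x y A' : ℕ → ℝ} {q : ℕ → ℕ → ℝ}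
    (hq : ∀ j k, 0 ≤ q j k) (hB : ∀ j, HasSum (q j) 1) (hB' : ∀ k, HasSum (fun j => q j k) 1)
    (hA' : ∀ k, HasSum (fun j => x j * q j k) (A' k))
    (hF : ∀ j, 0 ≤ F (x j)) (ht : ∀ j k, F (y k) - G (y k) * (x j - y k) ≤ F (x j))
    (s1 : Summable fun j => F (x j)) (s2 : Summable fun k => F (y k))
    (s3 : Summable fun k => G (y k) * (A' k - y k)) :
    ∑' k, F (y k) - ∑' k, G (y k) * (A' k - y k) ≤ ∑' j, F (x j) := by
  have f1 := hasSum_prod_rows (f := fun j k => F (x j) * q j k) (F := fun j => F (x j))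
    (fun j k => mul_nonneg (hF j) (hq j k)) (fun j => by simpa using (hB j).mul_left (F (x j))) s1
  have f2 := (Equiv.prodComm ℕ ℕ).hasSum_iff.mpr f1
  have hcol : ∀ k, Summable fun j => F (x j) * q j k := fun k => f2.summable.prod_factor k
  have f3 := f2.prod_fiberwise (g := fun k => ∑' j, F (x j) * q j k) fun k => (hcol k).hasSum
  refine hasSum_le (fun k => ?_) (s2.hasSum.sub s3.hasSum) f3
  have h1 : HasSum (fun j => (F (y k) - G (y k) * (x j - y k)) * q j k)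
      (F (y k) - G (y k) * (A' k - y k)) := by
    have := (((hB' k).mul_left (F (y k) + G (y k) * y k))).sub ((hA' k).mul_left (G (y k)))
    have e1 : (fun j => (F (y k) - G (y k) * (x j - y k)) * q j k) =
        fun j => (F (y k) + G (y k) * y k) * q j k - G (y k) * (x j * q j k) := by
      funext j; ring
    have e2 : F (y k) - G (y k) * (A' k - y k) =
        (F (y k) + G (y k) * y k) * 1 - G (y k) * A' k := by ring
    rw [e1, e2]; exact this
  exact hasSum_le (fun j => mul_le_mul_of_nonneg_right (ht j k) (hq j k)) h1 (hcol k).hasSum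

/-- A function whose increments are of second order from above does not increase. -/
lemma telescope {φ U : ℝ → ℝ} {a b : ℝ} (hab : a ≤ b)
    (h : ∀ x y, a ≤ x → x ≤ y → y ≤ b → φ y - φ x ≤ (y - x) * (U x - U y)) : φ b ≤ φ a := by
  have key : ∀ N : ℕ, 0 < N → φ b - φ a ≤ (b - a) * (U a - U b) / N := by
    intro N hN
    have hN' : (0 : ℝ) < N := by exact_mod_cast hN
    set d := (b - a) / N with hd
    have hd0 : 0 ≤ d := div_nonneg (by linarith) hN'.le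
    have ind : ∀ i : ℕ, i ≤ N → φ (a + i * d) - φ a ≤ d * (U a - U (a + i * d)) := by
      intro i
      induction i with
      | zero => intro _; simp
      | succ i ih =>
        intro hi
        have hi' : ((i : ℝ) + 1) ≤ N := by exact_mod_cast hi
        have h1 := ih (by omega)
        have hb : a + ((i : ℝ) + 1) * d ≤ b := by
          have : ((i : ℝ) + 1) * d ≤ N * d := mul_le_mul_of_nonneg_right hi' hd0
          have e : (N : ℝ) * d = b - a := by rw [hd]; field_simp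
          linarith
        have h2 := h (a + i * d) (a + ((i : ℝ) + 1) * d) (by nlinarith [Nat.cast_nonneg (α := ℝ) i])
          (by nlinarith) hb
        push_cast
        have e : a + ((i : ℝ) + 1) * d - (a + i * d) = d := by ring
        rw [e] at h2
        nlinarith
    have h3 := ind N le_rfl
    have e : a + (N : ℝ) * d = b := by rw [hd]; field_simp; ring
    rw [e] at h3
    calc φ b - φ a ≤ d * (U a - U b) := h3
      _ = _ := by rw [hd]; ring
  have lim : Tendsto (fun N : ℕ => (b - a) * (U a - U b) / (N : ℝ)) atTop (𝓝 0) :=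
    tendsto_const_div_atTop_nhds_zero_nat _
  have := ge_of_tendsto lim (eventually_atTop.mpr ⟨1, fun N hN => key N (by omega)⟩)
  linarith

/-- Trapezoid inequality for a primitive of a convex function. -/
lemma trapezoid {X χ : ℝ → ℝ} {s : Set ℝ} (hs : ConvexOn ℝ s χ)
    (hX : ∀ u ∈ s, HasDerivAt X (χ u) u) {a b : ℝ} (ha : a ∈ s) (hb : b ∈ s) (hab : a ≤ b) :
    X b - X a ≤ (b - a) * (χ a + χ b) / 2 := by
  rcases hab.eq_or_lt with rfl | hlt
  · simp
  have hsub : Set.Icc a b ⊆ s := hs.1.ordConnected.out ha hb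
  set G : ℝ → ℝ := fun u => X u - (χ a * (u - a) + (χ b - χ a) * (u - a) ^ 2 / (2 * (b - a)))
    with hG
  have hd : ∀ u ∈ Set.Icc a b, HasDerivAt G
      (χ u - (χ a + (χ b - χ a) * (u - a) / (b - a))) u := by
    intro u hu
    have h1 := ((hasDerivAt_id u).sub_const a)
    have h2 := (h1.const_mul (χ a)).add (((h1.pow 2).const_mul (χ b - χ a)).div_const (2 * (b - a)))
    have h3 := (hX u (hsub hu)).sub h2
    refine h3.congr_deriv ?_
    have : b - a ≠ 0 := by linarith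
    simp only [id]
    field_simp
    ring
  have hanti : AntitoneOn G (Set.Icc a b) := by
    refine antitoneOn_of_deriv_nonpos (convex_Icc a b)
      (fun u hu => (hd u hu).continuousAt.continuousWithinAt)
      (fun u hu => (hd u (interior_subset hu)).differentiableAt.differentiableWithinAt) ?_
    intro u hu
    have hu' := interior_subset hu
    rw [(hd u hu').deriv]
    have hba : 0 < b - a := by linarith
    have h := hs.2 ha hb (show 0 ≤ (b - u) / (b - a) from div_nonneg (by linarith [hu'.2]) hba.le)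
      (show 0 ≤ (u - a) / (b - a) from div_nonneg (by linarith [hu'.1]) hba.le)
      (by field_simp; ring)
    have e : ((b - u) / (b - a)) • a + ((u - a) / (b - a)) • b = u := by
      simp only [smul_eq_mul]; field_simp; ring
    rw [e] at h
    simp only [smul_eq_mul] at h
    have e2 : (b - u) / (b - a) * χ a + (u - a) / (b - a) * χ b =
        χ a + (χ b - χ a) * (u - a) / (b - a) := by field_simp; ring
    linarith
  have h := hanti ⟨le_rfl, hlt.le⟩ ⟨hlt.le, le_rfl⟩ hlt.le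
  simp only [hG] at h
  have hba : b - a ≠ 0 := by linarith
  have e : (χ b - χ a) * (b - a) ^ 2 / (2 * (b - a)) = (χ b - χ a) * (b - a) / 2 := by
    field_simp
  rw [e] at h
  simp at h
  nlinarith

end Pool.Agent.Lib.MP_465ce1_mp
end

-- part Pool.Agent.Lib.MP_465ce1_mp.Iface
section

/-!
Interfaces between the parts of the proof.
-/

open MeasureTheory Filter Topology
open scoped ContDiff

namespace Pool.Agent.Lib.MP_465ce1_mp

/-- The set whose infimum is the `k`-th min-max value of the pair of forms `q`, `b`. -/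
def MM {D : Type*} [AddCommGroup D] [Module ℝ D] (q b : D →ₗ[ℝ] D →ₗ[ℝ] ℝ) (k : ℕ) : Set ℝ :=
  {L | ∃ F : Submodule ℝ D, Module.finrank ℝ F = k + 1 ∧ ∀ φ ∈ F, q φ φ ≤ L * b φ φ}

/-- Spectral theorem for a pair of forms with a finite counting function (job Spec). -/
def SpecStmt : Prop :=
  ∀ (H : Type) [NormedAddCommGroup H] [InnerProductSpace ℝ H] [CompleteSpace H]
    (q b : H →ₗ[ℝ] H →ₗ[ℝ] ℝ) (c C : ℝ), 0 < c →
    (∀ x y, q x y = q y x) → (∀ x y, b x y = b y x) →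
    (∀ x, c * ‖x‖ ^ 2 ≤ q x x) → (∀ x, q x x ≤ C * ‖x‖ ^ 2) →
    (∀ x, x ≠ 0 → 0 < b x x) → (∀ x, b x x ≤ C * ‖x‖ ^ 2) →
    (∀ k : ℕ, ∃ F : Submodule ℝ H, Module.finrank ℝ F = k + 1) →
    (∀ L : ℝ, ∃ N : ℕ, ∀ F : Submodule ℝ H, (∀ x ∈ F, q x x ≤ L * b x x) →
      Module.finrank ℝ F ≤ N) →
    ∃ (v : ℕ → H) (lam : ℕ → ℝ), (∀ j, 0 < lam j) ∧ (∀ j φ, q (v j) φ = lam j * b (v j) φ) ∧
      (∀ j k, b (v j) (v k) = if j = k then 1 else 0) ∧
      (∀ φ, HasSum (fun k => b φ (v k) ^ 2) (b φ φ)) ∧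
      (∀ φ, HasSum (fun k => lam k * b φ (v k) ^ 2) (q φ φ)) ∧
      ∀ k, IsLeast (MM q b k) (lam k)

/-- Algebraic data: a mass form, a weighted form, commuting skew derivations `d i` and
coordinate multipliers `g i`, on a space that need not be complete. -/
structure Pre (D : Type*) [AddCommGroup D] [Module ℝ D] (n : ℕ) where
  m : D →ₗ[ℝ] D →ₗ[ℝ] ℝ
  b : D →ₗ[ℝ] D →ₗ[ℝ] ℝ
  d : Fin n → D →ₗ[ℝ] D
  g : Fin n → D →ₗ[ℝ] D
  m_symm : ∀ x y, m x y = m y x
  b_symm : ∀ x y, b x y = b y x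
  m_pos : ∀ x, x ≠ 0 → 0 < m x x
  m_d : ∀ i x y, m (d i x) y = -m x (d i y)
  d_comm : ∀ i j x, d i (d j x) = d j (d i x)
  d_g : ∀ i j x, d i (g j x) = g j (d i x) + if i = j then x else 0
  m_g : ∀ i x y, m (g i x) y = m x (g i y)
  b_g : ∀ i x y, b (g i x) y = b x (g i y)
  g_le : ∃ C : ℝ, ∀ i x, m (g i x) (g i x) ≤ C * m x x
  b_le : ∃ C : ℝ, 0 < C ∧ ∀ x, b x x ≤ C * m x x
  m_le : ∃ C : ℝ, 0 < C ∧ ∀ x, m x x ≤ C * b x x
  inf_dim : ∀ k : ℕ, ∃ F : Submodule ℝ D, Module.finrank ℝ F = k + 1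
  count : ∃ (C : ℝ) (p : ℕ), ∀ (L : ℝ) (F : Submodule ℝ D), 0 ≤ L →
    (∀ x ∈ F, ∑ i, m (d i x) (d i x) ≤ L * b x x) → (Module.finrank ℝ F : ℝ) ≤ C * (1 + L) ^ p

/-- The Dirichlet form. -/
def Pre.a {D : Type*} [AddCommGroup D] [Module ℝ D] {n : ℕ} (S : Pre D n) :
    D →ₗ[ℝ] D →ₗ[ℝ] ℝ := ∑ i, S.m.compl₁₂ (S.d i) (S.d i)

lemma Pre.a_apply {D : Type*} [AddCommGroup D] [Module ℝ D] {n : ℕ} (S : Pre D n) (x y : D) :
    S.a x y = ∑ i, S.m (S.d i x) (S.d i y) := by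
  simp [Pre.a, LinearMap.sum_apply]

/-- Smooth functions that vanish outside the closed ball of radius `R`. -/
def DR (n : ℕ) (R : ℝ) : Submodule ℝ (Euc n → ℝ) where
  carrier := {v | ContDiff ℝ ∞ v ∧ ∀ x, R < ‖x‖ → v x = 0}
  add_mem' := fun {u v} hu hv => ⟨hu.1.add hv.1, fun x hx => by simp [hu.2 x hx, hv.2 x hx]⟩
  zero_mem' := ⟨contDiff_const, fun _ _ => rfl⟩
  smul_mem' := fun c {v} hv => ⟨hv.1.const_smul c, fun x hx => by simp [hv.2 x hx]⟩

/-- The concrete data on a ball (job Conc). -/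
def ConcStmt : Prop :=
  ∀ n : ℕ, 3 ≤ n → ∀ R : ℝ, 0 < R → ∀ V : Euc n → ℝ, Continuous V → (∀ x, 0 < V x) →
    ∃ S : Pre (DR n R) n, ∀ v : DR n R,
      S.a v v = ∫ x, ‖fderiv ℝ (v : Euc n → ℝ) x‖ ^ 2 ∧
      S.m v v = ∫ x, (v : Euc n → ℝ) x ^ 2 ∧
      S.b v v = ∫ x, V x * (v : Euc n → ℝ) x ^ 2

/-- Cutting off at infinity (job Cut). -/
def CutStmt : Prop :=
  ∀ n : ℕ, 4 ≤ n → ∃ χ : ℕ → Euc n → ℝ,
    (∀ i, ContDiff ℝ ∞ (χ i) ∧ ∀ x, (i : ℝ) + 1 < ‖x‖ → χ i x = 0) ∧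
    ∀ (v V : Euc n → ℝ) (C : ℝ), ContDiff ℝ ∞ v → Continuous V →
      (∀ x, |V x| ≤ C * rho x ^ 2) →
      (∀ x, v x ^ 2 ≤ C * rho x ^ (n - 2) ∧ ‖fderiv ℝ v x‖ ^ 2 ≤ C * rho x ^ (n - 1)) →
      Tendsto (fun i : ℕ => ∫ x, ‖fderiv ℝ (fun y => χ i y * v y) x‖ ^ 2) atTop
        (𝓝 (∫ x, ‖fderiv ℝ v x‖ ^ 2)) ∧
      Tendsto (fun i : ℕ => (2 / (1 + ((i : ℝ) + 1) ^ 2)) ^ 2 * ∫ x, (χ i x * v x) ^ 2) atTop
        (𝓝 0) ∧
      Tendsto (fun i : ℕ => ∫ x, V x * (χ i x * v x) ^ 2) atTop (𝓝 (∫ x, V x * v x ^ 2))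

/-- The test profile that compares two heat traces (job Prof). -/
def ProfStmt : Prop :=
  ∀ p c t1 t2 θ : ℝ, 0 < p → 0 < c → 0 < t1 → 0 < t2 →
    (∀ x, c ≤ x → θ * om p (t2 * x) ≤ om p (t1 * x)) →
    ∃ P : Prof c, ∀ x, c ≤ x → x * P.Th x - p * P.Phi x =
      t1 ^ p * Real.exp (-(t1 * x)) - θ * (t2 ^ p * Real.exp (-(t2 * x)))

/-- Properties of the weight function (job Om). -/
def OmStmt : Prop :=
  ∀ p : ℝ, 2 ≤ p →
    (∀ a a', 3 + √3 ≤ a → a ≤ a' → om p a' ≤ om p a) ∧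
    (∀ a a', 0 < a → a ≤ a' → om p (3 - √3) * om p a' ≤ om p (3 + √3) * om p a) ∧
    0 < om p (3 - √3) ∧ om p (3 - √3) ≤ om p (3 + √3) ∧
    4 * om p (3 + √3) ≤ 7 * om p (3 - √3) ∧
    (1 - 9 * (3 + √3) ^ (p - 2) / (Real.Gamma (p + 2) * p * (p - 1))) * om p (3 + √3) ≤
      om p (3 - √3)

/-- The trace inequality for the algebraic data. -/
def PreStmt : Prop :=
  ∀ (D : Type) [AddCommGroup D] [Module ℝ D] (n : ℕ) (S : Pre D n) (μ : ℝ), 0 < μ →
    (∀ k, (MM (S.a + μ • S.m) S.b k).Nonempty) ∧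
    ∀ c : ℝ, 0 < c → (∀ k, c ≤ sInf (MM (S.a + μ • S.m) S.b k)) → ∀ P : Prof c,
      Summable (fun k => P.Phi (sInf (MM (S.a + μ • S.m) S.b k))) ∧
      Summable (fun k => sInf (MM (S.a + μ • S.m) S.b k) *
        P.Th (sInf (MM (S.a + μ • S.m) S.b k))) ∧
      (n : ℝ) / 2 * ∑' k, P.Phi (sInf (MM (S.a + μ • S.m) S.b k)) ≤
        ∑' k, sInf (MM (S.a + μ • S.m) S.b k) * P.Th (sInf (MM (S.a + μ • S.m) S.b k))

end Pool.Agent.Lib.MP_465ce1_mp
end

-- part Pool.Agent.Lib.MP_465ce1_mp.Abs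
section

/-!
The trace inequality for an abstract family of eigenvalue problems `a + μ m = λ b`.
-/

open Filter Topology

namespace Pool.Agent.Lib.MP_465ce1_mp

/-- Abstract data: Dirichlet form `a`, mass form `m`, weighted form `b`, coordinate multipliers. -/
structure Setup (H : Type*) [AddCommGroup H] [Module ℝ H] (ι : Type*) [Fintype ι] where
  a : H →ₗ[ℝ] H →ₗ[ℝ] ℝ
  m : H →ₗ[ℝ] H →ₗ[ℝ] ℝ
  b : H →ₗ[ℝ] H →ₗ[ℝ] ℝ
  g : ι → H →ₗ[ℝ] H
  a_symm : ∀ x y, a x y = a y x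
  m_symm : ∀ x y, m x y = m y x
  b_symm : ∀ x y, b x y = b y x
  a_nonneg : ∀ x, 0 ≤ a x x
  m_nonneg : ∀ x, 0 ≤ m x x
  b_nonneg : ∀ x, 0 ≤ b x x
  m_g : ∀ i x y, m (g i x) y = m x (g i y)
  b_g : ∀ i x y, b (g i x) y = b x (g i y)
  b_g_le : ∃ C : ℝ, ∀ i x, b (g i x) (g i x) ≤ C * b x x
  b_le : ∃ C : ℝ, 0 < C ∧ ∀ x, b x x ≤ C * m x x
  fsum : ∀ i x, a (g i x) (g i x) - a x (g i (g i x)) = m x x
  dc : ∀ μ : ℝ, 0 < μ → ∀ (v : H) (φ : ι → H) (φ0 : H),
    (∑ i, (a (g i v) (φ i) - a v (g i (φ i))) / 2 + μ * m v φ0) ^ 2 ≤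
      m v v * (∑ i, (a (φ i) (φ i) + μ * m (φ i) (φ i)) + μ * (a φ0 φ0 + μ * m φ0 φ0))

variable {H : Type*} [AddCommGroup H] [Module ℝ H] {ι : Type*} [Fintype ι]

namespace Setup

/-- The form `a + μ m`. -/
def q (S : Setup H ι) (μ : ℝ) : H →ₗ[ℝ] H →ₗ[ℝ] ℝ := S.a + μ • S.m

lemma q_apply (S : Setup H ι) (μ : ℝ) (x y : H) : S.q μ x y = S.a x y + μ * S.m x y := by
  simp [q]

lemma q_symm (S : Setup H ι) (μ : ℝ) (x y : H) : S.q μ x y = S.q μ y x := by
  rw [q_apply, q_apply, S.a_symm, S.m_symm]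

lemma q_nonneg (S : Setup H ι) {μ : ℝ} (h : 0 ≤ μ) (x : H) : 0 ≤ S.q μ x x := by
  rw [q_apply]; exact add_nonneg (S.a_nonneg x) (mul_nonneg h (S.m_nonneg x))

/-- Half the commutator form. -/
noncomputable def cf (S : Setup H ι) (i : ι) (x : H) : H →ₗ[ℝ] ℝ :=
  (1 / 2 : ℝ) • (S.a (S.g i x) - (S.a x).comp (S.g i))

lemma cf_apply (S : Setup H ι) (i : ι) (x y : H) :
    S.cf i x y = (S.a (S.g i x) y - S.a x (S.g i y)) / 2 := by
  simp [cf]; ring

/-- A complete system of eigenvectors of `a + μ m = λ b`. -/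
structure IsEig (S : Setup H ι) (μ : ℝ) (v : ℕ → H) (lam : ℕ → ℝ) : Prop where
  pos : ∀ j, 0 < lam j
  eig : ∀ j φ, S.q μ (v j) φ = lam j * S.b (v j) φ
  orth : ∀ j k, S.b (v j) (v k) = if j = k then 1 else 0
  parB : ∀ φ, HasSum (fun k => S.b φ (v k) ^ 2) (S.b φ φ)
  parA : ∀ φ, HasSum (fun k => lam k * S.b φ (v k) ^ 2) (S.q μ φ φ)

variable {S : Setup H ι} {μ μ' : ℝ} {v v' : ℕ → H} {lam lam' : ℕ → ℝ}

lemma IsEig.b_self (E : S.IsEig μ v lam) (j : ℕ) : S.b (v j) (v j) = 1 := by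
  simp [E.orth]

lemma IsEig.q_self (E : S.IsEig μ v lam) (j : ℕ) : S.q μ (v j) (v j) = lam j := by
  rw [E.eig, E.b_self, mul_one]

lemma IsEig.mass_le (E : S.IsEig μ v lam) (j : ℕ) : μ * S.m (v j) (v j) ≤ lam j := by
  have := E.q_self j
  rw [q_apply] at this
  linarith [S.a_nonneg (v j)]

lemma IsEig.proj (E : S.IsEig μ v lam) (l : H →ₗ[ℝ] ℝ) (N : ℕ) :
    ∃ φ : H, l φ = ∑ k ∈ Finset.range N, l (v k) ^ 2 / lam k ∧
      S.q μ φ φ = ∑ k ∈ Finset.range N, l (v k) ^ 2 / lam k := by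
  refine ⟨∑ k ∈ Finset.range N, (l (v k) / lam k) • v k, ?_, ?_⟩
  · rw [map_sum]
    refine Finset.sum_congr rfl fun k _ => ?_
    rw [map_smul, smul_eq_mul]; ring
  · rw [map_sum]
    refine Finset.sum_congr rfl fun k hk => ?_
    rw [map_smul, q_symm, E.eig, map_sum, Finset.sum_eq_single k]
    · rw [map_smul, E.b_self, smul_eq_mul, smul_eq_mul]
      have := (E.pos k).ne'
      field_simp
    · intro j _ hj
      rw [map_smul, E.orth, if_neg (Ne.symm hj), smul_zero]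
    · intro h; exact absurd hk h

/-- The dual norm of the gradient, through the eigenbasis. -/
noncomputable def rk (S : Setup H ι) (v : ℕ → H) (lam : ℕ → ℝ) (x : H) (k : ℕ) : ℝ :=
  ∑ i, S.cf i x (v k) ^ 2 / lam k

lemma IsEig.rk_nonneg (E : S.IsEig μ v lam) (x : H) (k : ℕ) : 0 ≤ S.rk v lam x k :=
  Finset.sum_nonneg fun _ _ => div_nonneg (sq_nonneg _) (E.pos k).le

lemma IsEig.key (E : S.IsEig μ v lam) (hμ : 0 < μ) (x : H) (N : ℕ) (s : ℝ) (φ0 : H) :
    (s * (∑ k ∈ Finset.range N, S.rk v lam x k) + μ * S.m x φ0) ^ 2 ≤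
      S.m x x * (s ^ 2 * (∑ k ∈ Finset.range N, S.rk v lam x k) + μ * S.q μ φ0 φ0) := by
  choose φ h1 h2 using fun i => E.proj (S.cf i x) N
  have h := S.dc μ hμ x (fun i => s • φ i) φ0
  have e : ∑ k ∈ Finset.range N, S.rk v lam x k =
      ∑ i, ∑ k ∈ Finset.range N, S.cf i x (v k) ^ 2 / lam k := Finset.sum_comm
  have e1 : ∑ i, (S.a (S.g i x) (s • φ i) - S.a x (S.g i (s • φ i))) / 2 =
      s * ∑ k ∈ Finset.range N, S.rk v lam x k := by
    rw [e, Finset.mul_sum]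
    refine Finset.sum_congr rfl fun i _ => ?_
    rw [← cf_apply, map_smul, h1, smul_eq_mul]
  have e2 : ∑ i, (S.a (s • φ i) (s • φ i) + μ * S.m (s • φ i) (s • φ i)) =
      s ^ 2 * ∑ k ∈ Finset.range N, S.rk v lam x k := by
    rw [e, Finset.mul_sum]
    refine Finset.sum_congr rfl fun i _ => ?_
    rw [← q_apply, ← h2]
    simp only [map_smul, LinearMap.smul_apply, smul_eq_mul]
    ring
  rw [e1, e2, ← q_apply] at h
  exact h

lemma IsEig.rk_le (E : S.IsEig μ v lam) (hμ : 0 < μ) (x : H) (N : ℕ) :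
    ∑ k ∈ Finset.range N, S.rk v lam x k ≤ S.m x x := by
  have h := E.key hμ x N 1 0
  have h0 : 0 ≤ ∑ k ∈ Finset.range N, S.rk v lam x k :=
    Finset.sum_nonneg fun k _ => E.rk_nonneg x k
  simp only [map_zero, mul_zero, add_zero, one_mul, one_pow] at h
  rcases h0.eq_or_lt with h0 | h0
  · rw [← h0]; exact S.m_nonneg x
  · nlinarith

lemma IsEig.summable_rk (E : S.IsEig μ v lam) (hμ : 0 < μ) (x : H) : Summable (S.rk v lam x) :=
  summable_of_sum_range_le (E.rk_nonneg x) (E.rk_le hμ x)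

lemma IsEig.del_le (E : S.IsEig μ v lam) (hμ : 0 < μ) (x : H) :
    ∑' k, S.rk v lam x k ≤ S.m x x :=
  Real.tsum_le_of_sum_range_le (E.rk_nonneg x) (E.rk_le hμ x)

lemma IsEig.del_nonneg (E : S.IsEig μ v lam) (x : H) : 0 ≤ ∑' k, S.rk v lam x k :=
  tsum_nonneg (E.rk_nonneg x)

lemma IsEig.dual (E : S.IsEig μ v lam) (hμ : 0 < μ) (x φ0 : H) :
    μ * S.m x φ0 ^ 2 ≤ (S.m x x - ∑' k, S.rk v lam x k) * S.q μ φ0 φ0 := by
  have hq := S.q_nonneg hμ.le φ0
  have hN : ∀ N, (∑ k ∈ Finset.range N, S.rk v lam x k) * S.q μ φ0 φ0 + μ * S.m x φ0 ^ 2 ≤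
      S.m x x * S.q μ φ0 φ0 := by
    intro N
    have h := E.key hμ x N (S.q μ φ0 φ0) (S.m x φ0 • φ0)
    have h0 : 0 ≤ ∑ k ∈ Finset.range N, S.rk v lam x k :=
      Finset.sum_nonneg fun k _ => E.rk_nonneg x k
    simp only [map_smul, LinearMap.smul_apply, smul_eq_mul] at h
    set d := ∑ k ∈ Finset.range N, S.rk v lam x k
    set A := S.q μ φ0 φ0
    set M := S.m x φ0
    have ht : 0 ≤ d * A + μ * M ^ 2 := by positivity
    rcases ht.eq_or_lt with ht | ht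
    · rw [← ht]; exact mul_nonneg (S.m_nonneg x) hq
    · have h' : (d * A + μ * M ^ 2) * (d * A + μ * M ^ 2) ≤
          (S.m x x * A) * (d * A + μ * M ^ 2) := by nlinarith
      exact le_of_mul_le_mul_right h' ht
  have lim := (((E.summable_rk hμ x).hasSum.tendsto_sum_nat).mul_const (S.q μ φ0 φ0)).add_const
    (μ * S.m x φ0 ^ 2)
  have := le_of_tendsto' lim hN
  nlinarith

lemma IsEig.bessel (E' : S.IsEig μ' v' lam') (x : H) {T : ℝ} (hT : 0 ≤ T)
    (h : ∀ φ, S.m x φ ^ 2 ≤ T * S.q μ' φ φ) (N : ℕ) :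
    ∑ k ∈ Finset.range N, S.m x (v' k) ^ 2 / lam' k ≤ T := by
  obtain ⟨φ, h1, h2⟩ := E'.proj (S.m x) N
  have h3 := h φ
  rw [h1, h2] at h3
  have h0 : 0 ≤ ∑ k ∈ Finset.range N, S.m x (v' k) ^ 2 / lam' k :=
    Finset.sum_nonneg fun k _ => div_nonneg (sq_nonneg _) (E'.pos k).le
  rcases h0.eq_or_lt with h0 | h0
  · rw [← h0]; exact hT
  · nlinarith

end Setup

lemma Prof.summable_mul {c : ℝ} (hc0 : 0 < c) (P : Prof c) {lam l z : ℕ → ℝ} {f : ℝ → ℝ} {K : ℝ}
    (hc : ∀ j, c ≤ lam j) (hl : ∀ j, l j ≤ lam j)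
    (hs : ∀ s : ℝ, 0 < s → Summable fun j => Real.exp (-(s * l j)))
    (hf : ∀ x, c ≤ x → 0 ≤ f x ∧ f x ≤ P.Phi x + P.Th x + P.psi x)
    (hz : ∀ j, |z j| ≤ K * (1 + lam j)) : Summable fun j => f (lam j) * z j := by
  obtain ⟨s, C, hs0, hb⟩ := P.bound
  refine Summable.of_norm_bounded ((hs s hs0).mul_left (|K| * |C|)) fun j => ?_
  obtain ⟨h0, h1⟩ := hf _ (hc j)
  have h2 := hb _ (hc j)
  have hp : 0 ≤ 1 + lam j := by linarith [hc j]
  have h3 : Real.exp (-(s * lam j)) ≤ Real.exp (-(s * l j)) :=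
    Real.exp_le_exp.mpr (by nlinarith [hl j])
  have h4 : |z j| ≤ |K| * (1 + lam j) :=
    (hz j).trans (mul_le_mul_of_nonneg_right (le_abs_self _) hp)
  have h5 : (1 + lam j) * f (lam j) ≤ |C| * Real.exp (-(s * l j)) :=
    calc _ ≤ _ := mul_le_mul_of_nonneg_left h1 hp
      _ ≤ _ := h2
      _ ≤ |C| * Real.exp (-(s * lam j)) :=
        mul_le_mul_of_nonneg_right (le_abs_self _) (Real.exp_pos _).le
      _ ≤ _ := mul_le_mul_of_nonneg_left h3 (abs_nonneg _)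
  rw [Real.norm_eq_abs, abs_mul, abs_of_nonneg h0]
  calc f (lam j) * |z j| ≤ f (lam j) * (|K| * (1 + lam j)) := mul_le_mul_of_nonneg_left h4 h0
    _ = |K| * ((1 + lam j) * f (lam j)) := by ring
    _ ≤ |K| * (|C| * Real.exp (-(s * l j))) := mul_le_mul_of_nonneg_left h5 (abs_nonneg _)
    _ = _ := by ring

lemma Prof.le_Phi {c : ℝ} (P : Prof c) (x : ℝ) (h : c ≤ x) :
    0 ≤ P.Phi x ∧ P.Phi x ≤ P.Phi x + P.Th x + P.psi x :=
  ⟨P.Phi_nonneg x h, by linarith [P.Th_nonneg x h, P.psi_nonneg x h]⟩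

lemma Prof.le_Th {c : ℝ} (P : Prof c) (x : ℝ) (h : c ≤ x) :
    0 ≤ P.Th x ∧ P.Th x ≤ P.Phi x + P.Th x + P.psi x :=
  ⟨P.Th_nonneg x h, by linarith [P.Phi_nonneg x h, P.psi_nonneg x h]⟩

lemma Prof.le_psi {c : ℝ} (P : Prof c) (x : ℝ) (h : c ≤ x) :
    0 ≤ P.psi x ∧ P.psi x ≤ P.Phi x + P.Th x + P.psi x :=
  ⟨P.psi_nonneg x h, by linarith [P.Phi_nonneg x h, P.Th_nonneg x h]⟩

/-- The spectral side conditions on one eigenvalue sequence. -/
structure Ctl (c : ℝ) (l lam : ℕ → ℝ) : Prop where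
  c_pos : 0 < c
  c_le : ∀ j, c ≤ lam j
  l_le : ∀ j, l j ≤ lam j
  summ : ∀ s : ℝ, 0 < s → Summable fun j => Real.exp (-(s * l j))

namespace Ctl

variable {c : ℝ} {l lam : ℕ → ℝ}

lemma sTh (C : Ctl c l lam) (P : Prof c) {z : ℕ → ℝ} (K : ℝ) (h0 : ∀ j, 0 ≤ z j)
    (hz : ∀ j, z j ≤ K * (1 + lam j)) : Summable fun j => P.Th (lam j) * z j :=
  P.summable_mul C.c_pos C.c_le C.l_le C.summ P.le_Th fun j => by
    rw [abs_of_nonneg (h0 j)]; exact hz j

lemma sPsi (C : Ctl c l lam) (P : Prof c) {z : ℕ → ℝ} (K : ℝ) (h0 : ∀ j, 0 ≤ z j)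
    (hz : ∀ j, z j ≤ K * (1 + lam j)) : Summable fun j => P.psi (lam j) * z j :=
  P.summable_mul C.c_pos C.c_le C.l_le C.summ P.le_psi fun j => by
    rw [abs_of_nonneg (h0 j)]; exact hz j

lemma pos (C : Ctl c l lam) (j : ℕ) : 0 < lam j := C.c_pos.trans_le (C.c_le j)

lemma sPhi (C : Ctl c l lam) (P : Prof c) : Summable fun j => P.Phi (lam j) := by
  have := P.summable_mul (z := fun _ => 1) (K := 1) C.c_pos C.c_le C.l_le C.summ P.le_Phi
    fun j => by rw [abs_one]; linarith [C.pos j]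
  simpa using this

lemma sLam (C : Ctl c l lam) (P : Prof c) : Summable fun j => lam j * P.Th (lam j) := by
  have := C.sTh P (z := lam) 1 (fun j => (C.pos j).le) fun j => by linarith
  simpa [mul_comm] using this

end Ctl

namespace Setup

variable {S : Setup H ι} {μ μ' c : ℝ} {v v' : ℕ → H} {lam lam' l : ℕ → ℝ}

/-- `D = sum of Th(λ_j) m(v_j, v_j)`. -/
noncomputable def DD (S : Setup H ι) (P : Prof c) (v : ℕ → H) (lam : ℕ → ℝ) : ℝ :=
  ∑' j, P.Th (lam j) * S.m (v j) (v j)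

/-- `Ψ = sum of psi(λ_j) m(v_j, v_j)`. -/
noncomputable def PP (S : Setup H ι) (P : Prof c) (v : ℕ → H) (lam : ℕ → ℝ) : ℝ :=
  ∑' j, P.psi (lam j) * S.m (v j) (v j)

/-- `Δ = sum of psi(λ_j)` times the dual norm of the gradient of `v_j`. -/
noncomputable def GG (S : Setup H ι) (P : Prof c) (v : ℕ → H) (lam : ℕ → ℝ) : ℝ :=
  ∑' j, P.psi (lam j) * ∑' k, S.rk v lam (v j) k

lemma IsEig.mass_le' (E : S.IsEig μ v lam) (hμ : 0 < μ) (j : ℕ) :
    S.m (v j) (v j) ≤ μ⁻¹ * (1 + lam j) := by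
  have := E.mass_le j
  rw [inv_mul_eq_div, le_div_iff₀ hμ]
  linarith

lemma IsEig.fsum_ineq (E : S.IsEig μ v lam) (hμ : 0 < μ) (C : Ctl c l lam) (P : Prof c) :
    (Fintype.card ι : ℝ) / 2 * S.DD P v lam ≤ S.GG P v lam := by
  obtain ⟨Cg, hCg⟩ := S.b_g_le
  set n : ℝ := (Fintype.card ι : ℝ) with hn
  have hn0 : 0 ≤ n := Nat.cast_nonneg _
  set B : ℕ → ℝ := fun j => ∑ i, S.b (S.g i (v j)) (S.g i (v j)) with hBdef
  set A : ℕ → ℝ := fun j => ∑ i, S.q μ (S.g i (v j)) (S.g i (v j)) with hAdef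
  set U : ℕ → ℝ := fun j => 4 * ∑' k, S.rk v lam (v j) k with hUdef
  set q : ℕ → ℕ → ℝ := fun j k => ∑ i, S.b (S.g i (v j)) (v k) ^ 2 with hqdef
  have hsym : ∀ j k, q j k = q k j := fun j k =>
    Finset.sum_congr rfl fun i _ => by rw [S.b_g, S.b_symm]
  have hAB : ∀ j, A j - lam j * B j = n * S.m (v j) (v j) := by
    intro j
    simp only [hAdef, hBdef, Finset.mul_sum, ← Finset.sum_sub_distrib]
    rw [Finset.sum_congr rfl (g := fun _ => S.m (v j) (v j))]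
    · simp [hn]
    · intro i _
      rw [S.b_g, ← E.eig, q_apply, q_apply, S.m_g, ← S.fsum i (v j)]; ring
  have hB0 : ∀ j, 0 ≤ B j := fun j => Finset.sum_nonneg fun i _ => S.b_nonneg _
  have hB1 : ∀ j, B j ≤ n * |Cg| := fun j => by
    calc B j ≤ ∑ _i : ι, |Cg| := Finset.sum_le_sum fun i _ => by
          have := hCg i (v j); rw [E.b_self, mul_one] at this; exact this.trans (le_abs_self _)
      _ = _ := by simp [hn]
  have hB : ∀ j, HasSum (q j) (B j) := fun j => hasSum_sum fun i _ => E.parB _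
  have hA : ∀ j, HasSum (fun k => lam k * q j k) (A j) := fun j => by
    simp only [hqdef, Finset.mul_sum]
    exact hasSum_sum fun i _ => E.parA _
  have hr : ∀ j k, (lam k - lam j) ^ 2 * q j k / lam k = 4 * S.rk v lam (v j) k := by
    intro j k
    simp only [hqdef, rk, Finset.mul_sum, Finset.sum_div]
    refine Finset.sum_congr rfl fun i _ => ?_
    have h1 : (lam k - lam j) * S.b (S.g i (v j)) (v k) = 2 * S.cf i (v j) (v k) := by
      have e1 := E.eig k (S.g i (v j))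
      have e2 := E.eig j (S.g i (v k))
      rw [q_apply, S.a_symm, S.m_symm, S.b_symm] at e1
      rw [q_apply, ← S.m_g, ← S.b_g] at e2
      rw [cf_apply]; linarith
    rw [← mul_pow, h1]; ring
  have hU : ∀ j N, ∑ k ∈ Finset.range N, (lam k - lam j) ^ 2 * q j k / lam k ≤ U j := by
    intro j N
    simp only [hr, ← Finset.mul_sum, hUdef]
    exact mul_le_mul_of_nonneg_left
      ((E.summable_rk hμ _).sum_le_tsum _ fun k _ => E.rk_nonneg _ k) (by norm_num)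
  have hU' : ∀ k N, ∑ j ∈ Finset.range N, (lam k - lam j) ^ 2 * q j k / lam j ≤ U k := by
    intro k N
    refine le_of_eq_of_le (Finset.sum_congr rfl fun j _ => ?_) (hU k N)
    rw [hsym]; ring
  have hw := E.mass_le' hμ
  have hlB : ∀ j, lam j * B j ≤ n * |Cg| * (1 + lam j) := fun j => by
    nlinarith [hB1 j, hB0 j, C.pos j]
  have s2 := C.sTh P (z := fun j => lam j * B j) _ (fun j => mul_nonneg (C.pos j).le (hB0 j)) hlB
  have s1 := C.sTh P (z := A) (n * |Cg| + n * μ⁻¹)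
    (fun j => Finset.sum_nonneg fun i _ => S.q_nonneg hμ.le _) fun j => by
      nlinarith [hAB j, hlB j, mul_le_mul_of_nonneg_left (hw j) hn0]
  have s5 := C.sPsi P (z := U) (4 * μ⁻¹)
    (fun j => mul_nonneg (by norm_num) (E.del_nonneg _)) fun j => by
      have := E.del_le hμ (v j); simp only [hUdef]; nlinarith [hw j]
  have h := pair_ineq (q := q) C.c_pos P C.c_le C.c_le
    (fun j k => Finset.sum_nonneg fun i _ => sq_nonneg _) hB hA
    (fun k => by simp only [hsym _ k]; exact hB k) (fun k => by simp only [hsym _ k]; exact hA k)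
    hU hU' s1 s2 s1 s2 s5 s5
  have e1 : ∑' j, P.Th (lam j) * (A j - lam j * B j) = n * S.DD P v lam := by
    rw [DD, ← tsum_mul_left]; exact tsum_congr fun j => by rw [hAB]; ring
  have e2 : ∑' j, P.psi (lam j) * U j = 4 * S.GG P v lam := by
    rw [GG, ← tsum_mul_left]; exact tsum_congr fun j => by simp only [hUdef]; ring
  rw [e1, e2] at h
  linarith

lemma IsEig.overlap (E : S.IsEig μ v lam) (E' : S.IsEig μ' v' lam') :
    (∀ j, HasSum (fun k => S.b (v j) (v' k) ^ 2) 1) ∧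
    (∀ j, HasSum (fun k => lam' k * S.b (v j) (v' k) ^ 2)
      (lam j + (μ' - μ) * S.m (v j) (v j))) ∧
    ∀ j k, (lam' k - lam j) * S.b (v j) (v' k) = (μ' - μ) * S.m (v j) (v' k) := by
  refine ⟨fun j => ?_, fun j => ?_, fun j k => ?_⟩
  · simpa [E.b_self] using E'.parB (v j)
  · have h := E'.parA (v j)
    have e := E.q_self j
    rw [q_apply] at h e
    have e2 : S.a (v j) (v j) + μ' * S.m (v j) (v j) =
        lam j + (μ' - μ) * S.m (v j) (v j) := by linarith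
    rwa [e2] at h
  · have e1 := E'.eig k (v j)
    have e2 := E.eig j (v' k)
    rw [q_apply, S.a_symm, S.m_symm, S.b_symm] at e1
    rw [q_apply] at e2
    linarith

lemma IsEig.mass_step (E : S.IsEig μ v lam) (E' : S.IsEig μ' v' lam') (hμ : 0 < μ) (h : μ < μ')
    (C : Ctl c l lam) (C' : Ctl c l lam') (P : Prof c) :
    μ * (S.DD P v lam - S.DD P v' lam') ≤
      (μ' - μ) / 2 * (S.PP P v lam - S.GG P v lam + (S.PP P v' lam' - S.GG P v' lam')) := by
  obtain ⟨o1, o2, o3⟩ := E.overlap E'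
  obtain ⟨p1, p2, -⟩ := E'.overlap E
  have hμ' : 0 < μ' := hμ.trans h
  set d := μ' - μ with hd
  have hd0 : 0 < d := by linarith
  set T : ℕ → ℝ := fun j => S.m (v j) (v j) - ∑' k, S.rk v lam (v j) k with hT
  set T' : ℕ → ℝ := fun j => S.m (v' j) (v' j) - ∑' k, S.rk v' lam' (v' j) k with hT'
  have hT0 : ∀ j, 0 ≤ T j := fun j => sub_nonneg.mpr (E.del_le hμ _)
  have hT0' : ∀ j, 0 ≤ T' j := fun j => sub_nonneg.mpr (E'.del_le hμ' _)
  have hU : ∀ j N, ∑ k ∈ Finset.range N, (lam' k - lam j) ^ 2 * S.b (v j) (v' k) ^ 2 / lam' k ≤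
      d ^ 2 * (T j / μ) := by
    intro j N
    have hb := E'.bessel (v j) (div_nonneg (hT0 j) hμ.le) (fun φ => ?_) N
    · refine le_of_eq_of_le ?_ (mul_le_mul_of_nonneg_left hb (sq_nonneg d))
      rw [Finset.mul_sum]
      refine Finset.sum_congr rfl fun k _ => ?_
      rw [← mul_pow, o3]; ring
    · have h1 := E.dual hμ (v j) φ
      have h2 : S.q μ φ φ ≤ S.q μ' φ φ := by
        rw [q_apply, q_apply]; nlinarith [S.m_nonneg φ]
      rw [div_mul_eq_mul_div, le_div_iff₀ hμ]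
      nlinarith [mul_le_mul_of_nonneg_left h2 (hT0 j)]
  have hU' : ∀ k N, ∑ j ∈ Finset.range N, (lam' k - lam j) ^ 2 * S.b (v j) (v' k) ^ 2 / lam j ≤
      d ^ 2 * (T' k / μ) := by
    intro k N
    have hb := E.bessel (v' k) (div_nonneg (hT0' k) hμ.le) (fun φ => ?_) N
    · refine le_of_eq_of_le ?_ (mul_le_mul_of_nonneg_left hb (sq_nonneg d))
      rw [Finset.mul_sum]
      refine Finset.sum_congr rfl fun j _ => ?_
      rw [← mul_pow, o3, S.m_symm]; ring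
    · have h1 := E'.dual hμ' (v' k) φ
      have h2 : μ * S.q μ' φ φ ≤ μ' * S.q μ φ φ := by
        rw [q_apply, q_apply]; nlinarith [S.a_nonneg φ]
      rw [div_mul_eq_mul_div, le_div_iff₀ hμ]
      have h3 := mul_le_mul_of_nonneg_left h2 (hT0' k)
      have h4 := mul_le_mul_of_nonneg_left h1 hμ.le
      have h5 : μ' * (S.m (v' k) φ ^ 2 * μ) ≤ μ' * (T' k * S.q μ φ φ) := by nlinarith
      exact le_of_mul_le_mul_left h5 hμ'
  have hw := E.mass_le' hμ
  have hw' := E'.mass_le' hμ'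
  have m0 := fun j => S.m_nonneg (v j)
  have m0' := fun j => S.m_nonneg (v' j)
  have sw := C.sTh P _ m0 hw
  have sw' := C'.sTh P _ m0' hw'
  have sp := C.sPsi P _ m0 hw
  have sp' := C'.sPsi P _ m0' hw'
  have sg := C.sPsi P _ (fun j => E.del_nonneg (v j)) fun j => (E.del_le hμ _).trans (hw j)
  have sg' := C'.sPsi P _ (fun j => E'.del_nonneg (v' j)) fun j => (E'.del_le hμ' _).trans (hw' j)
  have sl := C.sLam P
  have sl' := C'.sLam P
  have hp := pair_ineq C.c_pos P C.c_le C'.c_le (fun j k => sq_nonneg (S.b (v j) (v' k))) o1 o2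
    (fun k => by simpa only [S.b_symm _ (v' k)] using p1 k)
    (fun k => by simpa only [S.b_symm _ (v' k)] using p2 k) hU hU'
    ((sl.add (sw.mul_left d)).congr fun j => by ring) (sl.congr fun j => by ring)
    ((sl'.add (sw'.mul_left (μ - μ'))).congr fun j => by ring) (sl'.congr fun j => by ring)
    (((sp.sub sg).mul_left (d ^ 2 / μ)).congr fun j => by simp only [hT]; ring)
    (((sp'.sub sg').mul_left (d ^ 2 / μ)).congr fun j => by simp only [hT']; ring)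
  have e1 : ∑' j, P.Th (lam j) * (lam j + d * S.m (v j) (v j) - lam j * 1) =
      d * S.DD P v lam := by
    rw [DD, ← tsum_mul_left]; exact tsum_congr fun j => by ring
  have e2 : ∑' j, P.Th (lam' j) * (lam' j + (μ - μ') * S.m (v' j) (v' j) - lam' j * 1) =
      -d * S.DD P v' lam' := by
    rw [DD, ← tsum_mul_left]; exact tsum_congr fun j => by rw [hd]; ring
  have e3 : ∑' j, P.psi (lam j) * (d ^ 2 * (T j / μ)) =
      d ^ 2 / μ * (S.PP P v lam - S.GG P v lam) := by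
    rw [PP, GG, ← sp.tsum_sub sg, ← tsum_mul_left]
    exact tsum_congr fun j => by simp only [hT]; ring
  have e4 : ∑' j, P.psi (lam' j) * (d ^ 2 * (T' j / μ)) =
      d ^ 2 / μ * (S.PP P v' lam' - S.GG P v' lam') := by
    rw [PP, GG, ← sp'.tsum_sub sg', ← tsum_mul_left]
    exact tsum_congr fun j => by simp only [hT']; ring
  rw [e1, e2, e3, e4] at hp
  have h5 : d / μ * (μ * (S.DD P v lam - S.DD P v' lam')) ≤
      d / μ * (d / 2 * (S.PP P v lam - S.GG P v lam + (S.PP P v' lam' - S.GG P v' lam'))) := by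
    have e5 : d / μ * (μ * (S.DD P v lam - S.DD P v' lam')) =
        d * S.DD P v lam + -d * S.DD P v' lam' := by field_simp; ring
    rw [e5]
    refine hp.trans (le_of_eq ?_)
    ring
  exact le_of_mul_le_mul_left h5 (div_pos hd0 hμ)

lemma IsEig.tan_Phi (E : S.IsEig μ v lam) (E' : S.IsEig μ' v' lam') (hμ : 0 < μ)
    (C : Ctl c l lam) (C' : Ctl c l lam') (P : Prof c) :
    ∑' j, P.Phi (lam j) - (μ' - μ) * S.DD P v lam ≤ ∑' j, P.Phi (lam' j) := by
  obtain ⟨o1, o2, -⟩ := E.overlap E'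
  obtain ⟨p1, -, -⟩ := E'.overlap E
  have sw := C.sTh P _ (fun j => S.m_nonneg (v j)) (E.mass_le' hμ)
  have h := tangent_ineq (F := P.Phi) (G := P.Th) (x := lam') (y := lam)
    (q := fun j k => S.b (v k) (v' j) ^ 2) (fun j k => sq_nonneg _)
    (fun k => by simpa only [S.b_symm _ (v' k)] using p1 k) o1 o2
    (fun j => P.Phi_nonneg _ (C'.c_le j)) (fun j k => P.tanPhi _ _ (C.c_le k) (C'.c_le j))
    (C'.sPhi P) (C.sPhi P) ((sw.mul_left (μ' - μ)).congr fun j => by ring)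
  refine le_of_eq_of_le ?_ h
  rw [DD, ← tsum_mul_left]
  congr 1
  exact tsum_congr fun j => by ring

lemma IsEig.tan_Rho (E : S.IsEig μ v lam) (E' : S.IsEig μ' v' lam') (hμ : 0 < μ)
    (C : Ctl c l lam) (C' : Ctl c l lam') (P : Prof c) :
    ∑' j, lam j * P.Th (lam j) + ∑' j, P.Phi (lam j) - (μ' - μ) * S.PP P v lam ≤
      ∑' j, lam' j * P.Th (lam' j) + ∑' j, P.Phi (lam' j) := by
  obtain ⟨o1, o2, -⟩ := E.overlap E'
  obtain ⟨p1, -, -⟩ := E'.overlap E
  have sw := C.sPsi P _ (fun j => S.m_nonneg (v j)) (E.mass_le' hμ)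
  have h := tangent_ineq (F := fun x => x * P.Th x + P.Phi x) (G := P.psi) (x := lam') (y := lam)
    (q := fun j k => S.b (v k) (v' j) ^ 2) (fun j k => sq_nonneg _)
    (fun k => by simpa only [S.b_symm _ (v' k)] using p1 k) o1 o2
    (fun j => add_nonneg (mul_nonneg (C'.pos j).le (P.Th_nonneg _ (C'.c_le j)))
      (P.Phi_nonneg _ (C'.c_le j))) (fun j k => P.tanRho _ _ (C.c_le k) (C'.c_le j))
    ((C'.sLam P).add (C'.sPhi P)) ((C.sLam P).add (C.sPhi P))
    ((sw.mul_left (μ' - μ)).congr fun j => by ring)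
  rw [(C'.sLam P).tsum_add (C'.sPhi P), (C.sLam P).tsum_add (C.sPhi P)] at h
  refine le_of_eq_of_le ?_ h
  rw [PP, ← tsum_mul_left]
  congr 1
  exact tsum_congr fun j => by ring

/-- The abstract trace inequality. -/
theorem trace_ineq (S : Setup H ι) {μ0 : ℝ} (hμ0 : 0 < μ0) {v : ℝ → ℕ → H} {lam : ℝ → ℕ → ℝ}
    (E : ∀ μ, μ0 ≤ μ → S.IsEig μ (v μ) (lam μ)) (C : ∀ μ, μ0 ≤ μ → Ctl c l (lam μ))
    (P : Prof c) :
    (Fintype.card ι : ℝ) / 2 * ∑' j, P.Phi (lam μ0 j) ≤ ∑' j, lam μ0 j * P.Th (lam μ0 j) := by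
  set n : ℝ := (Fintype.card ι : ℝ) with hn
  have hn0 : 0 ≤ n := Nat.cast_nonneg _
  set T : ℝ → ℝ := fun μ => ∑' j, P.Phi (lam μ j) with hT
  set L : ℝ → ℝ := fun μ => ∑' j, lam μ j * P.Th (lam μ j) with hL
  set D : ℝ → ℝ := fun μ => S.DD P (v μ) (lam μ) with hD
  set Ψ : ℝ → ℝ := fun μ => S.PP P (v μ) (lam μ) with hΨ
  set Q : ℝ → ℝ := fun μ => L μ - n / 2 * T μ - μ * D μ with hQ
  have hmono : ∀ μ, μ0 ≤ μ → Q μ ≤ Q μ0 := by
    intro μ1 h1
    refine telescope (U := fun μ => Ψ μ / 2 + (n / 4 + 1) * D μ) h1 fun x y hx hxy _ => ?_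
    rcases hxy.eq_or_lt with rfl | hlt
    · simp
    have hy : μ0 ≤ y := hx.trans hxy
    have hx0 : 0 < x := hμ0.trans_le hx
    have hy0 : 0 < y := hμ0.trans_le hy
    have a1 := (E x hx).mass_step (E y hy) hx0 hlt (C x hx) (C y hy) P
    have a2 := (E x hx).tan_Phi (E y hy) hx0 (C x hx) (C y hy) P
    have a3 := (E y hy).tan_Rho (E x hx) hy0 (C y hy) (C x hx) P
    have a4 := (E x hx).fsum_ineq hx0 (C x hx) P
    have a5 := (E y hy).fsum_ineq hy0 (C y hy) P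
    have hd : 0 < y - x := by linarith
    have a6 := mul_le_mul_of_nonneg_left a4 hd.le
    have a7 := mul_le_mul_of_nonneg_left a5 hd.le
    have a8 := mul_le_mul_of_nonneg_left a2 (show 0 ≤ n / 2 + 1 by positivity)
    simp only [hQ, hL, hT, hD, hΨ]
    rw [← hn] at a6 a7
    nlinarith
  obtain ⟨s, K, hs, hK⟩ := P.bound
  obtain ⟨Cb, hCb0, hCb⟩ := S.b_le
  have hZ := (C μ0 le_rfl).summ (s / 2) (by positivity)
  set Z := ∑' j, Real.exp (-(s / 2 * l j))
  have hlow : ∀ μ, μ0 ≤ μ → -((n / 2 + 1) * (|K| * Z)) * Real.exp (-(s / 2 / Cb * μ)) ≤ Q μ := by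
    intro μ h
    have hμ : 0 < μ := hμ0.trans_le h
    have Eμ := E μ h
    have Cμ := C μ h
    have hb : ∀ j, (n / 2 + 1) * ((1 + lam μ j) * (P.Phi (lam μ j) + P.Th (lam μ j) +
        P.psi (lam μ j))) ≤ (n / 2 + 1) * (|K| * Real.exp (-(s / 2 / Cb * μ))) *
          Real.exp (-(s / 2 * l j)) := by
      intro j
      have h1 := hK _ (Cμ.c_le j)
      have h2 : μ / Cb ≤ lam μ j := by
        have h3 := hCb (v μ j)
        rw [Eμ.b_self] at h3
        have h4 := Eμ.mass_le j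
        rw [div_le_iff₀ hCb0]; nlinarith
      have h3 : Real.exp (-(s * lam μ j)) ≤
          Real.exp (-(s / 2 / Cb * μ)) * Real.exp (-(s / 2 * l j)) := by
        rw [← Real.exp_add]
        refine Real.exp_le_exp.mpr ?_
        have e : s / 2 / Cb * μ = s / 2 * (μ / Cb) := by ring
        rw [e]; nlinarith [Cμ.l_le j]
      rw [mul_assoc (n / 2 + 1), mul_assoc |K|]
      refine mul_le_mul_of_nonneg_left (h1.trans ?_) (by positivity)
      exact (mul_le_mul_of_nonneg_right (le_abs_self K) (Real.exp_pos _).le).trans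
        (mul_le_mul_of_nonneg_left h3 (abs_nonneg K))
    have sw := Cμ.sTh P _ (fun j => S.m_nonneg (v μ j)) (Eμ.mass_le' hμ)
    have h1 : n / 2 * T μ + μ * D μ ≤
        (n / 2 + 1) * (|K| * Real.exp (-(s / 2 / Cb * μ))) * Z := by
      refine hasSum_le (fun j => le_trans ?_ (hb j))
        (((Cμ.sPhi P).hasSum.mul_left (n / 2)).add (sw.hasSum.mul_left μ)) (hZ.hasSum.mul_left _)
      have b1 := P.Phi_nonneg _ (Cμ.c_le j)
      have b2 := P.Th_nonneg _ (Cμ.c_le j)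
      have b3 := P.psi_nonneg _ (Cμ.c_le j)
      have b4 := mul_le_mul_of_nonneg_left (Eμ.mass_le j) b2
      have b5 := (Cμ.pos j).le
      have b6 : P.Phi (lam μ j) ≤ (1 + lam μ j) * (P.Phi (lam μ j) + P.Th (lam μ j) +
        P.psi (lam μ j)) := by nlinarith [mul_nonneg b5 b1, mul_nonneg b5 b2, mul_nonneg b5 b3]
      have b7 : P.Th (lam μ j) * lam μ j ≤ (1 + lam μ j) * (P.Phi (lam μ j) + P.Th (lam μ j) +
        P.psi (lam μ j)) := by nlinarith [mul_nonneg b5 b1, mul_nonneg b5 b2, mul_nonneg b5 b3]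
      nlinarith [mul_le_mul_of_nonneg_left b6 hn0]
    have h2 : 0 ≤ L μ := tsum_nonneg fun j =>
      mul_nonneg (Cμ.pos j).le (P.Th_nonneg _ (Cμ.c_le j))
    simp only [hQ]
    nlinarith
  have lim : Tendsto (fun μ : ℝ => -((n / 2 + 1) * (|K| * Z)) * Real.exp (-(s / 2 / Cb * μ)))
      atTop (𝓝 (-((n / 2 + 1) * (|K| * Z)) * 0)) := by
    refine Tendsto.const_mul _ (Real.tendsto_exp_neg_atTop_nhds_zero.comp ?_)
    exact tendsto_id.const_mul_atTop (by positivity)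
  have h0 : -((n / 2 + 1) * (|K| * Z)) * 0 ≤ Q μ0 :=
    le_of_tendsto lim (eventually_atTop.mpr ⟨μ0, fun μ h => (hlow μ h).trans (hmono μ h)⟩)
  have hD0 : 0 ≤ D μ0 := tsum_nonneg fun j =>
    mul_nonneg (P.Th_nonneg _ ((C μ0 le_rfl).c_le j)) (S.m_nonneg _)
  simp only [hQ] at h0
  have := mul_nonneg hμ0.le hD0
  show n / 2 * T μ0 ≤ L μ0
  linarith

end Setup

end Pool.Agent.Lib.MP_465ce1_mp
end

-- part Pool.Agent.Lib.MP_465ce1_mp.Alg
section

/-!
Algebraic identities for commuting skew derivations and coordinate multipliers.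
-/

namespace Pool.Agent.Lib.MP_465ce1_mp

variable {D : Type*} [AddCommGroup D] [Module ℝ D] {n : ℕ}

lemma cs_form (B : D →ₗ[ℝ] D →ₗ[ℝ] ℝ) (h0 : ∀ x, 0 ≤ B x x) (hs : ∀ x y, B x y = B y x)
    (x y : D) : B x y ^ 2 ≤ B x x * B y y := by
  have := LinearMap.BilinForm.apply_mul_apply_le_of_forall_zero_le B h0 x y
  rwa [← hs x y, ← sq] at this

lemma two_form (B : D →ₗ[ℝ] D →ₗ[ℝ] ℝ) (h0 : ∀ x, 0 ≤ B x x) (hs : ∀ x y, B x y = B y x)
    (x y : D) : 2 * |B x y| ≤ B x x + B y y := by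
  have h1 := h0 (x + y)
  have h2 := h0 (x - y)
  simp only [map_add, map_sub, LinearMap.add_apply, LinearMap.sub_apply, hs y x] at h1 h2
  cases abs_cases (B x y) <;> linarith

namespace Pre

variable (S : Pre D n)

lemma m_nonneg (x : D) : 0 ≤ S.m x x := by
  by_cases hx : x = 0
  · simp [hx]
  · exact (S.m_pos x hx).le

lemma b_nonneg (x : D) : 0 ≤ S.b x x := by
  obtain ⟨C, hC, h⟩ := S.m_le
  exact nonneg_of_mul_nonneg_right ((S.m_nonneg x).trans (h x)) hC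

lemma a_nonneg (x : D) : 0 ≤ S.a x x := by
  rw [a_apply]; exact Finset.sum_nonneg fun i _ => S.m_nonneg _

lemma a_symm (x y : D) : S.a x y = S.a y x := by
  rw [a_apply, a_apply]; exact Finset.sum_congr rfl fun i _ => S.m_symm _ _

lemma a_g_left (i : Fin n) (v φ : D) :
    S.a (S.g i v) φ = ∑ j, S.m (S.g i (S.d j v)) (S.d j φ) + S.m v (S.d i φ) := by
  rw [a_apply]
  simp only [S.d_g, map_add, LinearMap.add_apply, Finset.sum_add_distrib]
  congr 1
  rw [Finset.sum_eq_single i]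
  · simp
  · intro j _ hj; simp [hj]
  · simp

lemma comm (i : Fin n) (v φ : D) :
    S.a (S.g i v) φ - S.a v (S.g i φ) = 2 * S.m v (S.d i φ) := by
  rw [S.a_symm v, a_g_left, a_g_left]
  have h1 : ∀ j, S.m (S.g i (S.d j φ)) (S.d j v) = S.m (S.g i (S.d j v)) (S.d j φ) := fun j => by
    rw [S.m_g, S.m_symm]
  have h2 : S.m φ (S.d i v) = -S.m v (S.d i φ) := by rw [S.m_symm, S.m_d]
  simp only [h1, h2]; ring

lemma fsum (i : Fin n) (x : D) : S.a (S.g i x) (S.g i x) - S.a x (S.g i (S.g i x)) = S.m x x := by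
  rw [comm]
  have h1 : S.m x (S.d i (S.g i x)) = S.m x (S.g i (S.d i x)) + S.m x x := by
    rw [S.d_g]; simp
  have h2 := S.m_d i x (S.g i x)
  rw [← S.m_g, S.m_symm] at h2
  linarith

lemma dc (μ : ℝ) (hμ : 0 < μ) (v : D) (φ : Fin n → D) (φ0 : D) :
    (∑ i, (S.a (S.g i v) (φ i) - S.a v (S.g i (φ i))) / 2 + μ * S.m v φ0) ^ 2 ≤
      S.m v v * (∑ i, (S.a (φ i) (φ i) + μ * S.m (φ i) (φ i)) +
        μ * (S.a φ0 φ0 + μ * S.m φ0 φ0)) := by
  set w := ∑ i, S.d i (φ i) + μ • φ0 with hw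
  have e1 : ∑ i, (S.a (S.g i v) (φ i) - S.a v (S.g i (φ i))) / 2 + μ * S.m v φ0 = S.m v w := by
    simp only [comm, hw, map_add, map_sum, map_smul, smul_eq_mul]
    congr 1
    exact Finset.sum_congr rfl fun i _ => by ring
  rw [e1]
  refine (cs_form S.m S.m_nonneg S.m_symm v w).trans
    (mul_le_mul_of_nonneg_left ?_ (S.m_nonneg v))
  have e2 : S.m w w = ∑ i, ∑ j, S.m (S.d j (φ j)) (S.d i (φ i)) +
      2 * μ * ∑ i, S.m (S.d i (φ i)) φ0 + μ * (μ * S.m φ0 φ0) := by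
    simp only [hw, map_add, map_sum, map_smul, smul_eq_mul, LinearMap.add_apply,
      LinearMap.sum_apply, LinearMap.smul_apply, Finset.sum_add_distrib, S.m_symm φ0 (S.d _ _),
      ← Finset.mul_sum]
    ring
  have h1 : ∀ i j, S.m (S.d j (φ j)) (S.d i (φ i)) ≤
      (S.m (S.d i (φ j)) (S.d i (φ j)) + S.m (S.d j (φ i)) (S.d j (φ i))) / 2 := by
    intro i j
    have h := two_form S.m S.m_nonneg S.m_symm (S.d i (φ j)) (S.d j (φ i))
    have e : S.m (S.d j (φ j)) (S.d i (φ i)) = S.m (S.d i (φ j)) (S.d j (φ i)) := by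
      rw [S.m_d, S.m_d, S.d_comm]
    rw [e]
    linarith [le_abs_self (S.m (S.d i (φ j)) (S.d j (φ i)))]
  have h2 : ∑ i, ∑ j, S.m (S.d j (φ j)) (S.d i (φ i)) ≤ ∑ i, S.a (φ i) (φ i) := by
    refine (Finset.sum_le_sum fun i _ => Finset.sum_le_sum fun j _ => h1 i j).trans (le_of_eq ?_)
    simp only [← Finset.sum_div, Finset.sum_add_distrib, a_apply]
    rw [Finset.sum_comm]
    ring
  have h3 : 2 * ∑ i, S.m (S.d i (φ i)) φ0 ≤ ∑ i, S.m (φ i) (φ i) + S.a φ0 φ0 := by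
    rw [a_apply, Finset.mul_sum, ← Finset.sum_add_distrib]
    refine Finset.sum_le_sum fun i _ => ?_
    have h := two_form S.m S.m_nonneg S.m_symm (φ i) (S.d i φ0)
    rw [S.m_d]
    linarith [neg_abs_le (S.m (φ i) (S.d i φ0))]
  rw [e2, Finset.sum_add_distrib, ← Finset.mul_sum]
  nlinarith [mul_le_mul_of_nonneg_left h3 hμ.le]

lemma b_g_le : ∃ C : ℝ, ∀ i x, S.b (S.g i x) (S.g i x) ≤ C * S.b x x := by
  obtain ⟨C1, h1⟩ := S.g_le
  obtain ⟨C2, h20, h2⟩ := S.b_le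
  obtain ⟨C3, h30, h3⟩ := S.m_le
  refine ⟨C2 * (|C1| * C3), fun i x => (h2 _).trans ?_⟩
  rw [mul_assoc, mul_assoc]
  refine mul_le_mul_of_nonneg_left ((h1 i x).trans ?_) h20.le
  exact (mul_le_mul_of_nonneg_right (le_abs_self _) (S.m_nonneg x)).trans
    (mul_le_mul_of_nonneg_left (h3 x) (abs_nonneg _))

lemma g_bound : ∃ C : ℝ, 0 ≤ C ∧ ∀ i x, S.a (S.g i x) (S.g i x) + S.m (S.g i x) (S.g i x) ≤
    C * (S.a x x + S.m x x) := by
  obtain ⟨C1, h1⟩ := S.g_le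
  have h1' : ∀ i x, S.m (S.g i x) (S.g i x) ≤ |C1| * S.m x x := fun i x =>
    (h1 i x).trans (mul_le_mul_of_nonneg_right (le_abs_self _) (S.m_nonneg x))
  refine ⟨2 * |C1| + 2 * n, by positivity, fun i x => ?_⟩
  have h2 : S.a (S.g i x) (S.g i x) ≤ 2 * |C1| * S.a x x + 2 * n * S.m x x := by
    have e : 2 * |C1| * S.a x x + 2 * n * S.m x x =
        ∑ j, (2 * (|C1| * S.m (S.d j x) (S.d j x)) + 2 * S.m x x) := by
      rw [a_apply, Finset.sum_add_distrib, Finset.mul_sum]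
      simp only [Finset.sum_const, Finset.card_univ, Fintype.card_fin, nsmul_eq_mul]
      congr 1
      · exact Finset.sum_congr rfl fun j _ => by ring
      · ring
    rw [e, a_apply]
    refine Finset.sum_le_sum fun j _ => ?_
    rw [S.d_g]
    have h3 := h1' i (S.d j x)
    split_ifs
    · have h := two_form S.m S.m_nonneg S.m_symm (S.g i (S.d j x)) x
      simp only [map_add, LinearMap.add_apply, S.m_symm x (S.g i (S.d j x))]
      linarith [le_abs_self (S.m (S.g i (S.d j x)) x)]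
    · rw [add_zero]
      linarith [S.m_nonneg x, S.m_nonneg (S.g i (S.d j x))]
  have h4 := h1' i x
  have h5 := mul_nonneg (abs_nonneg C1) (S.m_nonneg x)
  have h6 := mul_nonneg (Nat.cast_nonneg (α := ℝ) n) (S.a_nonneg x)
  nlinarith

lemma clos (ψ : D) : ∃ C : ℝ, ∀ φ, S.a φ ψ ^ 2 ≤ C * S.m φ φ := by
  refine ⟨S.m (∑ i, S.d i (S.d i ψ)) (∑ i, S.d i (S.d i ψ)), fun φ => ?_⟩
  have e : S.a φ ψ = -S.m φ (∑ i, S.d i (S.d i ψ)) := by
    rw [a_apply, map_sum, ← Finset.sum_neg_distrib]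
    exact Finset.sum_congr rfl fun i _ => S.m_d _ _ _
  rw [e, neg_sq, mul_comm]
  exact cs_form S.m S.m_nonneg S.m_symm _ _

end Pre

end Pool.Agent.Lib.MP_465ce1_mp
end

-- part Pool.Agent.Lib.MP_465ce1_mp.Trans
section

/-!
Transfer of min-max values along approximating maps.
-/

open Filter Topology

namespace Pool.Agent.Lib.MP_465ce1_mp

theorem trans_pos {E : Type*} [AddCommGroup E] [Module ℝ E] [FiniteDimensional ℝ E] {α : Type*}
    {l : Filter α} (r : α → E →ₗ[ℝ] E →ₗ[ℝ] ℝ) (R : E → ℝ)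
    (h : ∀ x, Tendsto (fun i => r i x x) l (𝓝 (R x))) (hR : ∀ x, x ≠ 0 → 0 < R x) :
    ∀ᶠ i in l, ∀ x, x ≠ 0 → 0 < r i x x := by
  rcases l.eq_or_neBot with rfl | hl
  · simp
  set e := Module.finBasis ℝ E
  set s : α → _ → _ → ℝ := fun i a b =>
    (r i (e a + e b) (e a + e b) - r i (e a) (e a) - r i (e b) (e b)) / 2 with hs
  set S : _ → _ → ℝ := fun a b => (R (e a + e b) - R (e a) - R (e b)) / 2 with hS
  have hsS : ∀ a b, Tendsto (fun i => s i a b) l (𝓝 (S a b)) := fun a b =>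
    (((h _).sub (h _)).sub (h _)).div_const 2
  have hexp : ∀ i (c : Fin (Module.finrank ℝ E) → ℝ), r i (e.equivFun.symm c) (e.equivFun.symm c) =
      ∑ a, ∑ b, c a * c b * s i a b := by
    intro i c
    have h1 : r i (e.equivFun.symm c) (e.equivFun.symm c) =
        ∑ a, ∑ b, c a * c b * r i (e a) (e b) := by
      simp only [Module.Basis.equivFun_symm_apply, map_sum, map_smul, LinearMap.sum_apply,
        LinearMap.smul_apply, smul_eq_mul, Finset.mul_sum]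
      rw [Finset.sum_comm]
      exact Finset.sum_congr rfl fun a _ => Finset.sum_congr rfl fun b _ => by ring
    have h2 : ∑ a, ∑ b, c a * c b * r i (e a) (e b) = ∑ a, ∑ b, c a * c b * r i (e b) (e a) := by
      rw [Finset.sum_comm]
      exact Finset.sum_congr rfl fun a _ => Finset.sum_congr rfl fun b _ => by ring
    have h3 : ∑ a, ∑ b, c a * c b * s i a b = (∑ a, ∑ b, c a * c b * r i (e a) (e b) +
        ∑ a, ∑ b, c a * c b * r i (e b) (e a)) / 2 := by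
      simp only [← Finset.sum_add_distrib, Finset.sum_div]
      refine Finset.sum_congr rfl fun a _ => Finset.sum_congr rfl fun b _ => ?_
      simp only [hs, map_add, LinearMap.add_apply]; ring
    rw [h3, ← h2, h1]; ring
  have hQ : ∀ c : Fin (Module.finrank ℝ E) → ℝ,
      R (e.equivFun.symm c) = ∑ a, ∑ b, c a * c b * S a b := by
    intro c
    refine tendsto_nhds_unique (h _) ?_
    simp only [hexp]
    exact tendsto_finset_sum _ fun a _ => tendsto_finset_sum _ fun b _ => (hsS a b).const_mul _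
  obtain ⟨δ, hδ, hδ'⟩ := (isCompact_sphere (0 : Fin (Module.finrank ℝ E) → ℝ) 1).exists_forall_le'
    (f := fun c => ∑ a, ∑ b, c a * c b * S a b) (a := 0) (by fun_prop) fun c hc => by
      rw [← hQ]
      refine hR _ fun h0 => ?_
      rw [LinearEquiv.map_eq_zero_iff] at h0
      simp [h0] at hc
  have hev : Tendsto (fun i => ∑ a, ∑ b, |s i a b - S a b|) l (𝓝 (∑ a, ∑ b, |S a b - S a b|)) :=
    tendsto_finset_sum _ fun a _ => tendsto_finset_sum _ fun b _ => ((hsS a b).sub_const _).abs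
  simp only [sub_self, abs_zero, Finset.sum_const_zero] at hev
  filter_upwards [hev.eventually (gt_mem_nhds hδ)] with i hi x hx
  set c := e.equivFun x with hc
  have hc0 : c ≠ 0 := fun h0 => hx (e.equivFun.map_eq_zero_iff.mp h0)
  have hn : 0 < ‖c‖ := norm_pos_iff.mpr hc0
  set c' := ‖c‖⁻¹ • c with hc'
  have hn' : ‖c'‖ = 1 := by rw [hc', norm_smul, norm_inv, norm_norm, inv_mul_cancel₀ hn.ne']
  have hx' : x = ‖c‖ • e.equivFun.symm c' := by
    rw [hc', map_smul, smul_smul, mul_inv_cancel₀ hn.ne', one_smul, hc,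
      LinearEquiv.symm_apply_apply]
  have h1 := hδ' c' (by simpa using hn')
  have h2 : ∑ a, ∑ b, c' a * c' b * S a b - ∑ a, ∑ b, |s i a b - S a b| ≤
      ∑ a, ∑ b, c' a * c' b * s i a b := by
    simp only [← Finset.sum_sub_distrib]
    refine Finset.sum_le_sum fun a _ => Finset.sum_le_sum fun b _ => ?_
    have ha : |c' a| ≤ 1 := hn' ▸ norm_le_pi_norm c' a
    have hb : |c' b| ≤ 1 := hn' ▸ norm_le_pi_norm c' b
    have h3 : |c' a * c' b * (s i a b - S a b)| ≤ |s i a b - S a b| := by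
      rw [abs_mul, abs_mul]
      exact mul_le_of_le_one_left (abs_nonneg _) (mul_le_one₀ ha (abs_nonneg _) hb)
    have h4 := neg_abs_le (c' a * c' b * (s i a b - S a b))
    nlinarith
  rw [hx']
  simp only [map_smul, LinearMap.smul_apply, smul_eq_mul, hexp]
  exact mul_pos hn (mul_pos hn (by linarith))

theorem trans_mm {E : Type*} [AddCommGroup E] [Module ℝ E] {k : ℕ}
    (hk : Module.finrank ℝ E = k + 1) {α : Type*} {l : Filter α} {D : α → Type*}
    [∀ i, AddCommGroup (D i)] [∀ i, Module ℝ (D i)] (T : ∀ i, E →ₗ[ℝ] D i)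
    (q b : ∀ i, D i →ₗ[ℝ] D i →ₗ[ℝ] ℝ) (A B : E → ℝ) {L ε : ℝ} (hε : 0 < ε)
    (hq : ∀ x, Tendsto (fun i => q i (T i x) (T i x)) l (𝓝 (A x)))
    (hb : ∀ x, Tendsto (fun i => b i (T i x) (T i x)) l (𝓝 (B x)))
    (hB : ∀ x, x ≠ 0 → 0 < B x) (hA : ∀ x, A x ≤ L * B x) :
    ∀ᶠ i in l, L + ε ∈ MM (q i) (b i) k := by
  haveI : FiniteDimensional ℝ E := Module.finite_of_finrank_eq_succ hk
  have h1 := trans_pos (l := l)
    (fun i => (L + ε) • (b i).compl₁₂ (T i) (T i) - (q i).compl₁₂ (T i) (T i))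
    (fun x => (L + ε) * B x - A x) (fun x => ((hb x).const_mul _).sub (hq x))
    fun x hx => by nlinarith [hA x, mul_pos hε (hB x hx)]
  filter_upwards [h1] with i hi
  simp only [LinearMap.sub_apply, LinearMap.smul_apply, LinearMap.compl₁₂_apply, smul_eq_mul] at hi
  have hinj : Function.Injective (T i) := by
    rw [← LinearMap.ker_eq_bot, LinearMap.ker_eq_bot']
    intro x hx
    by_contra h0
    have := hi x h0
    simp [hx] at this
  refine ⟨LinearMap.range (T i), by rw [LinearMap.finrank_range_of_inj hinj, hk], ?_⟩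
  rintro _ ⟨x, rfl⟩
  by_cases hx : x = 0
  · simp [hx]
  · linarith [hi x hx]

section MM

variable {D D' : Type*} [AddCommGroup D] [Module ℝ D] [AddCommGroup D'] [Module ℝ D']

lemma MM_map {q b : D →ₗ[ℝ] D →ₗ[ℝ] ℝ} {q' b' : D' →ₗ[ℝ] D' →ₗ[ℝ] ℝ} (T : D →ₗ[ℝ] D')
    (hT : Function.Injective T) (hq : ∀ x, q' (T x) (T x) ≤ q x x)
    (hb : ∀ x, b' (T x) (T x) = b x x) (k : ℕ) : MM q b k ⊆ MM q' b' k := by
  rintro L ⟨F, hF, h⟩
  refine ⟨F.map T, by rw [← hF]; exact (Submodule.equivMapOfInjective T hT F).finrank_eq.symm, ?_⟩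
  rintro _ ⟨x, hx, rfl⟩
  rw [hb]; exact (hq x).trans (h x hx)

lemma exists_ne_zero_of_finrank {F : Submodule ℝ D} {k : ℕ} (hF : Module.finrank ℝ F = k + 1) :
    ∃ x ∈ F, x ≠ 0 := by
  by_contra h
  push Not at h
  have : F = ⊥ := (Submodule.eq_bot_iff F).mpr h
  rw [this, finrank_bot] at hF
  omega

end MM

end Pool.Agent.Lib.MP_465ce1_mp
end
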